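import Pool.Agent.Lib.MP_e326dc_an.L.Defs

set_option autoImplicit false

/-!
MP_e326dc_an, part L (= E10): basic facts about local smooth structures.
-/

namespace MP_e326dc_an

open Filter Topology Metric
open scoped ContDiff Manifold

namespace LocLie

variable {G E : Type} [TopologicalSpace G] [Group G] [NormedAddCommGroup E] [NormedSpace ℝ E]
  (L : LocLie G E)

/-- The multiplication in the chart. -/
def mul (x y : E) : E := L.φ (L.φ.symm x * L.φ.symm y)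

/-- The inversion in the chart. -/
def inv (x : E) : E := L.φ (L.φ.symm x)⁻¹

theorem zero_mem : (0 : E) ∈ ball (0 : E) L.r := mem_ball_self L.r_pos

theorem symm_zero : L.φ.symm 0 = 1 := by
  rw [← L.φ_one, L.φ.left_inv L.one_mem]

theorem symm_mem {x : E} (hx : x ∈ ball (0 : E) L.r) : L.φ.symm x ∈ L.φ.source :=
  L.φ.map_target (L.ball_sub hx)

theorem right_inv {x : E} (hx : x ∈ ball (0 : E) L.r) : L.φ (L.φ.symm x) = x :=
  L.φ.right_inv (L.ball_sub hx)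

theorem symm_mul {x y : E} (hx : x ∈ ball (0 : E) L.r) (hy : y ∈ ball (0 : E) L.r) :
    L.φ.symm (L.mul x y) = L.φ.symm x * L.φ.symm y := L.φ.left_inv (L.mul_mem x hx y hy)

theorem symm_inv {x : E} (hx : x ∈ ball (0 : E) L.r) : L.φ.symm (L.inv x) = (L.φ.symm x)⁻¹ :=
  L.φ.left_inv (L.inv_mem x hx)

theorem zero_mul {x : E} (hx : x ∈ ball (0 : E) L.r) : L.mul 0 x = x := by
  rw [mul, L.symm_zero, one_mul, L.right_inv hx]

theorem mul_zero {x : E} (hx : x ∈ ball (0 : E) L.r) : L.mul x 0 = x := by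
  rw [mul, L.symm_zero, mul_one, L.right_inv hx]

theorem inv_zero : L.inv 0 = 0 := by
  rw [inv, L.symm_zero, inv_one, L.φ_one]

theorem continuousOn_symm : ContinuousOn L.φ.symm (ball (0 : E) L.r) :=
  L.φ.continuousOn_symm.mono L.ball_sub

theorem continuousAt_symm : ContinuousAt L.φ.symm (0 : E) :=
  L.continuousOn_symm.continuousAt (ball_mem_nhds _ L.r_pos)

theorem continuousAt_φ : ContinuousAt L.φ (1 : G) :=
  L.φ.continuousAt L.one_mem

theorem contDiffOn_mul : ContDiffOn ℝ ∞ (fun p : E × E => L.mul p.1 p.2)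
    (ball 0 L.r ×ˢ ball 0 L.r) := L.mul_smooth

theorem contDiffOn_inv : ContDiffOn ℝ ∞ L.inv (ball 0 L.r) := L.inv_smooth

/-- The images of small balls are contained in a given neighbourhood of `1`. -/
theorem exists_ball (W : Set G) (hW : W ∈ 𝓝 (1 : G)) :
    ∃ ρ : ℝ, 0 < ρ ∧ ρ ≤ L.r ∧ ∀ x ∈ ball (0 : E) ρ, L.φ.symm x ∈ W := by
  have h1 : L.φ.symm ⁻¹' W ∈ 𝓝 (0 : E) := by
    refine L.continuousAt_symm ?_
    rw [L.symm_zero]
    exact hW
  obtain ⟨ρ, hρ, h2⟩ := Metric.mem_nhds_iff.mp h1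
  exact ⟨min ρ L.r, lt_min hρ L.r_pos, min_le_right _ _, fun x hx =>
    h2 (ball_subset_ball (min_le_left _ _) hx)⟩

/-- The images of balls are neighbourhoods of `1`. -/
theorem image_ball_mem_nhds {ρ : ℝ} (hρ : 0 < ρ) :
    {g : G | g ∈ L.φ.source ∧ L.φ g ∈ ball (0 : E) ρ} ∈ 𝓝 (1 : G) := by
  have h1 : L.φ ⁻¹' ball (0 : E) ρ ∈ 𝓝 (1 : G) := by
    refine L.continuousAt_φ ?_
    rw [L.φ_one]
    exact ball_mem_nhds _ hρ
  exact Filter.inter_mem (L.φ.open_source.mem_nhds L.one_mem) h1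

theorem mem_image_ball {ρ : ℝ} {g : G} (hg : g ∈ L.φ.source) (hg' : L.φ g ∈ ball (0 : E) ρ) :
    L.φ.symm (L.φ g) = g ∧ L.φ g ∈ ball (0 : E) ρ := ⟨L.φ.left_inv hg, hg'⟩

theorem exists_small_mul (ρ : ℝ) (hρ : 0 < ρ) : ∃ ρ' : ℝ, 0 < ρ' ∧ ρ' ≤ L.r ∧ ρ' ≤ ρ ∧
    ∀ x ∈ ball (0 : E) ρ', ∀ y ∈ ball (0 : E) ρ', L.mul x y ∈ ball (0 : E) ρ := by
  have h0 : ((0 : E), (0 : E)) ∈ ball (0 : E) L.r ×ˢ ball (0 : E) L.r := ⟨L.zero_mem, L.zero_mem⟩
  have h1 : ContinuousAt (fun p : E × E => L.mul p.1 p.2) (0, 0) :=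
    L.contDiffOn_mul.continuousOn.continuousAt ((isOpen_ball.prod isOpen_ball).mem_nhds h0)
  have h2 : (fun p : E × E => L.mul p.1 p.2) ⁻¹' ball (0 : E) ρ ∈ 𝓝 ((0 : E), (0 : E)) := by
    refine h1 ?_
    simp only [L.zero_mul L.zero_mem]
    exact ball_mem_nhds _ hρ
  obtain ⟨δ, hδ, h3⟩ := Metric.mem_nhds_iff.mp h2
  refine ⟨min δ (min L.r ρ), lt_min hδ (lt_min L.r_pos hρ), (min_le_right _ _).trans
    (min_le_left _ _), (min_le_right _ _).trans (min_le_right _ _), fun x hx y hy => ?_⟩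
  have h4 : (x, y) ∈ ball ((0 : E), (0 : E)) δ := by
    rw [← ball_prod_same]
    exact ⟨ball_subset_ball (min_le_left _ _) hx, ball_subset_ball (min_le_left _ _) hy⟩
  exact h3 h4

theorem exists_small_inv (ρ : ℝ) (hρ : 0 < ρ) : ∃ ρ' : ℝ, 0 < ρ' ∧ ρ' ≤ L.r ∧ ρ' ≤ ρ ∧
    ∀ x ∈ ball (0 : E) ρ', L.inv x ∈ ball (0 : E) ρ := by
  have h1 : ContinuousAt L.inv (0 : E) :=
    L.contDiffOn_inv.continuousOn.continuousAt (isOpen_ball.mem_nhds L.zero_mem)
  have h2 : L.inv ⁻¹' ball (0 : E) ρ ∈ 𝓝 (0 : E) := by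
    refine h1 ?_
    rw [L.inv_zero]
    exact ball_mem_nhds _ hρ
  obtain ⟨δ, hδ, h3⟩ := Metric.mem_nhds_iff.mp h2
  exact ⟨min δ (min L.r ρ), lt_min hδ (lt_min L.r_pos hρ), (min_le_right _ _).trans
    (min_le_left _ _), (min_le_right _ _).trans (min_le_right _ _), fun x hx =>
    h3 (ball_subset_ball (min_le_left _ _) hx)⟩

/-- The multiplication is close to the second factor if the first one is small, uniformly. -/
theorem exists_mul_near [FiniteDimensional ℝ E] (η : ℝ) (hη : 0 < η) :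
    ∃ ρ : ℝ, 0 < ρ ∧ ρ ≤ L.r / 2 ∧ ∀ y ∈ ball (0 : E) ρ, ∀ w ∈ closedBall (0 : E) (L.r / 2),
      ‖L.mul y w - w‖ < η ∧ ‖L.mul w y - w‖ < η := by
  have hpos := L.r_pos
  have hsub : closedBall (0 : E) (L.r / 2) ⊆ ball 0 L.r :=
    closedBall_subset_ball (by linarith)
  have hcomp : IsCompact (closedBall (0 : E) (L.r / 2) ×ˢ closedBall (0 : E) (L.r / 2)) :=
    (isCompact_closedBall _ _).prod (isCompact_closedBall _ _)
  have hcont : ContinuousOn (fun p : E × E => L.mul p.1 p.2)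
      (closedBall (0 : E) (L.r / 2) ×ˢ closedBall (0 : E) (L.r / 2)) :=
    L.contDiffOn_mul.continuousOn.mono (Set.prod_mono hsub hsub)
  have huc := hcomp.uniformContinuousOn_of_continuous hcont
  rw [Metric.uniformContinuousOn_iff] at huc
  obtain ⟨δ, hδ, h⟩ := huc η hη
  have h0 : (0 : E) ∈ closedBall (0 : E) (L.r / 2) := mem_closedBall_self (by linarith)
  refine ⟨min δ (L.r / 2), lt_min hδ (by linarith), min_le_right _ _, fun y hy w hw => ?_⟩
  have hy2 : y ∈ closedBall (0 : E) (L.r / 2) :=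
    ball_subset_closedBall (ball_subset_ball (min_le_right _ _) hy)
  have hyd : dist y 0 < δ := lt_of_lt_of_le (mem_ball.mp hy) (min_le_left _ _)
  constructor
  · have h1 := h (y, w) ⟨hy2, hw⟩ (0, w) ⟨h0, hw⟩ (by
      rw [Prod.dist_eq, max_lt_iff]
      exact ⟨hyd, by simpa using hδ⟩)
    rw [dist_eq_norm] at h1
    simp only [L.zero_mul (hsub hw)] at h1
    exact h1
  · have h1 := h (w, y) ⟨hw, hy2⟩ (w, 0) ⟨hw, h0⟩ (by
      rw [Prod.dist_eq, max_lt_iff]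
      exact ⟨by simpa using hδ, hyd⟩)
    rw [dist_eq_norm] at h1
    simp only [L.mul_zero (hsub hw)] at h1
    exact h1

end LocLie

end MP_e326dc_an
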