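import Mathlib

set_option autoImplicit false
set_option linter.unusedSectionVars false
set_option linter.unusedVariables false

/-!
MP_e326dc_an, part L (= E10), module L5a: the local product structure of a central extension by a
one-parameter group.
-/

namespace MP_e326dc_an

open Filter Topology Metric

variable {G H : Type} [TopologicalSpace G] [Group G] [IsTopologicalGroup G] [T2Space G]
  [TopologicalSpace H] [Group H] [IsTopologicalGroup H] [T2Space H]

/-- L5a: the local product structure of a central extension by a one-parameter group. -/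
theorem exists_chart (q : G →* H) (hq : Continuous q) (e : ℝ → G)
    (he : Continuous e) (he_add : ∀ t t', e (t + t') = e t * e t')
    (he_central : ∀ t g, e t * g = g * e t) (he_ker : ∀ t, q (e t) = 1) (δ : ℝ) (hδ : 0 < δ)
    (he_inj : Set.InjOn e (Set.Icc (-δ) δ)) (N : Set G) (hN : N ∈ 𝓝 (1 : G))
    (hker : ∀ g ∈ N, q g = 1 → ∃ t : ℝ, |t| < δ ∧ g = e t) (s : H → G) (V : Set H)
    (hV : V ∈ 𝓝 (1 : H)) (hs : ContinuousOn s V) (hs1 : s 1 = 1) (hqs : ∀ y ∈ V, q (s y) = y) :
    ∃ Ψ : OpenPartialHomeomorph G (ℝ × H), (1 : G) ∈ Ψ.source ∧ Ψ 1 = (0, 1) ∧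
      (∀ g ∈ Ψ.source, (Ψ g).2 = q g) ∧
      ∀ p ∈ Ψ.target, |p.1| < δ ∧ p.2 ∈ V ∧ Ψ.symm p = e p.1 * s p.2 := by
  classical
  have he0 : e 0 = 1 := by
    have h := he_add 0 0
    rw [add_zero] at h
    exact (mul_left_cancel (a := e 0) (b := 1) (c := e 0) (by rw [mul_one]; exact h)).symm
  obtain ⟨V₀, hV₀V, hV₀o, hV₀1⟩ := mem_nhds_iff.mp hV
  obtain ⟨N₀, hN₀N, hN₀o, hN₀1⟩ := mem_nhds_iff.mp hN
  have hs₀ : ContinuousOn s V₀ := hs.mono hV₀V
  -- the restriction of `e` to `[-δ, δ]`
  have hcK : CompactSpace (Set.Icc (-δ) δ) := isCompact_iff_compactSpace.mp isCompact_Icc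
  have hecont : Continuous (fun t : Set.Icc (-δ) δ => e t) := he.comp continuous_subtype_val
  have heinj : Function.Injective (fun t : Set.Icc (-δ) δ => e t) := by
    intro a b hab
    exact Subtype.ext (he_inj a.2 b.2 hab)
  have hemb := (hecont.isClosedEmbedding heinj).isEmbedding
  -- the defect
  set D : G → G := fun g => g * (s (q g))⁻¹ with hD
  set Q : Set G := q ⁻¹' V₀ with hQ
  have hQo : IsOpen Q := hV₀o.preimage hq
  have hDc : ContinuousOn D Q := by
    refine continuousOn_id.mul (ContinuousOn.inv ?_)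
    exact hs₀.comp hq.continuousOn fun g hg => hg
  set S : Set G := Q ∩ D ⁻¹' N₀ with hS
  have hSo : IsOpen S := hDc.isOpen_inter_preimage hQo hN₀o
  have hqD : ∀ g ∈ Q, q (D g) = 1 := by
    intro g hg
    simp only [hD]
    rw [map_mul, map_inv, hqs _ (hV₀V hg), mul_inv_cancel]
  have hex : ∀ g ∈ S, ∃ t : ℝ, |t| < δ ∧ D g = e t := fun g hg =>
    hker _ (hN₀N hg.2) (hqD g hg.1)
  set τ : G → ℝ := fun g => if h : ∃ t : ℝ, |t| < δ ∧ D g = e t then h.choose else 0 with hτ
  have hτs : ∀ g ∈ S, |τ g| < δ ∧ D g = e (τ g) := by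
    intro g hg
    have h := hex g hg
    simp only [hτ, dif_pos h]
    exact h.choose_spec
  have hIcc : ∀ t : ℝ, |t| < δ → t ∈ Set.Icc (-δ) δ := fun t ht =>
    ⟨(abs_lt.mp ht).1.le, (abs_lt.mp ht).2.le⟩
  have hτc : ContinuousOn τ S := by
    rw [continuousOn_iff_continuous_domRestrict]
    let τ' : S → Set.Icc (-δ) δ := fun g => ⟨τ g, hIcc _ (hτs g g.2).1⟩
    have h1 : Continuous τ' := by
      rw [hemb.continuous_iff]
      have h2 : ((fun t : Set.Icc (-δ) δ => e t) ∘ τ') = fun g : S => D g := by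
        funext g
        exact (hτs g g.2).2.symm
      rw [h2]
      exact continuousOn_iff_continuous_domRestrict.mp (hDc.mono Set.inter_subset_left)
    exact continuous_subtype_val.comp h1
  -- the inverse map
  set F : ℝ × H → G := fun p => e p.1 * s p.2 with hF
  set W : Set (ℝ × H) := {p | |p.1| < δ ∧ p.2 ∈ V₀} with hW
  have hWo : IsOpen W := by
    refine IsOpen.inter ?_ (hV₀o.preimage continuous_snd)
    exact isOpen_lt (continuous_fst.abs) continuous_const
  have hFc : ContinuousOn F W := by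
    refine (he.comp continuous_fst).continuousOn.mul ?_
    exact hs₀.comp continuous_snd.continuousOn fun p hp => hp.2
  have hqF : ∀ p ∈ W, q (F p) = p.2 := by
    intro p hp
    simp only [hF]
    rw [map_mul, he_ker, one_mul, hqs _ (hV₀V hp.2)]
  have hDF : ∀ p ∈ W, D (F p) = e p.1 := by
    intro p hp
    simp only [hD]
    rw [hqF p hp]
    simp only [hF]
    rw [mul_inv_cancel_right]
  have hFΨ : ∀ g ∈ S, F (τ g, q g) = g := by
    intro g hg
    simp only [hF]
    rw [← (hτs g hg).2]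
    simp only [hD]
    rw [inv_mul_cancel_right]
  have hΨF : ∀ p ∈ W, F p ∈ S → (τ (F p), q (F p)) = p := by
    intro p hp hFp
    refine Prod.ext ?_ (hqF p hp)
    have h1 := (hτs _ hFp).2
    rw [hDF p hp] at h1
    exact (he_inj (hIcc _ hp.1) (hIcc _ (hτs _ hFp).1) h1).symm
  have h1S : (1 : G) ∈ S := by
    refine ⟨?_, ?_⟩
    · show q 1 ∈ V₀
      rw [map_one]
      exact hV₀1
    · show D 1 ∈ N₀
      simp only [hD]
      rw [map_one, hs1, inv_one, mul_one]
      exact hN₀1
  have hτ1 : τ 1 = 0 := by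
    have h1 := hτs 1 h1S
    have h2 : D 1 = e 0 := by
      simp only [hD]
      rw [map_one, hs1, inv_one, mul_one, he0]
    rw [h2] at h1
    exact (he_inj (hIcc 0 (by simpa using hδ)) (hIcc _ h1.1) h1.2).symm
  refine ⟨{
    toFun := fun g => (τ g, q g)
    invFun := F
    source := S
    target := W ∩ F ⁻¹' S
    map_source' := fun g hg => ?_
    map_target' := fun p hp => hp.2
    left_inv' := fun g hg => hFΨ g hg
    right_inv' := fun p hp => hΨF p hp.1 hp.2
    open_source := hSo
    open_target := hFc.isOpen_inter_preimage hWo hSo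
    continuousOn_toFun := hτc.prodMk hq.continuousOn
    continuousOn_invFun := hFc.mono Set.inter_subset_left }, h1S, ?_, fun g _ => rfl, ?_⟩
  · refine ⟨⟨(hτs g hg).1, hg.1⟩, ?_⟩
    show F (τ g, q g) ∈ S
    rw [hFΨ g hg]
    exact hg
  · show (τ 1, q 1) = (0, 1)
    rw [hτ1, map_one]
  · intro p hp
    exact ⟨hp.1.1, hV₀V hp.1.2, rfl⟩

end MP_e326dc_an
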