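import Pool.Agent.Lib.MP_e326dc_an.L.Kernel

set_option autoImplicit false
set_option linter.unusedSectionVars false

/-!
MP_e326dc_an, part L (= E10), module L4: a continuous function with a smooth coboundary is smooth.
-/

namespace MP_e326dc_an

open Filter Topology Metric MeasureTheory
open scoped ContDiff Manifold

variable {H E : Type} [TopologicalSpace H] [Group H] [IsTopologicalGroup H] [T2Space H]
  [NormedAddCommGroup E] [NormedSpace ℝ E] [FiniteDimensional ℝ E]

/-- L4: a continuous function with a smooth coboundary is smooth. -/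
theorem smooth_of_coboundary (L : LocLie H E) (a : H → ℝ) (V : Set H) (hV : V ∈ 𝓝 (1 : H))
    (ha : ContinuousOn a V) (r : ℝ) (hr : 0 < r) (hrL : r ≤ L.r)
    (hs : ContDiffOn ℝ ∞ (fun p : E × E => a (L.φ.symm p.1) + a (L.φ.symm p.2) -
      a (L.φ.symm p.1 * L.φ.symm p.2)) (ball 0 r ×ˢ ball 0 r)) :
    ∃ r' : ℝ, 0 < r' ∧ r' ≤ r ∧ ContDiffOn ℝ ∞ (fun x : E => a (L.φ.symm x)) (ball 0 r') := by
  borelize H E
  obtain ⟨m, hfin, hpos, hae, hinvar⟩ := L.exists_left_haar
  obtain ⟨ρV, hρV, hρVr, hVsub⟩ := L.exists_ball V hV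
  set R1 := min (min r ρV) (L.r / 2) with hR1
  have hLr := L.r_pos
  have hR1pos : 0 < R1 := lt_min (lt_min hr hρV) (by linarith)
  have hR1r : R1 ≤ r := (min_le_left _ _).trans (min_le_left _ _)
  have hR1V : R1 ≤ ρV := (min_le_left _ _).trans (min_le_right _ _)
  have hR1L : R1 ≤ L.r / 2 := min_le_right _ _
  have hu : ContinuousOn (fun x : E => a (L.φ.symm x)) (ball 0 R1) := by
    refine ha.comp (L.continuousOn_symm.mono (ball_subset_ball (by linarith))) ?_
    intro x hx
    exact hVsub x (ball_subset_ball hR1V hx)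
  set R0 := R1 / 2 with hR0
  have hR0pos : 0 < R0 := half_pos hR1pos
  have hR0R1 : R0 < R1 := half_lt_self hR1pos
  set ρ1 := R0 / 2 with hρ1
  have hρ1pos : 0 < ρ1 := half_pos hR0pos
  have hρ1R0 : ρ1 < R0 := half_lt_self hR0pos
  obtain ⟨ρ, hρ, hρr, hker⟩ := L.exists_left_kernel m hae hinvar ρ1 R0 hρ1R0 (by linarith)
  obtain ⟨ψ, hψ, hψ0, hψ1⟩ := exists_bump m hpos ρ1 hρ1pos
  obtain ⟨hk1, hk2⟩ := hker ψ hψ hψ0
  set r' := min ρ R1 with hr'
  have hr'pos : 0 < r' := lt_min hρ hR1pos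
  have hr'ρ : r' ≤ ρ := min_le_left _ _
  have hr'R : r' ≤ R1 := min_le_right _ _
  have hbr : ball (0 : E) r' ⊆ ball 0 r := ball_subset_ball (hr'R.trans hR1r)
  have hbL : ball (0 : E) r ⊆ ball 0 L.r := ball_subset_ball hrL
  set S : E → E → ℝ := fun x y => a (L.φ.symm x) + a (L.φ.symm y) -
      a (L.φ.symm x * L.φ.symm y) with hS
  have hScut : ContDiffOn ℝ ∞ (fun q : E × E => if ‖q.2‖ < R0 then S q.1 q.2 * ψ q.2 else 0)
      (ball 0 r ×ˢ Set.univ) := by
    refine contDiffOn_cutoff (ball 0 r) isOpen_ball (fun x y => S x y * ψ y) ρ1 R0 hρ1R0 ?_ ?_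
    · refine ContDiffOn.mul (hs.mono (Set.prod_mono subset_rfl (ball_subset_ball (by linarith)))) ?_
      exact (hψ.comp contDiff_snd).contDiffOn
    · intro x _ y _ hy
      rw [hψ0 y hy.le, mul_zero]
  have hScut' : ∀ x y, (if ‖y‖ < R0 then S x y * ψ y else 0) = S x y * ψ y := by
    intro x y
    by_cases hy : ‖y‖ < R0
    · rw [if_pos hy]
    · rw [if_neg hy, hψ0 y (by linarith), mul_zero]
  have hScont : ∀ x ∈ ball (0 : E) r, Continuous fun y => S x y * ψ y := by
    intro x hx
    have h1 : Continuous fun y => if ‖y‖ < R0 then S x y * ψ y else 0 := by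
      rw [← continuousOn_univ]
      refine hScut.continuousOn.comp (f := fun y : E => (x, y)) (by fun_prop) ?_
      intro y _
      exact ⟨hx, Set.mem_univ _⟩
    simpa only [hScut'] using h1
  have hSint : ∀ x ∈ ball (0 : E) r, Integrable (fun y => S x y * ψ y) m := fun x hx =>
    integrable_of_ball m _ (hScont x hx) ρ1 fun y hy => by rw [hψ0 y hy, mul_zero]
  have huint : Integrable (fun y => a (L.φ.symm y) * ψ y) m :=
    integrable_of_ball m _ (continuous_mul_cutoff _ ψ ρ1 R1 (by linarith) hu hψ.continuous hψ0)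
      ρ1 fun y hy => by rw [hψ0 y hy, mul_zero]
  have hψint : Integrable ψ m := integrable_of_ball m _ hψ.continuous ρ1 hψ0
  have hmain : ∀ x ∈ ball (0 : E) r', a (L.φ.symm x) =
      (∫ y, 1 * (if ‖y‖ < R0 then S x y * ψ y else 0) ∂m) - (∫ y, a (L.φ.symm y) * ψ y ∂m) +
      ∫ w, (Set.indicator (closedBall (0 : E) R0) (fun w => a (L.φ.symm w)) w) *
        (if ‖w‖ < R0 then ψ (L.mul (L.inv x) w) else 0) ∂m := by
    intro x hx
    have hxr := hbr hx
    have h1 := hk2 x (ball_subset_ball hr'ρ hx) (fun w => a (L.φ.symm w))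
    have h2 : ∫ w, a (L.φ.symm w) * (if ‖w‖ < R0 then ψ (L.mul (L.inv x) w) else 0) ∂m =
        ∫ w, (Set.indicator (closedBall (0 : E) R0) (fun w => a (L.φ.symm w)) w) *
        (if ‖w‖ < R0 then ψ (L.mul (L.inv x) w) else 0) ∂m := by
      refine integral_congr_ae (Eventually.of_forall fun w => ?_)
      by_cases hw : ‖w‖ < R0
      · have hw' : w ∈ closedBall (0 : E) R0 := mem_closedBall_zero_iff.mpr hw.le
        simp only [Set.indicator_of_mem hw']
      · simp only [if_neg hw, mul_zero]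
    rw [← h2, ← h1]
    have h3 : ∫ y, a (L.φ.symm (L.mul x y)) * ψ y ∂m =
        ∫ y, (a (L.φ.symm x) * ψ y - S x y * ψ y + a (L.φ.symm y) * ψ y) ∂m := by
      refine integral_congr_ae (Eventually.of_forall fun y => ?_)
      by_cases hy : ‖y‖ < ρ1
      · have hyr : y ∈ ball (0 : E) L.r := mem_ball_zero_iff.mpr (by linarith)
        simp only [L.symm_mul (hbL hxr) hyr, hS]
        ring
      · simp only [hψ0 y (not_lt.mp hy), mul_zero]
        ring
    have h3a : ∫ y, (a (L.φ.symm x) * ψ y - S x y * ψ y + a (L.φ.symm y) * ψ y) ∂m =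
        ∫ y, (a (L.φ.symm x) * ψ y - S x y * ψ y) ∂m + ∫ y, a (L.φ.symm y) * ψ y ∂m :=
      integral_add ((hψint.const_mul _).sub (hSint x hxr)) huint
    have h3b : ∫ y, (a (L.φ.symm x) * ψ y - S x y * ψ y) ∂m =
        ∫ y, a (L.φ.symm x) * ψ y ∂m - ∫ y, S x y * ψ y ∂m :=
      integral_sub (hψint.const_mul _) (hSint x hxr)
    have h3c : ∫ y, a (L.φ.symm x) * ψ y ∂m = a (L.φ.symm x) := by
      rw [integral_const_mul, hψ1, mul_one]
    rw [h3, h3a, h3b, h3c]
    simp only [hScut', one_mul]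
    ring
  refine ⟨r', hr'pos, hr'R.trans hR1r, ?_⟩
  refine ContDiffOn.congr ?_ hmain
  refine ContDiffOn.add (ContDiffOn.sub ?_ contDiffOn_const) ?_
  · refine ContDiffOn.mono ?_ hbr
    refine smooth_integral m (fun _ => (1 : ℝ)) (integrable_const _) (closedBall (0 : E) R0)
      (isCompact_closedBall _ _) (ball 0 r) isOpen_ball
      (fun x y => if ‖y‖ < R0 then S x y * ψ y else 0) ?_ hScut
    intro x _ y hy
    rw [mem_closedBall_zero_iff, not_le] at hy
    exact if_neg (not_lt.mpr hy.le)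
  · refine ContDiffOn.mono ?_ (ball_subset_ball hr'ρ)
    refine smooth_integral m
      (Set.indicator (closedBall (0 : E) R0) (fun w => a (L.φ.symm w))) ?_ (closedBall (0 : E) R0)
      (isCompact_closedBall _ _) (ball 0 ρ) isOpen_ball
      (fun x w => if ‖w‖ < R0 then ψ (L.mul (L.inv x) w) else 0) ?_ hk1
    · rw [integrable_indicator_iff isClosed_closedBall.measurableSet]
      exact (hu.mono (closedBall_subset_ball hR0R1)).integrableOn_compact
        (isCompact_closedBall _ _)
    · intro x _ y hy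
      rw [mem_closedBall_zero_iff, not_le] at hy
      exact if_neg (not_lt.mpr hy.le)

end MP_e326dc_an
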