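import Pool.Agent.Lib.MP_e326dc_an.L.Integral
import Pool.Agent.Lib.MP_e326dc_an.L.Api

set_option autoImplicit false
set_option linter.unusedSectionVars false

/-!
MP_e326dc_an, part L (= E10), module L3: a continuous local cocycle is cohomologous to a smooth
one.
-/

namespace MP_e326dc_an

open Filter Topology Metric MeasureTheory
open scoped ContDiff Manifold

theorem coc_int3 {X : Type} [MeasurableSpace X] {μ : Measure X} {f g h : X → ℝ}
    (hf : Integrable f μ) (hg : Integrable g μ) (hh : Integrable h μ) :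
    ∫ x, (f x + g x - h x) ∂μ = ∫ x, f x ∂μ + ∫ x, g x ∂μ - ∫ x, h x ∂μ := by
  have h1 := integral_sub (hf.add hg) hh
  simp only [Pi.add_apply] at h1
  rw [h1, integral_add hf hg]

section cocGeneral

/-- A function continuous on an open set and zero off a smaller closed set is continuous. -/
theorem coc_continuous {X Y : Type} [TopologicalSpace X] [TopologicalSpace Y] [Zero Y]
    (U K : Set X) (hU : IsOpen U) (hK : IsClosed K) (hKU : K ⊆ U) (f : X → Y)
    (hf : ContinuousOn f U) (h0 : ∀ x ∉ K, f x = 0) : Continuous f := by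
  rw [continuous_iff_continuousAt]
  intro x
  by_cases hx : x ∈ U
  · exact hf.continuousAt (hU.mem_nhds hx)
  · have hxK : x ∈ Kᶜ := fun h => hx (hKU h)
    have h1 : f =ᶠ[𝓝 x] fun _ => 0 := by
      filter_upwards [hK.isOpen_compl.mem_nhds hxK] with z hz
      exact h0 z hz
    exact (continuousAt_const (y := (0 : Y))).congr h1.symm

variable {E : Type} [NormedAddCommGroup E] [NormedSpace ℝ E]

/-- The transported kernel. -/
noncomputable def cocK (R0 : ℝ) (σ : E → E → E) (ψ : E → ℝ) (y w : E) : ℝ :=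
  open scoped Classical in if ‖w‖ < R0 then ψ (σ y w) else 0

omit [NormedSpace ℝ E] in
theorem cocK_of_lt {R0 : ℝ} {σ : E → E → E} {ψ : E → ℝ} {y w : E} (h : ‖w‖ < R0) :
    cocK R0 σ ψ y w = ψ (σ y w) := by
  simp [cocK, h]

omit [NormedSpace ℝ E] in
theorem cocK_of_ge {R0 : ℝ} {σ : E → E → E} {ψ : E → ℝ} {y w : E} (h : R0 ≤ ‖w‖) :
    cocK R0 σ ψ y w = 0 := by
  simp [cocK, not_lt.mpr h]

theorem cocK_zero {R0 r1 : ℝ} (σ : E → E → E) (ψ : E → ℝ)
    (hψ : ∀ w, R0 / 8 ≤ ‖w‖ → ψ w = 0)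
    (hnear : ∀ y ∈ ball (0 : E) r1, ∀ w ∈ closedBall (0 : E) R0, ‖σ y w - w‖ < R0 / 8)
    {y w : E} (hy : y ∈ ball (0 : E) r1) (hw : R0 / 4 ≤ ‖w‖) : cocK R0 σ ψ y w = 0 := by
  rcases lt_or_ge ‖w‖ R0 with h | h
  · rw [cocK_of_lt h]
    refine hψ _ ?_
    have h1 := hnear y hy w (by rw [mem_closedBall_zero_iff]; exact h.le)
    have h2 : ‖w‖ - ‖σ y w‖ ≤ ‖σ y w - w‖ := by
      rw [norm_sub_rev]
      exact norm_sub_norm_le _ _
    linarith
  · exact cocK_of_ge h

theorem cocK_contDiffOn {R0 r1 : ℝ} (hR0 : 0 < R0) (σ : E → E → E) (ψ : E → ℝ)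
    (hψs : ContDiff ℝ ∞ ψ) (hψ : ∀ w, R0 / 8 ≤ ‖w‖ → ψ w = 0)
    (hnear : ∀ y ∈ ball (0 : E) r1, ∀ w ∈ closedBall (0 : E) R0, ‖σ y w - w‖ < R0 / 8)
    (hσ : ContDiffOn ℝ ∞ (fun q : E × E => σ q.1 q.2) (ball 0 r1 ×ˢ ball 0 R0)) :
    ContDiffOn ℝ ∞ (fun q : E × E => cocK R0 σ ψ q.1 q.2) (ball 0 r1 ×ˢ Set.univ) := by
  rintro ⟨y, w⟩ ⟨hy, -⟩
  simp only at hy
  refine ContDiffAt.contDiffWithinAt ?_
  rcases lt_or_ge ‖w‖ R0 with h | h
  · have hmem : (ball (0 : E) r1 ×ˢ ball (0 : E) R0) ∈ 𝓝 (y, w) :=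
      (isOpen_ball.prod isOpen_ball).mem_nhds ⟨hy, by rwa [mem_ball_zero_iff]⟩
    have h1 : ContDiffAt ℝ ∞ (fun q : E × E => ψ (σ q.1 q.2)) (y, w) :=
      (hψs.comp_contDiffOn hσ).contDiffAt hmem
    refine h1.congr_of_eventuallyEq ?_
    filter_upwards [hmem] with q hq
    exact cocK_of_lt (by simpa using hq.2)
  · have hmem : (ball (0 : E) r1 ×ˢ (closedBall (0 : E) (R0 / 4))ᶜ) ∈ 𝓝 (y, w) := by
      refine (isOpen_ball.prod isClosed_closedBall.isOpen_compl).mem_nhds ⟨hy, ?_⟩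
      simp only [Set.mem_compl_iff, mem_closedBall_zero_iff, not_le]
      linarith
    have h1 : ContDiffAt ℝ ∞ (fun _ : E × E => (0 : ℝ)) (y, w) := contDiffAt_const
    refine h1.congr_of_eventuallyEq ?_
    filter_upwards [hmem] with q hq
    refine cocK_zero σ ψ hψ hnear hq.1 ?_
    have h2 := hq.2
    simp only [Set.mem_compl_iff, mem_closedBall_zero_iff, not_le] at h2
    exact h2.le

theorem cocK_continuous {R0 r1 : ℝ} (hR0 : 0 < R0) (σ : E → E → E) (ψ : E → ℝ)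
    (hψs : ContDiff ℝ ∞ ψ) (hψ : ∀ w, R0 / 8 ≤ ‖w‖ → ψ w = 0)
    (hnear : ∀ y ∈ ball (0 : E) r1, ∀ w ∈ closedBall (0 : E) R0, ‖σ y w - w‖ < R0 / 8)
    (hσ : ContDiffOn ℝ ∞ (fun q : E × E => σ q.1 q.2) (ball 0 r1 ×ˢ ball 0 R0))
    {y : E} (hy : y ∈ ball (0 : E) r1) : Continuous (cocK R0 σ ψ y) := by
  have h1 := (cocK_contDiffOn hR0 σ ψ hψs hψ hnear hσ).continuousOn
  rw [← continuousOn_univ]
  refine h1.comp (f := fun w : E => (y, w)) (by fun_prop) ?_
  intro w _
  exact ⟨hy, Set.mem_univ _⟩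

end cocGeneral

section cocTransport

variable {H E : Type} [TopologicalSpace H] [Group H] [NormedAddCommGroup E] [NormedSpace ℝ E]
  [FiniteDimensional ℝ E] [MeasurableSpace H] [BorelSpace H] [MeasurableSpace E] [BorelSpace E]

/-- The compact coordinate ball. -/
def cocU (L : LocLie H E) (R0 : ℝ) : Set H := {g | g ∈ L.φ.source ∧ L.φ g ∈ closedBall (0 : E) R0}

omit [FiniteDimensional ℝ E] [MeasurableSpace H] [BorelSpace H] [MeasurableSpace E]
  [BorelSpace E] in
theorem cocU_eq (L : LocLie H E) {R0 : ℝ} (hR : R0 < L.r) :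
    cocU L R0 = L.φ.symm '' closedBall (0 : E) R0 := by
  ext g
  constructor
  · rintro ⟨h1, h2⟩
    exact ⟨L.φ g, h2, L.φ.left_inv h1⟩
  · rintro ⟨x, hx, rfl⟩
    have hx' : x ∈ ball (0 : E) L.r := closedBall_subset_ball hR hx
    exact ⟨L.symm_mem hx', by rw [L.right_inv hx']; exact hx⟩

omit [MeasurableSpace H] [BorelSpace H] [MeasurableSpace E] [BorelSpace E] in
theorem cocU_compact (L : LocLie H E) {R0 : ℝ} (hR : R0 < L.r) : IsCompact (cocU L R0) := by
  rw [cocU_eq L hR]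
  exact (isCompact_closedBall _ _).image_of_continuousOn
    (L.continuousOn_symm.mono (closedBall_subset_ball hR))

/-- The measure in coordinates. -/
noncomputable def cocM (L : LocLie H E) (R0 : ℝ) (μ : Measure H) : Measure E :=
  (μ.restrict (cocU L R0)).map L.φ

variable [T2Space H]

omit [MeasurableSpace E] [BorelSpace E] in
theorem cocU_meas (L : LocLie H E) {R0 : ℝ} (hR : R0 < L.r) : MeasurableSet (cocU L R0) :=
  (cocU_compact L hR).isClosed.measurableSet

theorem coc_aem (L : LocLie H E) {R0 : ℝ} (hR : R0 < L.r) (μ : Measure H) :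
    AEMeasurable L.φ (μ.restrict (cocU L R0)) := by
  refine ContinuousOn.aemeasurable ?_ (cocU_meas L hR)
  exact L.φ.continuousOn.mono fun g hg => hg.1

theorem cocM_finite (L : LocLie H E) {R0 : ℝ} (hR : R0 < L.r) (μ : Measure H)
    [IsFiniteMeasureOnCompacts μ] : IsFiniteMeasure (cocM L R0 μ) := by
  refine ⟨?_⟩
  rw [cocM, Measure.map_apply_of_aemeasurable (coc_aem L hR μ) MeasurableSet.univ]
  simp only [Set.preimage_univ, Measure.restrict_apply MeasurableSet.univ, Set.univ_inter]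
  exact (cocU_compact L hR).measure_lt_top

theorem cocM_ae (L : LocLie H E) {R0 : ℝ} (hR : R0 < L.r) (μ : Measure H) :
    ∀ᵐ w ∂(cocM L R0 μ), w ∈ closedBall (0 : E) R0 := by
  refine (ae_map_iff (coc_aem L hR μ) (p := fun w => w ∈ closedBall (0 : E) R0)
    isClosed_closedBall.measurableSet).mpr ?_
  filter_upwards [ae_restrict_mem (cocU_meas L hR)] with g hg
  exact hg.2

theorem cocM_restrict (L : LocLie H E) {R0 : ℝ} (hR : R0 < L.r) (μ : Measure H) :
    (cocM L R0 μ).restrict (closedBall (0 : E) R0) = cocM L R0 μ :=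
  Measure.restrict_eq_self_of_ae_mem (cocM_ae L hR μ)

theorem cocM_integral (L : LocLie H E) {R0 : ℝ} (hR : R0 < L.r) (μ : Measure H) (F : E → ℝ)
    (hF : ContinuousOn F (closedBall (0 : E) R0)) :
    ∫ w, F w ∂(cocM L R0 μ) = ∫ g, (cocU L R0).indicator (fun g => F (L.φ g)) g ∂μ := by
  have h1 : AEStronglyMeasurable F (cocM L R0 μ) := by
    rw [← cocM_restrict L hR μ]
    exact hF.aestronglyMeasurable isClosed_closedBall.measurableSet
  rw [integral_indicator (cocU_meas L hR)]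
  rw [cocM] at h1 ⊢
  exact integral_map (coc_aem L hR μ) h1

theorem cocM_invariant (L : LocLie H E) {R0 : ℝ} (hR0 : 0 < R0) (hR : R0 < L.r) (μ : Measure H)
    (T T' : H → H) (hT : ∀ G : H → ℝ, ∫ g, G (T g) ∂μ = ∫ g, G g ∂μ) (hTT : ∀ g, T' (T g) = g)
    (τ τ' : E → E) (hτc : ContinuousOn τ (closedBall (0 : E) R0))
    (hτ : ∀ w ∈ closedBall (0 : E) R0, τ w ∈ ball (0 : E) L.r ∧ L.φ.symm (τ w) = T (L.φ.symm w))
    (hτ' : ∀ v ∈ closedBall (0 : E) (R0 / 2), τ' v ∈ closedBall (0 : E) R0 ∧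
      L.φ.symm (τ' v) = T' (L.φ.symm v))
    (F : E → ℝ) (hF : Continuous F) (hF0 : ∀ w, R0 / 2 < ‖w‖ → F w = 0) :
    ∫ w, F (τ w) ∂(cocM L R0 μ) = ∫ w, F w ∂(cocM L R0 μ) := by
  rw [cocM_integral L hR μ (fun w => F (τ w)) (hF.comp_continuousOn hτc),
    cocM_integral L hR μ F hF.continuousOn,
    ← hT ((cocU L R0).indicator (fun g => F (L.φ g)))]
  congr 1
  ext g
  by_cases hg : g ∈ cocU L R0
  · rw [Set.indicator_of_mem hg]
    obtain ⟨h1, h2⟩ := hg
    obtain ⟨h3, h4⟩ := hτ _ h2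
    rw [L.φ.left_inv h1] at h4
    have h5 : T g ∈ L.φ.source := by
      rw [← h4]
      exact L.symm_mem h3
    have h6 : L.φ (T g) = τ (L.φ g) := by
      rw [← h4]
      exact L.right_inv h3
    by_cases hTg : T g ∈ cocU L R0
    · rw [Set.indicator_of_mem hTg, h6]
    · rw [Set.indicator_of_notMem hTg]
      refine hF0 _ ?_
      by_contra h7
      refine hTg ⟨h5, ?_⟩
      rw [h6, mem_closedBall_zero_iff]
      linarith
  · rw [Set.indicator_of_notMem hg]
    by_cases hTg : T g ∈ cocU L R0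
    · rw [Set.indicator_of_mem hTg]
      refine (hF0 _ ?_).symm
      by_contra h7
      obtain ⟨h1, h2⟩ := hTg
      have h8 : L.φ (T g) ∈ closedBall (0 : E) (R0 / 2) := by
        rw [mem_closedBall_zero_iff]
        linarith
      obtain ⟨h3, h4⟩ := hτ' _ h8
      rw [L.φ.left_inv h1, hTT] at h4
      refine hg ?_
      rw [cocU_eq L hR]
      exact ⟨_, h3, h4⟩
    · rw [Set.indicator_of_notMem hTg]

theorem cocM_pos [IsTopologicalGroup H] (L : LocLie H E) {R0 : ℝ} (hR0 : 0 < R0) (hR : R0 < L.r)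
    (μ : Measure H) [IsFiniteMeasureOnCompacts μ] [μ.IsOpenPosMeasure]
    (F : E → ℝ) (hF : Continuous F) (hF0 : 0 ≤ F) (hFs : HasCompactSupport F) (h0 : 0 < F 0) :
    0 < ∫ w, F w ∂(cocM L R0 μ) := by
  have hfin := cocM_finite L hR μ
  rw [integral_pos_iff_support_of_nonneg hF0 (hF.integrable_of_hasCompactSupport hFs)]
  have hopen : IsOpen (Function.support F) := hF.isOpen_support
  obtain ⟨δ, hδ, h1⟩ := Metric.isOpen_iff.mp hopen 0 h0.ne'
  have h2 := L.image_ball_mem_nhds (lt_min hδ hR0)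
  refine lt_of_lt_of_le (μ.measure_pos_of_mem_nhds h2) ?_
  rw [cocM, Measure.map_apply_of_aemeasurable (coc_aem L hR μ) hopen.measurableSet]
  rw [Measure.restrict_apply' (cocU_meas L hR)]
  refine measure_mono ?_
  rintro g ⟨h3, h4⟩
  refine ⟨h1 (ball_subset_ball (min_le_left _ _) h4), h3, ?_⟩
  exact ball_subset_closedBall (ball_subset_ball (min_le_right _ _) h4)

end cocTransport

/-- The data for the two smoothing steps, in coordinates. -/
structure CocData (E : Type) [NormedAddCommGroup E] [NormedSpace ℝ E] [MeasurableSpace E] where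
  R0 : ℝ
  r1 : ℝ
  M : E → E → E
  I : E → E
  C : E → E → ℝ
  m : Measure E
  m' : Measure E
  ψ : E → ℝ
  ψ' : E → ℝ
  hR0 : 0 < R0
  hr1 : 0 < r1
  hr1' : r1 ≤ R0 / 8
  hC : Continuous (fun q : E × E => C q.1 q.2)
  hCs : HasCompactSupport (fun q : E × E => C q.1 q.2)
  hm : IsFiniteMeasure m
  hm' : IsFiniteMeasure m'
  aem : ∀ᵐ w ∂m, w ∈ closedBall (0 : E) R0
  aem' : ∀ᵐ w ∂m', w ∈ closedBall (0 : E) R0
  hψs : ContDiff ℝ ∞ ψ
  hψs' : ContDiff ℝ ∞ ψ'
  hψ : ∀ w, R0 / 8 ≤ ‖w‖ → ψ w = 0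
  hψ' : ∀ w, R0 / 8 ≤ ‖w‖ → ψ' w = 0
  int1 : ∫ w, ψ w ∂m = 1
  int1' : ∫ w, ψ' w ∂m' = 1
  near1 : ∀ y ∈ ball (0 : E) r1, ∀ w ∈ closedBall (0 : E) R0, ‖M y w - w‖ < R0 / 8
  near2 : ∀ y ∈ ball (0 : E) r1, ∀ w ∈ closedBall (0 : E) R0, ‖M w y - w‖ < R0 / 8
  near3 : ∀ y ∈ ball (0 : E) r1, ∀ w ∈ closedBall (0 : E) R0, ‖M (I y) w - w‖ < R0 / 8
  near4 : ∀ y ∈ ball (0 : E) r1, ∀ w ∈ closedBall (0 : E) R0, ‖M w (I y) - w‖ < R0 / 8
  cancel1 : ∀ y ∈ ball (0 : E) r1, ∀ w ∈ closedBall (0 : E) R0, M (I y) (M y w) = w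
  cancel2 : ∀ y ∈ ball (0 : E) r1, ∀ w ∈ closedBall (0 : E) R0, M (M w y) (I y) = w
  unit2 : ∀ w ∈ closedBall (0 : E) R0, M w (I 0) = w
  assoc : ∀ x ∈ closedBall (0 : E) (R0 / 2), ∀ y ∈ closedBall (0 : E) (R0 / 2),
    ∀ z ∈ closedBall (0 : E) (R0 / 2), M (M x y) z = M x (M y z)
  smooth1 : ContDiffOn ℝ ∞ (fun q : E × E => M (I q.1) q.2) (ball 0 r1 ×ˢ ball 0 R0)
  smooth2 : ContDiffOn ℝ ∞ (fun q : E × E => M q.2 (I q.1)) (ball 0 r1 ×ˢ ball 0 R0)
  coc : ∀ x ∈ closedBall (0 : E) (R0 / 2), ∀ y ∈ closedBall (0 : E) (R0 / 2),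
    ∀ z ∈ closedBall (0 : E) (R0 / 2), M x y ∈ closedBall (0 : E) (R0 / 2) →
    M y z ∈ closedBall (0 : E) (R0 / 2) → C x y + C (M x y) z = C y z + C x (M y z)
  inv1 : ∀ y ∈ ball (0 : E) r1, ∀ F : E → ℝ, Continuous F → (∀ w, R0 / 2 < ‖w‖ → F w = 0) →
    ∫ w, F (M y w) ∂m = ∫ w, F w ∂m
  inv2 : ∀ y ∈ ball (0 : E) r1, ∀ F : E → ℝ, Continuous F → (∀ w, R0 / 2 < ‖w‖ → F w = 0) →
    ∫ w, F (M w y) ∂m' = ∫ w, F w ∂m'

namespace CocData

variable {E : Type} [NormedAddCommGroup E] [NormedSpace ℝ E] [FiniteDimensional ℝ E]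
  [MeasurableSpace E] [BorelSpace E] (d : CocData E)

/-- The first correction. -/
noncomputable def B (x : E) : ℝ := ∫ w, d.C x w * d.ψ w ∂d.m

/-- The left kernel. -/
noncomputable def K : E → E → ℝ := cocK d.R0 (fun y w => d.M (d.I y) w) d.ψ

/-- The right kernel. -/
noncomputable def K' : E → E → ℝ := cocK d.R0 (fun y w => d.M w (d.I y)) d.ψ'

/-- The cocycle after the first step, as an integral. -/
noncomputable def A (x y : E) : ℝ := ∫ w, d.C x w * (d.K y w - d.ψ w) ∂d.m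

/-- The cocycle after the first step. -/
noncomputable def δ (x y : E) : ℝ := d.C x y - d.B x - d.B y + d.B (d.M x y)

/-- The smooth function of the second step. -/
noncomputable def D (y z : E) : ℝ := ∫ u, d.K' y u * d.A u z ∂d.m'

theorem K_continuous {y : E} (hy : y ∈ ball (0 : E) d.r1) : Continuous (d.K y) :=
  cocK_continuous d.hR0 _ _ d.hψs d.hψ d.near3 d.smooth1 hy

theorem K'_continuous {y : E} (hy : y ∈ ball (0 : E) d.r1) : Continuous (d.K' y) :=
  cocK_continuous d.hR0 _ _ d.hψs' d.hψ' d.near4 d.smooth2 hy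

theorem K_zero {y : E} (hy : y ∈ ball (0 : E) d.r1) {w : E} (hw : d.R0 / 4 ≤ ‖w‖) :
    d.K y w = 0 := cocK_zero _ _ d.hψ d.near3 hy hw

theorem K'_zero {y : E} (hy : y ∈ ball (0 : E) d.r1) {w : E} (hw : d.R0 / 4 ≤ ‖w‖) :
    d.K' y w = 0 := cocK_zero _ _ d.hψ' d.near4 hy hw

theorem supp_of_zero {f : E → ℝ} {ρ : ℝ} (h : ∀ w, ρ ≤ ‖w‖ → f w = 0) : HasCompactSupport f := by
  refine HasCompactSupport.intro (isCompact_closedBall (0 : E) ρ) fun x hx => h x ?_
  rw [mem_closedBall_zero_iff, not_le] at hx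
  exact hx.le

theorem ψ_supp : HasCompactSupport d.ψ := supp_of_zero d.hψ

theorem ψ'_supp : HasCompactSupport d.ψ' := supp_of_zero d.hψ'

theorem C_bound : ∃ c, ∀ x w, ‖d.C x w‖ ≤ c := by
  obtain ⟨c, hc⟩ := d.hC.bounded_above_of_compact_support d.hCs
  exact ⟨c, fun x w => hc (x, w)⟩

theorem C_cont_right (x : E) : Continuous (d.C x) :=
  d.hC.comp (f := fun w => (x, w)) (by fun_prop)

theorem C_cont_left (w : E) : Continuous (fun x => d.C x w) :=
  d.hC.comp (f := fun x => (x, w)) (by fun_prop)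

theorem integrable_mul (x : E) {g : E → ℝ} (hg : Continuous g) (hgs : HasCompactSupport g) :
    Integrable (fun w => d.C x w * g w) d.m := by
  have := d.hm
  exact ((d.C_cont_right x).mul hg).integrable_of_hasCompactSupport hgs.mul_left

theorem continuous_int {g : E → ℝ} (hg : Continuous g) (hgs : HasCompactSupport g) :
    Continuous (fun x => ∫ w, d.C x w * g w ∂d.m) := by
  have := d.hm
  obtain ⟨c, hc⟩ := d.C_bound
  refine continuous_of_dominated (bound := fun w => c * ‖g w‖) ?_ ?_ ?_ ?_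
  · intro x
    exact ((d.C_cont_right x).mul hg).aestronglyMeasurable
  · intro x
    refine Eventually.of_forall fun w => ?_
    rw [norm_mul]
    exact mul_le_mul_of_nonneg_right (hc x w) (norm_nonneg _)
  · exact (hg.integrable_of_hasCompactSupport hgs).norm.const_mul c
  · refine Eventually.of_forall fun w => ?_
    exact (d.C_cont_left w).mul continuous_const

theorem B_continuous : Continuous d.B := d.continuous_int d.hψs.continuous d.ψ_supp

theorem Kψ_continuous {y : E} (hy : y ∈ ball (0 : E) d.r1) :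
    Continuous (fun w => d.K y w - d.ψ w) := (d.K_continuous hy).sub d.hψs.continuous

theorem Kψ_supp {y : E} (hy : y ∈ ball (0 : E) d.r1) :
    HasCompactSupport (fun w => d.K y w - d.ψ w) := by
  refine supp_of_zero (ρ := d.R0 / 4) fun w hw => ?_
  have h1 := d.hR0
  rw [d.K_zero hy hw, d.hψ w (by linarith), sub_zero]

theorem K_supp {y : E} (hy : y ∈ ball (0 : E) d.r1) : HasCompactSupport (d.K y) :=
  supp_of_zero (ρ := d.R0 / 4) fun _ hw => d.K_zero hy hw

theorem A_continuous {y : E} (hy : y ∈ ball (0 : E) d.r1) : Continuous (fun x => d.A x y) :=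
  d.continuous_int (d.Kψ_continuous hy) (d.Kψ_supp hy)

theorem K_mul {y : E} (hy : y ∈ ball (0 : E) d.r1) {w : E} (hw : w ∈ closedBall (0 : E) d.R0) :
    d.K y (d.M y w) = d.ψ w := by
  have h0 := d.hR0
  rcases lt_or_ge ‖d.M y w‖ d.R0 with h | h
  · rw [K, cocK_of_lt h, d.cancel1 y hy w hw]
  · rw [K, cocK_of_ge h, d.hψ w]
    have h1 := d.near1 y hy w hw
    have h2 : ‖d.M y w‖ - ‖w‖ ≤ ‖d.M y w - w‖ := norm_sub_norm_le _ _
    linarith

theorem K'_mul {y : E} (hy : y ∈ ball (0 : E) d.r1) {w : E} (hw : w ∈ closedBall (0 : E) d.R0) :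
    d.K' y (d.M w y) = d.ψ' w := by
  have h0 := d.hR0
  rcases lt_or_ge ‖d.M w y‖ d.R0 with h | h
  · rw [K', cocK_of_lt h, d.cancel2 y hy w hw]
  · rw [K', cocK_of_ge h, d.hψ' w]
    have h1 := d.near2 y hy w hw
    have h2 : ‖d.M w y‖ - ‖w‖ ≤ ‖d.M w y - w‖ := norm_sub_norm_le _ _
    linarith

theorem K'_at_zero {w : E} (hw : w ∈ closedBall (0 : E) d.R0) : d.K' 0 w = d.ψ' w := by
  have h0 := d.hR0
  rcases lt_or_ge ‖w‖ d.R0 with h | h
  · rw [K', cocK_of_lt h, d.unit2 w hw]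
  · rw [K', cocK_of_ge h, d.hψ' w]
    linarith

theorem norm_mul_le1 {y : E} (hy : y ∈ ball (0 : E) d.r1) {w : E}
    (hw : w ∈ closedBall (0 : E) d.R0) : ‖d.M y w‖ ≤ ‖w‖ + d.R0 / 8 := by
  have h1 := d.near1 y hy w hw
  have h2 : ‖d.M y w‖ - ‖w‖ ≤ ‖d.M y w - w‖ := norm_sub_norm_le _ _
  linarith

theorem norm_mul_le2 {y : E} (hy : y ∈ ball (0 : E) d.r1) {w : E}
    (hw : w ∈ closedBall (0 : E) d.R0) : ‖d.M w y‖ ≤ ‖w‖ + d.R0 / 8 := by
  have h1 := d.near2 y hy w hw
  have h2 : ‖d.M w y‖ - ‖w‖ ≤ ‖d.M w y - w‖ := norm_sub_norm_le _ _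
  linarith

/-- The first smoothing step. -/
theorem step1 {x y : E} (hx : x ∈ closedBall (0 : E) (d.R0 / 4)) (hy : y ∈ ball (0 : E) d.r1) :
    d.δ x y = d.A x y := by
  have h0 := d.hR0
  have hr := d.hr1'
  have hm := d.hm
  rw [mem_closedBall_zero_iff] at hx
  have hy' : ‖y‖ < d.r1 := by rwa [mem_ball_zero_iff] at hy
  have hxR : x ∈ closedBall (0 : E) d.R0 := by rw [mem_closedBall_zero_iff]; linarith
  -- the pointwise identity
  have hpt : ∀ w, d.C x (d.M y w) * d.ψ w =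
      d.C x y * d.ψ w + d.C (d.M x y) w * d.ψ w - d.C y w * d.ψ w := by
    intro w
    rcases lt_or_ge ‖w‖ (d.R0 / 8) with h | h
    · have hwR : w ∈ closedBall (0 : E) d.R0 := by rw [mem_closedBall_zero_iff]; linarith
      have h1 := d.norm_mul_le1 hy hwR
      have h2 := d.norm_mul_le2 hy hxR
      have h3 := d.coc x (by rw [mem_closedBall_zero_iff]; linarith) y
        (by rw [mem_closedBall_zero_iff]; linarith) w
        (by rw [mem_closedBall_zero_iff]; linarith)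
        (by rw [mem_closedBall_zero_iff]; linarith)
        (by rw [mem_closedBall_zero_iff]; linarith)
      have h4 : d.C x (d.M y w) = d.C x y + d.C (d.M x y) w - d.C y w := by linarith
      rw [h4]
      ring
    · rw [d.hψ w h]
      ring
  have hF : Continuous (fun v => d.C x v * d.K y v) := (d.C_cont_right x).mul (d.K_continuous hy)
  have hF0 : ∀ v, d.R0 / 2 < ‖v‖ → d.C x v * d.K y v = 0 := by
    intro v hv
    rw [d.K_zero hy (by linarith), mul_zero]
  have h1 := d.inv1 y hy (fun v => d.C x v * d.K y v) hF hF0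
  have h2 : ∫ w, d.C x (d.M y w) * d.K y (d.M y w) ∂d.m =
      ∫ w, (d.C x y * d.ψ w + d.C (d.M x y) w * d.ψ w - d.C y w * d.ψ w) ∂d.m := by
    refine integral_congr_ae ?_
    filter_upwards [d.aem] with w hw
    rw [d.K_mul hy hw, hpt]
  have hi1 : Integrable (fun w => d.C x y * d.ψ w) d.m :=
    (d.hψs.continuous.integrable_of_hasCompactSupport d.ψ_supp).const_mul _
  have hi2 := d.integrable_mul (d.M x y) d.hψs.continuous d.ψ_supp
  have hi3 := d.integrable_mul y d.hψs.continuous d.ψ_supp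
  have hi4 := d.integrable_mul x (d.K_continuous hy) (d.K_supp hy)
  have hi5 := d.integrable_mul x d.hψs.continuous d.ψ_supp
  rw [coc_int3 hi1 hi2 hi3, integral_const_mul, d.int1, mul_one] at h2
  have h3 : d.A x y = ∫ w, d.C x w * d.K y w ∂d.m - ∫ w, d.C x w * d.ψ w ∂d.m := by
    rw [← integral_sub hi4 hi5, A]
    congr 1
    ext w
    ring
  rw [h3, ← h1, h2, δ, B, B, B]
  ring

/-- The second smoothing step. -/
theorem step2 {y z : E} (hy : y ∈ ball (0 : E) d.r1) (hz : z ∈ ball (0 : E) d.r1)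
    (hyz : d.M y z ∈ ball (0 : E) d.r1) :
    d.δ y z = d.D 0 y + d.D y z - d.D 0 (d.M y z) := by
  have h0 := d.hR0
  have hr := d.hr1'
  have hr1 := d.hr1
  have hm := d.hm'
  have hy' : ‖y‖ < d.r1 := by rwa [mem_ball_zero_iff] at hy
  have hz' : ‖z‖ < d.r1 := by rwa [mem_ball_zero_iff] at hz
  have hyz' : ‖d.M y z‖ < d.r1 := by rwa [mem_ball_zero_iff] at hyz
  have hD0 : ∀ v, d.D 0 v = ∫ u, d.ψ' u * d.A u v ∂d.m' := by
    intro v
    refine integral_congr_ae ?_
    filter_upwards [d.aem'] with u hu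
    rw [d.K'_at_zero hu]
  have hpt : ∀ u, d.ψ' u * d.A (d.M u y) z =
      d.δ y z * d.ψ' u + d.ψ' u * d.A u (d.M y z) - d.ψ' u * d.A u y := by
    intro u
    rcases lt_or_ge ‖u‖ (d.R0 / 8) with h | h
    · have huR : u ∈ closedBall (0 : E) d.R0 := by rw [mem_closedBall_zero_iff]; linarith
      have h1 := d.norm_mul_le2 hy huR
      have hu4 : u ∈ closedBall (0 : E) (d.R0 / 4) := by rw [mem_closedBall_zero_iff]; linarith
      have huy : d.M u y ∈ closedBall (0 : E) (d.R0 / 4) := by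
        rw [mem_closedBall_zero_iff]; linarith
      rw [← d.step1 huy hz, ← d.step1 hu4 hyz, ← d.step1 hu4 hy]
      have h3 := d.coc u (by rw [mem_closedBall_zero_iff]; linarith) y
        (by rw [mem_closedBall_zero_iff]; linarith) z
        (by rw [mem_closedBall_zero_iff]; linarith)
        (by rw [mem_closedBall_zero_iff]; linarith)
        (by rw [mem_closedBall_zero_iff]; linarith)
      have h4 := d.assoc u (by rw [mem_closedBall_zero_iff]; linarith) y
        (by rw [mem_closedBall_zero_iff]; linarith) z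
        (by rw [mem_closedBall_zero_iff]; linarith)
      have h5 : d.δ (d.M u y) z = d.δ y z + d.δ u (d.M y z) - d.δ u y := by
        unfold δ
        rw [h4]
        linarith
      rw [h5]
      ring
    · rw [d.hψ' u h]
      ring
  have hF : Continuous (fun v => d.K' y v * d.A v z) :=
    (d.K'_continuous hy).mul (d.A_continuous hz)
  have hF0 : ∀ v, d.R0 / 2 < ‖v‖ → d.K' y v * d.A v z = 0 := by
    intro v hv
    rw [d.K'_zero hy (by linarith), zero_mul]
  have h1 := d.inv2 y hy (fun v => d.K' y v * d.A v z) hF hF0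
  have h2 : ∫ u, d.K' y (d.M u y) * d.A (d.M u y) z ∂d.m' =
      ∫ u, (d.δ y z * d.ψ' u + d.ψ' u * d.A u (d.M y z) - d.ψ' u * d.A u y) ∂d.m' := by
    refine integral_congr_ae ?_
    filter_upwards [d.aem'] with u hu
    rw [d.K'_mul hy hu, hpt]
  have hi1 : Integrable (fun u => d.δ y z * d.ψ' u) d.m' :=
    (d.hψs'.continuous.integrable_of_hasCompactSupport d.ψ'_supp).const_mul _
  have hi2 : Integrable (fun u => d.ψ' u * d.A u (d.M y z)) d.m' :=
    (d.hψs'.continuous.mul (d.A_continuous hyz)).integrable_of_hasCompactSupport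
      d.ψ'_supp.mul_right
  have hi3 : Integrable (fun u => d.ψ' u * d.A u y) d.m' :=
    (d.hψs'.continuous.mul (d.A_continuous hy)).integrable_of_hasCompactSupport
      d.ψ'_supp.mul_right
  rw [coc_int3 hi1 hi2 hi3, integral_const_mul, d.int1', mul_one, h1, ← hD0, ← hD0] at h2
  have h3 : d.D y z = d.δ y z + d.D 0 (d.M y z) - d.D 0 y := h2
  linarith

theorem D_eq {y z : E} (hy : y ∈ ball (0 : E) d.r1) (hz : z ∈ ball (0 : E) d.r1) :
    d.D y z = ∫ q : E × E, d.C q.1 q.2 * (d.K' y q.1 * (d.K z q.2 - d.ψ q.2))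
      ∂(d.m'.prod d.m) := by
  have := d.hm
  have := d.hm'
  have hcont : Continuous
      (fun q : E × E => d.C q.1 q.2 * (d.K' y q.1 * (d.K z q.2 - d.ψ q.2))) := by
    refine d.hC.mul (((d.K'_continuous hy).comp continuous_fst).mul ?_)
    exact (d.Kψ_continuous hz).comp continuous_snd
  have hint : Integrable
      (fun q : E × E => d.C q.1 q.2 * (d.K' y q.1 * (d.K z q.2 - d.ψ q.2)))
      (d.m'.prod d.m) := hcont.integrable_of_hasCompactSupport d.hCs.mul_right
  rw [integral_prod _ hint]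
  unfold D A
  congr 1
  ext u
  rw [← integral_const_mul]
  congr 1
  ext w
  ring

theorem D_smooth : ContDiffOn ℝ ∞ (fun p : E × E => d.D p.1 p.2)
    (ball 0 d.r1 ×ˢ ball 0 d.r1) := by
  have := d.hm
  have := d.hm'
  have h0 := d.hR0
  have h1 : ContDiffOn ℝ ∞ (fun p : E × E => ∫ q : E × E, d.C q.1 q.2 *
      (d.K' p.1 q.1 * (d.K p.2 q.2 - d.ψ q.2)) ∂(d.m'.prod d.m))
      (ball 0 d.r1 ×ˢ ball 0 d.r1) := by
    refine smooth_integral (d.m'.prod d.m) (fun q : E × E => d.C q.1 q.2) ?_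
      (closedBall (0 : E) d.R0 ×ˢ closedBall (0 : E) d.R0)
      ((isCompact_closedBall _ _).prod (isCompact_closedBall _ _)) _
      (isOpen_ball.prod isOpen_ball)
      (fun (p : E × E) (q : E × E) => d.K' p.1 q.1 * (d.K p.2 q.2 - d.ψ q.2)) ?_ ?_
    · exact d.hC.integrable_of_hasCompactSupport d.hCs
    · rintro ⟨y, z⟩ ⟨hy, hz⟩ ⟨u, w⟩ hq
      simp only at hy hz ⊢
      rw [Set.mem_prod, not_and_or] at hq
      simp only [mem_closedBall_zero_iff, not_le] at hq
      rcases hq with hq | hq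
      · rw [d.K'_zero hy (by linarith), zero_mul]
      · rw [d.K_zero hz (by linarith), d.hψ w (by linarith), sub_zero, mul_zero]
    · have hK' : ContDiffOn ℝ ∞ (fun q : (E × E) × (E × E) => d.K' q.1.1 q.2.1)
          ((ball 0 d.r1 ×ˢ ball 0 d.r1) ×ˢ Set.univ) := by
        refine (cocK_contDiffOn d.hR0 (fun y w => d.M w (d.I y)) d.ψ' d.hψs' d.hψ' d.near4
          d.smooth2).comp (f := fun q : (E × E) × (E × E) => (q.1.1, q.2.1)) ?_ ?_
        · exact ContDiff.contDiffOn (by fun_prop)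
        · rintro ⟨⟨y, z⟩, ⟨u, w⟩⟩ ⟨⟨hy, hz⟩, -⟩
          exact ⟨hy, Set.mem_univ _⟩
      have hK : ContDiffOn ℝ ∞ (fun q : (E × E) × (E × E) => d.K q.1.2 q.2.2)
          ((ball 0 d.r1 ×ˢ ball 0 d.r1) ×ˢ Set.univ) := by
        refine (cocK_contDiffOn d.hR0 (fun y w => d.M (d.I y) w) d.ψ d.hψs d.hψ d.near3
          d.smooth1).comp (f := fun q : (E × E) × (E × E) => (q.1.2, q.2.2)) ?_ ?_
        · exact ContDiff.contDiffOn (by fun_prop)
        · rintro ⟨⟨y, z⟩, ⟨u, w⟩⟩ ⟨⟨hy, hz⟩, -⟩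
          exact ⟨hz, Set.mem_univ _⟩
      have hψ : ContDiffOn ℝ ∞ (fun q : (E × E) × (E × E) => d.ψ q.2.2)
          ((ball 0 d.r1 ×ˢ ball 0 d.r1) ×ˢ Set.univ) :=
        (d.hψs.comp (by fun_prop)).contDiffOn
      exact hK'.mul (hK.sub hψ)
  refine h1.congr ?_
  rintro ⟨y, z⟩ ⟨hy, hz⟩
  exact d.D_eq hy hz

end CocData

section smoothing

variable {H E : Type} [TopologicalSpace H] [Group H] [IsTopologicalGroup H] [T2Space H]
  [NormedAddCommGroup E] [NormedSpace ℝ E] [FiniteDimensional ℝ E]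

theorem coc_locallyCompact (L : LocLie H E) : LocallyCompactSpace H := by
  have h1 : L.r / 2 < L.r := by linarith [L.r_pos]
  refine (cocU_compact L h1).locallyCompactSpace_of_mem_nhds_of_group (x := 1) ?_
  refine Filter.mem_of_superset (L.image_ball_mem_nhds (half_pos L.r_pos)) ?_
  rintro g ⟨h2, h3⟩
  exact ⟨h2, ball_subset_closedBall h3⟩

/-- A smooth bump with integral one. -/
theorem coc_bump [MeasurableSpace H] [BorelSpace H] [MeasurableSpace E] [BorelSpace E]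
    (L : LocLie H E) {R0 : ℝ} (hR0 : 0 < R0) (hR : R0 < L.r)
    (μ : Measure H) [IsFiniteMeasureOnCompacts μ] [μ.IsOpenPosMeasure] :
    ∃ ψ : E → ℝ, ContDiff ℝ ∞ ψ ∧ (∀ w, R0 / 8 ≤ ‖w‖ → ψ w = 0) ∧
      ∫ w, ψ w ∂(cocM L R0 μ) = 1 := by
  let f : ContDiffBump (0 : E) := ⟨R0 / 16, R0 / 8, by positivity, by linarith⟩
  have hf0 : ∀ w, R0 / 8 ≤ ‖w‖ → f w = 0 := by
    intro w hw
    refine f.zero_of_le_dist ?_
    rw [dist_zero_right]
    exact hw
  have hpos : 0 < ∫ w, f w ∂(cocM L R0 μ) := by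
    refine cocM_pos L hR0 hR μ f f.continuous (fun w => f.nonneg) f.hasCompactSupport ?_
    rw [f.one_of_mem_closedBall (mem_closedBall_self (by positivity))]
    exact one_pos
  refine ⟨fun w => (∫ w, f w ∂(cocM L R0 μ))⁻¹ * f w, contDiff_const.mul f.contDiff, ?_, ?_⟩
  · intro w hw
    simp only
    rw [hf0 w hw, mul_zero]
  · rw [integral_const_mul, inv_mul_cancel₀ hpos.ne']

/-- L3 (file L/Cocycle.lean): a continuous local cocycle is cohomologous to a smooth one. -/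
theorem smooth_cocycle (L : LocLie H E) (c : H → H → ℝ) (V : Set H) (hV : V ∈ 𝓝 (1 : H))
    (hc : ContinuousOn (fun p : H × H => c p.1 p.2) (V ×ˢ V))
    (hcoc : ∀ x ∈ V, ∀ y ∈ V, ∀ z ∈ V, x * y ∈ V → y * z ∈ V →
      c x y + c (x * y) z = c y z + c x (y * z)) :
    ∃ (b : H → ℝ) (W : Set H) (r : ℝ), W ∈ 𝓝 (1 : H) ∧ W ⊆ V ∧ ContinuousOn b W ∧ 0 < r ∧
      r ≤ L.r ∧ (∀ x ∈ ball (0 : E) r, L.φ.symm x ∈ W) ∧
      (∀ x ∈ ball (0 : E) r, ∀ y ∈ ball (0 : E) r, L.φ.symm x * L.φ.symm y ∈ W) ∧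
      ContDiffOn ℝ ∞ (fun p : E × E => c (L.φ.symm p.1) (L.φ.symm p.2) - b (L.φ.symm p.1) -
        b (L.φ.symm p.2) + b (L.φ.symm p.1 * L.φ.symm p.2)) (ball 0 r ×ˢ ball 0 r) := by
  have hloc : LocallyCompactSpace H := coc_locallyCompact L
  borelize H
  let _ : MeasurableSpace E := borel E
  have hborel : BorelSpace E := ⟨rfl⟩
  have hLr := L.r_pos
  obtain ⟨ρV, hρV, hρVL, hρVV⟩ := L.exists_ball V hV
  obtain ⟨ρ1, hρ1, hρ1L, hρ1V, hmulV⟩ := L.exists_small_mul ρV hρV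
  obtain ⟨R0, hR0, hR0ρ, hR0L⟩ : ∃ R0 : ℝ, 0 < R0 ∧ R0 < ρ1 ∧ R0 ≤ L.r / 2 :=
    ⟨min (ρ1 / 2) (L.r / 2), lt_min (by linarith) (by linarith),
      (min_le_left _ _).trans_lt (by linarith), min_le_right _ _⟩
  have hRL : R0 < L.r := by linarith
  obtain ⟨ρ2, hρ2, hρ2L, hnear⟩ := L.exists_mul_near (R0 / 8) (by positivity)
  obtain ⟨ρ3, hρ3, hρ3L, hρ32, hinv⟩ := L.exists_small_inv ρ2 hρ2
  obtain ⟨r1, hr1, hr1ρ, hr1R⟩ : ∃ r1 : ℝ, 0 < r1 ∧ r1 ≤ ρ3 ∧ r1 ≤ R0 / 8 :=
    ⟨min ρ3 (R0 / 8), lt_min hρ3 (by positivity), min_le_left _ _, min_le_right _ _⟩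
  -- memberships
  have hcb : ∀ w ∈ closedBall (0 : E) R0, w ∈ ball (0 : E) L.r := fun w hw =>
    closedBall_subset_ball hRL hw
  have hcb2 : ∀ w ∈ closedBall (0 : E) R0, w ∈ closedBall (0 : E) (L.r / 2) := fun w hw =>
    closedBall_subset_closedBall hR0L hw
  have hcbV : ∀ w ∈ closedBall (0 : E) R0, L.φ.symm w ∈ V := fun w hw =>
    hρVV w (closedBall_subset_ball (by linarith) hw)
  have hr1L : ∀ y ∈ ball (0 : E) r1, y ∈ ball (0 : E) L.r := fun y hy =>
    ball_subset_ball (by linarith) hy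
  have hr12 : ∀ y ∈ ball (0 : E) r1, y ∈ ball (0 : E) ρ2 := fun y hy =>
    ball_subset_ball (by linarith) hy
  have hinv2 : ∀ y ∈ ball (0 : E) r1, L.inv y ∈ ball (0 : E) ρ2 := fun y hy =>
    hinv y (ball_subset_ball hr1ρ hy)
  have hinvL : ∀ y ∈ ball (0 : E) r1, L.inv y ∈ ball (0 : E) L.r := fun y hy =>
    ball_subset_ball (by linarith) (hinv2 y hy)
  -- the cut-off cocycle
  let f : ContDiffBump (0 : E) := ⟨R0 / 2, 3 * R0 / 4, by positivity, by linarith⟩
  have hf1 : ∀ w ∈ closedBall (0 : E) (R0 / 2), f w = 1 := fun w hw =>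
    f.one_of_mem_closedBall hw
  have hf0 : ∀ w, w ∉ closedBall (0 : E) (3 * R0 / 4) → f w = 0 := by
    intro w hw
    refine f.zero_of_le_dist ?_
    rw [dist_zero_right]
    rw [mem_closedBall_zero_iff, not_le] at hw
    exact hw.le
  have hC0 : ∀ q : E × E, q ∉ closedBall (0 : E) (3 * R0 / 4) ×ˢ closedBall (0 : E) (3 * R0 / 4) →
      f q.1 * f q.2 * c (L.φ.symm q.1) (L.φ.symm q.2) = 0 := by
    intro q hq
    rw [Set.mem_prod, not_and_or] at hq
    rcases hq with hq | hq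
    · rw [hf0 _ hq, MulZeroClass.zero_mul, MulZeroClass.zero_mul]
    · rw [hf0 _ hq, MulZeroClass.mul_zero, MulZeroClass.zero_mul]
  have hCc : Continuous (fun q : E × E => f q.1 * f q.2 * c (L.φ.symm q.1) (L.φ.symm q.2)) := by
    refine coc_continuous (ball (0 : E) R0 ×ˢ ball (0 : E) R0)
      (closedBall (0 : E) (3 * R0 / 4) ×ˢ closedBall (0 : E) (3 * R0 / 4))
      (isOpen_ball.prod isOpen_ball) (isClosed_closedBall.prod isClosed_closedBall)
      (Set.prod_mono (closedBall_subset_ball (by linarith))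
        (closedBall_subset_ball (by linarith))) _ ?_ hC0
    refine ContinuousOn.mul ?_ ?_
    · exact ((f.continuous.comp continuous_fst).mul
        (f.continuous.comp continuous_snd)).continuousOn
    · refine hc.comp (f := fun q : E × E => (L.φ.symm q.1, L.φ.symm q.2)) ?_ ?_
      · refine ContinuousOn.prodMk ?_ ?_
        · refine L.continuousOn_symm.comp continuousOn_fst ?_
          rintro ⟨x, y⟩ ⟨hx, hy⟩
          exact hcb x (ball_subset_closedBall hx)
        · refine L.continuousOn_symm.comp continuousOn_snd ?_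
          rintro ⟨x, y⟩ ⟨hx, hy⟩
          exact hcb y (ball_subset_closedBall hy)
      · rintro ⟨x, y⟩ ⟨hx, hy⟩
        exact ⟨hcbV x (ball_subset_closedBall hx), hcbV y (ball_subset_closedBall hy)⟩
  have hCcs : HasCompactSupport
      (fun q : E × E => f q.1 * f q.2 * c (L.φ.symm q.1) (L.φ.symm q.2)) :=
    HasCompactSupport.intro ((isCompact_closedBall _ _).prod (isCompact_closedBall _ _)) hC0
  -- the measures
  obtain ⟨ψ, hψs, hψ, hψ1⟩ := coc_bump L hR0 hRL (MeasureTheory.Measure.haar : Measure H)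
  obtain ⟨ψ', hψs', hψ', hψ1'⟩ := coc_bump L hR0 hRL
    ((MeasureTheory.Measure.haar : Measure H).inv)
  have hhalf : closedBall (0 : E) (R0 / 2) ⊆ closedBall (0 : E) R0 :=
    closedBall_subset_closedBall (by linarith)
  have hmulc : ∀ y ∈ ball (0 : E) L.r, ContinuousOn (L.mul y) (closedBall (0 : E) R0) := by
    intro y hy
    refine L.contDiffOn_mul.continuousOn.comp (f := fun w : E => (y, w)) (by fun_prop) ?_
    intro w hw
    exact ⟨hy, hcb w hw⟩
  have hmulc' : ∀ y ∈ ball (0 : E) L.r,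
      ContinuousOn (fun w => L.mul w y) (closedBall (0 : E) R0) := by
    intro y hy
    refine L.contDiffOn_mul.continuousOn.comp (f := fun w : E => (w, y)) (by fun_prop) ?_
    intro w hw
    exact ⟨hcb w hw, hy⟩
  have hbig : ∀ v w : E, w ∈ closedBall (0 : E) R0 → ‖v - w‖ < R0 / 8 → v ∈ ball (0 : E) L.r := by
    intro v w hw hv
    rw [mem_closedBall_zero_iff] at hw
    rw [mem_ball_zero_iff]
    have h2 : ‖v‖ - ‖w‖ ≤ ‖v - w‖ := norm_sub_norm_le _ _
    linarith
  have hsmall : ∀ v w : E, w ∈ closedBall (0 : E) (R0 / 2) → ‖v - w‖ < R0 / 8 →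
      v ∈ closedBall (0 : E) R0 := by
    intro v w hw hv
    rw [mem_closedBall_zero_iff] at hw ⊢
    have h2 : ‖v‖ - ‖w‖ ≤ ‖v - w‖ := norm_sub_norm_le _ _
    linarith
  let d : CocData E :=
    { R0 := R0
      r1 := r1
      M := L.mul
      I := L.inv
      C := fun x y => f x * f y * c (L.φ.symm x) (L.φ.symm y)
      m := cocM L R0 (MeasureTheory.Measure.haar : Measure H)
      m' := cocM L R0 (MeasureTheory.Measure.haar : Measure H).inv
      ψ := ψ
      ψ' := ψ'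
      hR0 := hR0
      hr1 := hr1
      hr1' := hr1R
      hC := hCc
      hCs := hCcs
      hm := cocM_finite L hRL _
      hm' := cocM_finite L hRL _
      aem := cocM_ae L hRL _
      aem' := cocM_ae L hRL _
      hψs := hψs
      hψs' := hψs'
      hψ := hψ
      hψ' := hψ'
      int1 := hψ1
      int1' := hψ1'
      near1 := fun y hy w hw => (hnear y (hr12 y hy) w (hcb2 w hw)).1
      near2 := fun y hy w hw => (hnear y (hr12 y hy) w (hcb2 w hw)).2
      near3 := fun y hy w hw => (hnear (L.inv y) (hinv2 y hy) w (hcb2 w hw)).1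
      near4 := fun y hy w hw => (hnear (L.inv y) (hinv2 y hy) w (hcb2 w hw)).2
      cancel1 := by
        intro y hy w hw
        rw [LocLie.mul, L.symm_inv (hr1L y hy), L.symm_mul (hr1L y hy) (hcb w hw),
          inv_mul_cancel_left, L.right_inv (hcb w hw)]
      cancel2 := by
        intro y hy w hw
        rw [LocLie.mul, L.symm_inv (hr1L y hy), L.symm_mul (hcb w hw) (hr1L y hy),
          mul_inv_cancel_right, L.right_inv (hcb w hw)]
      unit2 := by
        intro w hw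
        rw [L.inv_zero, L.mul_zero (hcb w hw)]
      assoc := by
        intro x hx y hy z hz
        rw [LocLie.mul, L.symm_mul (hcb x (hhalf hx)) (hcb y (hhalf hy)), mul_assoc,
          ← L.symm_mul (hcb y (hhalf hy)) (hcb z (hhalf hz))]
        rfl
      smooth1 := by
        refine L.contDiffOn_mul.comp (f := fun q : E × E => (L.inv q.1, q.2)) ?_ ?_
        · refine ContDiffOn.prodMk ?_ contDiffOn_snd
          refine L.contDiffOn_inv.comp contDiffOn_fst ?_
          rintro ⟨x, y⟩ ⟨hx, hy⟩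
          exact hr1L x hx
        · rintro ⟨x, y⟩ ⟨hx, hy⟩
          exact ⟨hinvL x hx, hcb y (ball_subset_closedBall hy)⟩
      smooth2 := by
        refine L.contDiffOn_mul.comp (f := fun q : E × E => (q.2, L.inv q.1)) ?_ ?_
        · refine ContDiffOn.prodMk contDiffOn_snd ?_
          refine L.contDiffOn_inv.comp contDiffOn_fst ?_
          rintro ⟨x, y⟩ ⟨hx, hy⟩
          exact hr1L x hx
        · rintro ⟨x, y⟩ ⟨hx, hy⟩
          exact ⟨hcb y (ball_subset_closedBall hy), hinvL x hx⟩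
      coc := by
        intro x hx y hy z hz hxy hyz
        rw [hf1 x hx, hf1 y hy, hf1 z hz, hf1 _ hxy, hf1 _ hyz,
          L.symm_mul (hcb x (hhalf hx)) (hcb y (hhalf hy)),
          L.symm_mul (hcb y (hhalf hy)) (hcb z (hhalf hz))]
        have hxy2 : L.φ.symm x * L.φ.symm y ∈ V := by
          rw [← L.symm_mul (hcb x (hhalf hx)) (hcb y (hhalf hy))]
          exact hcbV _ (hhalf hxy)
        have hyz2 : L.φ.symm y * L.φ.symm z ∈ V := by
          rw [← L.symm_mul (hcb y (hhalf hy)) (hcb z (hhalf hz))]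
          exact hcbV _ (hhalf hyz)
        have h := hcoc _ (hcbV x (hhalf hx)) _ (hcbV y (hhalf hy)) _ (hcbV z (hhalf hz))
          hxy2 hyz2
        linarith
      inv1 := by
        intro y hy F hF hF0
        refine cocM_invariant L hR0 hRL _ (fun g => L.φ.symm y * g)
          (fun g => (L.φ.symm y)⁻¹ * g) (fun G => integral_mul_left_eq_self G _)
          (fun g => inv_mul_cancel_left _ _) (L.mul y) (L.mul (L.inv y)) (hmulc y (hr1L y hy))
          ?_ ?_ F hF hF0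
        · intro w hw
          exact ⟨hbig _ w hw (hnear y (hr12 y hy) w (hcb2 w hw)).1,
            L.symm_mul (hr1L y hy) (hcb w hw)⟩
        · intro v hv
          refine ⟨hsmall _ v hv (hnear (L.inv y) (hinv2 y hy) v (hcb2 v (hhalf hv))).1, ?_⟩
          rw [L.symm_mul (hinvL y hy) (hcb v (hhalf hv)), L.symm_inv (hr1L y hy)]
      inv2 := by
        intro y hy F hF hF0
        refine cocM_invariant L hR0 hRL _ (fun g => g * L.φ.symm y)
          (fun g => g * (L.φ.symm y)⁻¹) (fun G => integral_mul_right_eq_self G _)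
          (fun g => mul_inv_cancel_right _ _) (fun w => L.mul w y) (fun w => L.mul w (L.inv y))
          (hmulc' y (hr1L y hy)) ?_ ?_ F hF hF0
        · intro w hw
          exact ⟨hbig _ w hw (hnear y (hr12 y hy) w (hcb2 w hw)).2,
            L.symm_mul (hcb w hw) (hr1L y hy)⟩
        · intro v hv
          refine ⟨hsmall _ v hv (hnear (L.inv y) (hinv2 y hy) v (hcb2 v (hhalf hv))).2, ?_⟩
          rw [L.symm_mul (hcb v (hhalf hv)) (hinvL y hy), L.symm_inv (hr1L y hy)] }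
  obtain ⟨r, hr, hrL, hrr1, hmulr⟩ := L.exists_small_mul r1 hr1
  refine ⟨fun g => d.B (L.φ g), {g | g ∈ L.φ.source ∧ L.φ g ∈ ball (0 : E) R0}, r,
    L.image_ball_mem_nhds hR0, ?_, ?_, hr, hrL, ?_, ?_, ?_⟩
  · rintro g ⟨h1, h2⟩
    rw [← L.φ.left_inv h1]
    exact hcbV _ (ball_subset_closedBall h2)
  · refine d.B_continuous.comp_continuousOn (L.φ.continuousOn.mono ?_)
    rintro g ⟨h1, -⟩
    exact h1
  · intro x hx
    have hx1 : x ∈ ball (0 : E) L.r := ball_subset_ball hrL hx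
    refine ⟨L.symm_mem hx1, ?_⟩
    rw [L.right_inv hx1]
    exact ball_subset_ball (by linarith) hx
  · intro x hx y hy
    have hx1 : x ∈ ball (0 : E) L.r := ball_subset_ball hrL hx
    have hy1 : y ∈ ball (0 : E) L.r := ball_subset_ball hrL hy
    refine ⟨L.mul_mem x hx1 y hy1, ?_⟩
    exact ball_subset_ball (by linarith) (hmulr x hx y hy)
  · have hD : ContDiffOn ℝ ∞ (fun p : E × E => d.D 0 p.1 + d.D p.1 p.2 - d.D 0 (L.mul p.1 p.2))
        (ball 0 r ×ˢ ball 0 r) := by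
      have hsub : ball (0 : E) r ⊆ ball (0 : E) r1 := ball_subset_ball hrr1
      have h0 : (0 : E) ∈ ball (0 : E) r1 := mem_ball_self hr1
      refine ContDiffOn.sub (ContDiffOn.add ?_ ?_) ?_
      · refine d.D_smooth.comp (f := fun p : E × E => ((0 : E), p.1)) ?_ ?_
        · exact ContDiff.contDiffOn (by fun_prop)
        · rintro ⟨x, y⟩ ⟨hx, hy⟩
          exact ⟨h0, hsub hx⟩
      · exact d.D_smooth.mono (Set.prod_mono hsub hsub)
      · refine d.D_smooth.comp (f := fun p : E × E => ((0 : E), L.mul p.1 p.2)) ?_ ?_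
        · refine ContDiffOn.prodMk contDiffOn_const (L.contDiffOn_mul.mono ?_)
          exact Set.prod_mono (ball_subset_ball hrL) (ball_subset_ball hrL)
        · rintro ⟨x, y⟩ ⟨hx, hy⟩
          exact ⟨h0, hmulr x hx y hy⟩
    refine hD.congr ?_
    rintro ⟨x, y⟩ ⟨hx, hy⟩
    have hx1 : x ∈ ball (0 : E) L.r := ball_subset_ball hrL hx
    have hy1 : y ∈ ball (0 : E) L.r := ball_subset_ball hrL hy
    have hx2 : x ∈ ball (0 : E) r1 := ball_subset_ball hrr1 hx
    have hy2 : y ∈ ball (0 : E) r1 := ball_subset_ball hrr1 hy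
    have h1 : d.δ x y = d.D 0 x + d.D x y - d.D 0 (L.mul x y) :=
      d.step2 hx2 hy2 (hmulr x hx y hy)
    change c (L.φ.symm x) (L.φ.symm y) - d.B (L.φ (L.φ.symm x)) - d.B (L.φ (L.φ.symm y)) +
      d.B (L.φ (L.φ.symm x * L.φ.symm y)) = d.D 0 x + d.D x y - d.D 0 (L.mul x y)
    rw [← h1, L.right_inv hx1, L.right_inv hy1]
    have h2 : d.C x y = c (L.φ.symm x) (L.φ.symm y) := by
      change f x * f y * c (L.φ.symm x) (L.φ.symm y) = _
      rw [hf1 x (ball_subset_closedBall (ball_subset_ball (by linarith) hx2)),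
        hf1 y (ball_subset_closedBall (ball_subset_ball (by linarith) hy2)), one_mul, one_mul]
    rw [CocData.δ, h2]
    rfl

end smoothing

end MP_e326dc_an
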