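import Mathlib

set_option autoImplicit false

/-!
MP_e326dc_an, part L (= E10): local smooth structures on topological groups.
-/

namespace MP_e326dc_an

open Filter Topology Metric
open scoped ContDiff Manifold

/-- A local smooth structure at the identity of a group: a chart in which the multiplication, the
inversion and the conjugations are smooth near the identity. -/
structure LocLie (G E : Type) [TopologicalSpace G] [Group G] [NormedAddCommGroup E]
    [NormedSpace ℝ E] where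
  φ : OpenPartialHomeomorph G E
  one_mem : (1 : G) ∈ φ.source
  φ_one : φ 1 = 0
  r : ℝ
  r_pos : 0 < r
  ball_sub : ball (0 : E) r ⊆ φ.target
  mul_mem : ∀ x ∈ ball (0 : E) r, ∀ y ∈ ball (0 : E) r, φ.symm x * φ.symm y ∈ φ.source
  inv_mem : ∀ x ∈ ball (0 : E) r, (φ.symm x)⁻¹ ∈ φ.source
  mul_smooth : ContDiffOn ℝ ∞ (fun p : E × E => φ (φ.symm p.1 * φ.symm p.2))
    (ball 0 r ×ˢ ball 0 r)
  inv_smooth : ContDiffOn ℝ ∞ (fun x : E => φ (φ.symm x)⁻¹) (ball 0 r)
  conj_smooth : ∀ g : G, ∃ s : ℝ, 0 < s ∧ s ≤ r ∧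
    (∀ x ∈ ball (0 : E) s, g * φ.symm x * g⁻¹ ∈ φ.source) ∧
    ContDiffOn ℝ ∞ (fun x : E => φ (g * φ.symm x * g⁻¹)) (ball 0 s)

end MP_e326dc_an
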