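import Pool.Agent.Lib.MP_e326dc_an.L.Api

set_option autoImplicit false

/-!
MP_e326dc_an, part L (= E10), L6: extensions with discrete kernel.
-/

namespace MP_e326dc_an

open Filter Topology Metric MeasureTheory
open scoped ContDiff Manifold

section extension

variable {G H E : Type} [TopologicalSpace G] [Group G] [IsTopologicalGroup G] [T2Space G]
  [TopologicalSpace H] [Group H] [IsTopologicalGroup H] [T2Space H]
  [NormedAddCommGroup E] [NormedSpace ℝ E] [FiniteDimensional ℝ E]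

omit [T2Space G] [IsTopologicalGroup H] [T2Space H]
  [NormedAddCommGroup E] [NormedSpace ℝ E] [FiniteDimensional ℝ E] in
/-- `q` is a local homeomorphism at the identity. -/
theorem l6_chart (q : G →* H) (hq : Continuous q) (N : Set G)
    (hN : N ∈ 𝓝 (1 : G)) (hker : ∀ g ∈ N, q g = 1 → g = 1) (s : H → G) (V : Set H)
    (hV : V ∈ 𝓝 (1 : H)) (hs : ContinuousOn s V) (hs1 : s 1 = 1) (hqs : ∀ y ∈ V, q (s y) = y) :
    ∃ Ψ : OpenPartialHomeomorph G H, (1 : G) ∈ Ψ.source ∧ (Ψ : G → H) = q ∧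
      (Ψ.symm : H → G) = s ∧ Ψ.target ⊆ interior V := by
  have hsV : ContinuousOn s (interior V) := hs.mono interior_subset
  have hcont : ContinuousOn (fun g : G => g * (s (q g))⁻¹) (q ⁻¹' interior V) := by
    refine continuousOn_id.mul (ContinuousOn.inv ?_)
    exact hsV.comp hq.continuousOn fun g hg => hg
  have hopen1 : IsOpen (q ⁻¹' interior V) := isOpen_interior.preimage hq
  have hUo : IsOpen (q ⁻¹' interior V ∩ (fun g : G => g * (s (q g))⁻¹) ⁻¹' interior N) :=
    hcont.isOpen_inter_preimage hopen1 isOpen_interior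
  obtain ⟨U, hU⟩ : ∃ U : Set G,
      U = q ⁻¹' interior V ∩ (fun g : G => g * (s (q g))⁻¹) ⁻¹' interior N := ⟨_, rfl⟩
  rw [← hU] at hUo
  have hleft : ∀ g ∈ U, s (q g) = g := by
    intro g hg
    rw [hU] at hg
    have h1 : q (s (q g)) = q g := hqs _ (interior_subset hg.1)
    have h2 : q (g * (s (q g))⁻¹) = 1 := by
      rw [map_mul, map_inv, h1, mul_inv_cancel]
    have h3 := hker _ (interior_subset hg.2) h2
    exact (mul_inv_eq_one.mp h3).symm
  have hWo : IsOpen (interior V ∩ s ⁻¹' U) := hsV.isOpen_inter_preimage isOpen_interior hUo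
  have h1U : (1 : G) ∈ U := by
    rw [hU]
    refine ⟨?_, ?_⟩
    · simp only [Set.mem_preimage, map_one]
      exact mem_interior_iff_mem_nhds.mpr hV
    · simp only [Set.mem_preimage, map_one, hs1, inv_one, mul_one]
      exact mem_interior_iff_mem_nhds.mpr hN
  refine ⟨⟨⟨⟨q, s, U, interior V ∩ s ⁻¹' U, ?_, ?_, hleft, ?_⟩, hq.continuousOn,
    hsV.mono Set.inter_subset_left⟩, hUo, hWo⟩, h1U, rfl, rfl, Set.inter_subset_left⟩
  · intro g hg
    refine ⟨?_, ?_⟩
    · rw [hU] at hg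
      exact hg.1
    · simp only [Set.mem_preimage, hleft g hg]
      exact hg
  · intro y hy
    exact hy.2
  · intro y hy
    exact hqs y (interior_subset hy.1)

/-- L6 (file L/Discrete.lean): extensions with discrete kernel. -/
theorem locLie_discrete (L : LocLie H E) (q : G →* H) (hq : Continuous q) (N : Set G)
    (hN : N ∈ 𝓝 (1 : G)) (hker : ∀ g ∈ N, q g = 1 → g = 1) (s : H → G) (V : Set H)
    (hV : V ∈ 𝓝 (1 : H)) (hs : ContinuousOn s V) (hs1 : s 1 = 1) (hqs : ∀ y ∈ V, q (s y) = y) :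
    Nonempty (LocLie G E) := by
  obtain ⟨Ψ, h1, hΨ, hΨs, hT⟩ := l6_chart q hq N hN hker s V hV hs hs1 hqs
  have hTn : Ψ.target ∈ 𝓝 (1 : H) := by
    refine Ψ.open_target.mem_nhds ?_
    have := Ψ.map_source h1
    rw [hΨ, map_one] at this
    exact this
  have hqT : ∀ y ∈ Ψ.target, q (s y) = y := fun y hy => hqs y (interior_subset (hT hy))
  have hcs : ContinuousAt s 1 := hs.continuousAt hV
  have hU : Ψ.source ∈ 𝓝 (1 : G) := Ψ.open_source.mem_nhds h1
  -- the chart
  obtain ⟨φ', hφ'⟩ : ∃ φ' : OpenPartialHomeomorph G E, φ' = Ψ.trans L.φ := ⟨_, rfl⟩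
  have hφs : ∀ g, g ∈ Ψ.source → q g ∈ L.φ.source → g ∈ φ'.source := by
    intro g hg hg2
    rw [hφ', OpenPartialHomeomorph.trans_source]
    refine ⟨hg, ?_⟩
    rw [Set.mem_preimage, hΨ]
    exact hg2
  have hφa : ∀ g, φ' g = L.φ (q g) := by
    intro g
    rw [hφ', OpenPartialHomeomorph.coe_trans, Function.comp_apply, hΨ]
  have hφsym : ∀ x, φ'.symm x = s (L.φ.symm x) := by
    intro x
    rw [hφ', OpenPartialHomeomorph.coe_trans_symm, Function.comp_apply, hΨs]
  -- small neighbourhoods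
  have hmul : ∃ W1 ∈ 𝓝 (1 : H), ∀ x ∈ W1, ∀ y ∈ W1, s x * s y ∈ Ψ.source := by
    have hc : ContinuousAt (fun p : H × H => s p.1 * s p.2) (1, 1) := by
      refine ContinuousAt.mul ?_ ?_
      · exact ContinuousAt.comp (g := s) (f := Prod.fst) (x := ((1 : H), (1 : H))) hcs
          continuousAt_fst
      · exact ContinuousAt.comp (g := s) (f := Prod.snd) (x := ((1 : H), (1 : H))) hcs
          continuousAt_snd
    have h2 : (fun p : H × H => s p.1 * s p.2) ⁻¹' Ψ.source ∈ 𝓝 ((1 : H), (1 : H)) := by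
      refine hc ?_
      change Ψ.source ∈ 𝓝 (s 1 * s 1)
      rw [hs1, mul_one]
      exact hU
    rw [nhds_prod_eq, Filter.mem_prod_same_iff] at h2
    obtain ⟨W1, hW1, h3⟩ := h2
    exact ⟨W1, hW1, fun x hx y hy => h3 (Set.mk_mem_prod hx hy)⟩
  have hinv : (fun x : H => (s x)⁻¹) ⁻¹' Ψ.source ∈ 𝓝 (1 : H) := by
    refine hcs.inv ?_
    change Ψ.source ∈ 𝓝 ((s 1)⁻¹)
    rw [hs1, inv_one]
    exact hU
  obtain ⟨W1, hW1, hmul⟩ := hmul
  obtain ⟨r, hr, hrL, hball⟩ := L.exists_ball (W1 ∩ ((fun x : H => (s x)⁻¹) ⁻¹' Ψ.source) ∩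
    Ψ.target) (Filter.inter_mem (Filter.inter_mem hW1 hinv) hTn)
  have hbL : ball (0 : E) r ⊆ ball (0 : E) L.r := ball_subset_ball hrL
  have hqm : ∀ x ∈ ball (0 : E) r, q (s (L.φ.symm x)) = L.φ.symm x := fun x hx =>
    hqT _ (hball x hx).2
  refine ⟨⟨φ', ?_, ?_, r, hr, ?_, ?_, ?_, ?_, ?_, ?_⟩⟩
  · refine hφs 1 h1 ?_
    rw [map_one]
    exact L.one_mem
  · rw [hφa, map_one, L.φ_one]
  · intro x hx
    rw [hφ', OpenPartialHomeomorph.trans_target]
    refine ⟨L.ball_sub (hbL hx), ?_⟩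
    exact (hball x hx).2
  · intro x hx y hy
    rw [hφsym, hφsym]
    refine hφs _ (hmul _ (hball x hx).1.1 _ (hball y hy).1.1) ?_
    rw [map_mul, hqm x hx, hqm y hy]
    exact L.mul_mem x (hbL hx) y (hbL hy)
  · intro x hx
    rw [hφsym]
    refine hφs _ (hball x hx).1.2 ?_
    rw [map_inv, hqm x hx]
    exact L.inv_mem x (hbL hx)
  · refine (L.mul_smooth.mono (Set.prod_mono hbL hbL)).congr ?_
    rintro ⟨x, y⟩ ⟨hx, hy⟩
    simp only [hφa, hφsym, map_mul]
    rw [hqm x hx, hqm y hy]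
  · refine (L.inv_smooth.mono hbL).congr ?_
    intro x hx
    simp only [hφa, hφsym, map_inv]
    rw [hqm x hx]
  · intro g
    obtain ⟨s0, hs0, hs0r, hc1, hc2⟩ := L.conj_smooth (q g)
    have hc : ContinuousAt (fun y : H => g * s y * g⁻¹) 1 :=
      (continuousAt_const.mul hcs).mul continuousAt_const
    have hn : (fun y : H => g * s y * g⁻¹) ⁻¹' Ψ.source ∈ 𝓝 (1 : H) := by
      refine hc ?_
      change Ψ.source ∈ 𝓝 (g * s 1 * g⁻¹)
      rw [hs1, mul_one, mul_inv_cancel]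
      exact hU
    obtain ⟨ρ, hρ, -, hρb⟩ := L.exists_ball _ hn
    refine ⟨min (min s0 ρ) r, lt_min (lt_min hs0 hρ) hr, min_le_right _ _, ?_, ?_⟩
    · intro x hx
      have hx1 : x ∈ ball (0 : E) s0 :=
        ball_subset_ball ((min_le_left _ _).trans (min_le_left _ _)) hx
      have hx2 : x ∈ ball (0 : E) ρ :=
        ball_subset_ball ((min_le_left _ _).trans (min_le_right _ _)) hx
      have hx3 : x ∈ ball (0 : E) r := ball_subset_ball (min_le_right _ _) hx
      rw [hφsym]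
      refine hφs _ (hρb x hx2) ?_
      rw [map_mul, map_mul, map_inv, hqm x hx3]
      exact hc1 x hx1
    · refine (hc2.mono (ball_subset_ball ((min_le_left _ _).trans (min_le_left _ _)))).congr ?_
      intro x hx
      have hx3 : x ∈ ball (0 : E) r := ball_subset_ball (min_le_right _ _) hx
      simp only [hφa, hφsym, map_mul, map_inv]
      rw [hqm x hx3]

end extension

end MP_e326dc_an
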