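import Pool.Agent.Lib.MP_e326dc_an.L.Api

set_option autoImplicit false
set_option linter.unusedVariables false
set_option linter.unusedSectionVars false

/-!
MP_e326dc_an, part L (= E10): the cocycle of a local section of a central extension.
-/

namespace MP_e326dc_an

open Filter Topology Metric MeasureTheory
open scoped ContDiff Manifold

/-- the parameter of a point of the small arc of a one-parameter group is a continuous function -/
theorem sec_param {G : Type} [TopologicalSpace G] [T2Space G] (e : ℝ → G) (he : Continuous e) (δ : ℝ)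
    (he_inj : Set.InjOn e (Set.Icc (-δ) δ)) (t0 : ℝ) (ht0 : t0 ∈ Set.Icc (-δ) δ) (U : Set ℝ)
    (hU : U ∈ 𝓝 t0) : ∀ᶠ g in 𝓝 (e t0), ∀ t ∈ Set.Icc (-δ) δ, g = e t → t ∈ U := by
  have hcomp : IsCompact (Set.Icc (-δ) δ \ interior U) := isCompact_Icc.diff isOpen_interior
  have hclosed : IsClosed (e '' (Set.Icc (-δ) δ \ interior U)) := (hcomp.image he).isClosed
  have hnot : e t0 ∉ e '' (Set.Icc (-δ) δ \ interior U) := by
    rintro ⟨t, ⟨ht1, ht2⟩, ht3⟩
    have h := he_inj ht1 ht0 ht3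
    rw [h] at ht2
    exact ht2 (mem_interior_iff_mem_nhds.2 hU)
  filter_upwards [hclosed.isOpen_compl.mem_nhds hnot] with g hg t ht hgt
  by_contra hcon
  exact hg ⟨t, ⟨ht, fun h => hcon (interior_subset h)⟩, hgt.symm⟩

section extension

variable {G H E : Type} [TopologicalSpace G] [Group G] [IsTopologicalGroup G] [T2Space G]
  [TopologicalSpace H] [Group H] [IsTopologicalGroup H] [T2Space H]
  [NormedAddCommGroup E] [NormedSpace ℝ E] [FiniteDimensional ℝ E]

omit [NormedAddCommGroup E] [NormedSpace ℝ E] [FiniteDimensional ℝ E] in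
/-- L5b (file L/Section.lean): the cocycle of a local section. -/
theorem exists_cocycle (q : G →* H) (hq : Continuous q) (e : ℝ → G)
    (he : Continuous e) (he_add : ∀ t t', e (t + t') = e t * e t')
    (he_central : ∀ t g, e t * g = g * e t) (he_ker : ∀ t, q (e t) = 1) (δ : ℝ) (hδ : 0 < δ)
    (he_inj : Set.InjOn e (Set.Icc (-δ) δ)) (N : Set G) (hN : N ∈ 𝓝 (1 : G))
    (hker : ∀ g ∈ N, q g = 1 → ∃ t : ℝ, |t| < δ ∧ g = e t) (s : H → G) (V : Set H)
    (hV : V ∈ 𝓝 (1 : H)) (hs : ContinuousOn s V) (hs1 : s 1 = 1) (hqs : ∀ y ∈ V, q (s y) = y) :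
    ∃ (c : H → H → ℝ) (V' : Set H), V' ∈ 𝓝 (1 : H) ∧ V' ⊆ V ∧
      ContinuousOn (fun p : H × H => c p.1 p.2) (V' ×ˢ V') ∧
      (∀ x ∈ V', ∀ y ∈ V', x * y ∈ V ∧ |c x y| < δ / 4 ∧ s x * s y = e (c x y) * s (x * y)) ∧
      ∀ x ∈ V', ∀ y ∈ V', ∀ z ∈ V', x * y ∈ V' → y * z ∈ V' →
        c x y + c (x * y) z = c y z + c x (y * z) := by
  classical
  have he0 : e 0 = 1 := by
    have h := he_add 0 0
    rw [add_zero] at h
    exact (mul_left_cancel (a := e 0) (b := 1) (c := e 0) (by rw [mul_one]; exact h)).symm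
  have hsub : ∀ t : ℝ, |t| < δ → t ∈ Set.Icc (-δ) δ := fun t ht =>
    ⟨(abs_lt.1 ht).1.le, (abs_lt.1 ht).2.le⟩
  -- the defect of the section
  set D : H × H → G := fun p => s p.1 * s p.2 * (s (p.1 * p.2))⁻¹ with hD
  set c : H → H → ℝ := fun x y => if h : ∃ t : ℝ, |t| < δ ∧ D (x, y) = e t then h.choose else 0 with hc
  have hc_spec : ∀ x y, (∃ t : ℝ, |t| < δ ∧ D (x, y) = e t) → |c x y| < δ ∧ D (x, y) = e (c x y) := by
    intro x y h
    have h1 : c x y = h.choose := by
      simp only [hc]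
      rw [dif_pos h]
    rw [h1]
    exact h.choose_spec
  have hs_at : ContinuousAt s 1 := hs.continuousAt hV
  have hD_at : ContinuousAt D (1, 1) := by
    have h1 : ContinuousAt (fun p : H × H => s p.1) (1, 1) :=
      ContinuousAt.comp (f := Prod.fst) (g := s) (x := ((1 : H), (1 : H))) hs_at continuousAt_fst
    have h2 : ContinuousAt (fun p : H × H => s p.2) (1, 1) :=
      ContinuousAt.comp (f := Prod.snd) (g := s) (x := ((1 : H), (1 : H))) hs_at continuousAt_snd
    have h3 : ContinuousAt (fun p : H × H => s (p.1 * p.2)) (1, 1) := by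
      refine ContinuousAt.comp (f := fun p : H × H => p.1 * p.2) (g := s) (x := ((1 : H), (1 : H))) ?_
        (continuous_fst.mul continuous_snd).continuousAt
      simpa only [mul_one] using hs_at
    exact (h1.mul h2).mul h3.inv
  have hD1 : D (1, 1) = e 0 := by
    simp only [hD, mul_one, hs1, inv_one, he0]
  have hparam0 := sec_param e he δ he_inj 0 (hsub 0 (by rwa [abs_zero])) (Set.Ioo (-(δ / 4)) (δ / 4))
    (Ioo_mem_nhds (by linarith) (by linarith))
  have hev : ∀ᶠ p : H × H in 𝓝 (1, 1), D p ∈ N ∧ (∀ t ∈ Set.Icc (-δ) δ, D p = e t →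
      t ∈ Set.Ioo (-(δ / 4)) (δ / 4)) ∧ p.1 * p.2 ∈ V := by
    have h1 : ∀ᶠ p : H × H in 𝓝 (1, 1), D p ∈ N := by
      refine hD_at.eventually_mem ?_
      rw [hD1, he0]
      exact hN
    have h2 : ∀ᶠ p : H × H in 𝓝 (1, 1), ∀ t ∈ Set.Icc (-δ) δ, D p = e t →
        t ∈ Set.Ioo (-(δ / 4)) (δ / 4) := by
      have h := hD_at
      rw [ContinuousAt, hD1] at h
      exact h.eventually hparam0
    have h3 : ∀ᶠ p : H × H in 𝓝 (1, 1), p.1 * p.2 ∈ V := by
      have h : ContinuousAt (fun p : H × H => p.1 * p.2) (1, 1) :=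
        (continuous_fst.mul continuous_snd).continuousAt
      refine h.eventually_mem ?_
      simpa only [mul_one] using hV
    filter_upwards [h1, h2, h3] with p hp1 hp2 hp3 using ⟨hp1, hp2, hp3⟩
  obtain ⟨A, hA, B, hB, hAB⟩ := mem_nhds_prod_iff.1 hev
  set V' : Set H := A ∩ B ∩ V with hV'
  have hV'n : V' ∈ 𝓝 (1 : H) := inter_mem (inter_mem hA hB) hV
  have hV'V : V' ⊆ V := Set.inter_subset_right
  have hall : ∀ x ∈ V', ∀ y ∈ V', x * y ∈ V ∧ |c x y| < δ / 4 ∧ D (x, y) = e (c x y) := by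
    intro x hx y hy
    have h := hAB (Set.mk_mem_prod hx.1.1 hy.1.2)
    obtain ⟨h1, h2, h3⟩ := h
    have hxV := hV'V hx
    have hyV := hV'V hy
    have hq1 : q (D (x, y)) = 1 := by
      simp only [hD, map_mul, map_inv, hqs x hxV, hqs y hyV]
      rw [hqs (x * y) h3, mul_inv_cancel]
    have h4 := hc_spec x y (hker _ h1 hq1)
    refine ⟨h3, abs_lt.2 (h2 _ (hsub _ h4.1) h4.2), h4.2⟩
  have hsxy : ∀ x ∈ V', ∀ y ∈ V', s x * s y = e (c x y) * s (x * y) := by
    intro x hx y hy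
    rw [← (hall x hx y hy).2.2]
    simp only [hD, inv_mul_cancel_right]
  refine ⟨c, V', hV'n, hV'V, ?_, fun x hx y hy => ⟨(hall x hx y hy).1, (hall x hx y hy).2.1,
    hsxy x hx y hy⟩, ?_⟩
  · -- continuity
    have hDc : ContinuousOn D (V' ×ˢ V') := by
      have h1 : ContinuousOn (fun p : H × H => s p.1) (V' ×ˢ V') :=
        hs.comp continuousOn_fst fun p hp => hV'V hp.1
      have h2 : ContinuousOn (fun p : H × H => s p.2) (V' ×ˢ V') :=
        hs.comp continuousOn_snd fun p hp => hV'V hp.2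
      have h3 : ContinuousOn (fun p : H × H => s (p.1 * p.2)) (V' ×ˢ V') :=
        hs.comp (continuous_fst.mul continuous_snd).continuousOn fun p hp => (hall p.1 hp.1 p.2 hp.2).1
      exact (h1.mul h2).mul h3.inv
    rintro ⟨x, y⟩ hp U hU
    have h0 := hall x hp.1 y hp.2
    have hcI : c x y ∈ Set.Icc (-δ) δ := hsub _ (by linarith [h0.2.1])
    have h1 := sec_param e he δ he_inj (c x y) hcI U hU
    rw [← h0.2.2] at h1
    have h2 := (hDc (x, y) hp).eventually h1
    have h3 : ∀ᶠ p in 𝓝[V' ×ˢ V'] (x, y), p ∈ V' ×ˢ V' := self_mem_nhdsWithin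
    change ∀ᶠ p : H × H in 𝓝[V' ×ˢ V'] (x, y), c p.1 p.2 ∈ U
    filter_upwards [h2, h3] with p hp2 hp3
    have h4 := hall p.1 hp3.1 p.2 hp3.2
    exact hp2 _ (hsub _ (by linarith [h4.2.1])) h4.2.2
  · -- cocycle identity
    intro x hx y hy z hz hxy hyz
    have h1 : (s x * s y) * s z = e (c x y + c (x * y) z) * s (x * y * z) := by
      rw [hsxy x hx y hy, mul_assoc, hsxy (x * y) hxy z hz, he_add, ← mul_assoc (e (c x y))]
    have h2 : s x * (s y * s z) = e (c y z + c x (y * z)) * s (x * y * z) := by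
      rw [hsxy y hy z hz, ← mul_assoc, ← he_central, mul_assoc, hsxy x hx (y * z) hyz, he_add,
        mul_assoc, mul_assoc x y z]
    rw [mul_assoc (s x), h2] at h1
    have h3 := mul_right_cancel h1
    have b1 := abs_lt.1 (hall x hx y hy).2.1
    have b2 := abs_lt.1 (hall (x * y) hxy z hz).2.1
    have b3 := abs_lt.1 (hall y hy z hz).2.1
    have b4 := abs_lt.1 (hall x hx (y * z) hyz).2.1
    exact (he_inj ⟨by linarith, by linarith⟩ ⟨by linarith, by linarith⟩ h3).symm

end extension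

end MP_e326dc_an
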