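import Pool.Agent.Lib.MP_e326dc_an.L.OfSection
import Pool.Agent.Lib.MP_e326dc_an.L.Section
import Pool.Agent.Lib.MP_e326dc_an.L.Cocycle
import Pool.Agent.Lib.MP_e326dc_an.L.Chart

set_option autoImplicit false
set_option linter.unusedSectionVars false

/-!
MP_e326dc_an, part L (= E10), module L5: central extensions by a one-parameter group.
-/

namespace MP_e326dc_an

open Filter Topology Metric MeasureTheory
open scoped ContDiff Manifold

variable {G H E : Type} [TopologicalSpace G] [Group G] [IsTopologicalGroup G] [T2Space G]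
  [TopologicalSpace H] [Group H] [IsTopologicalGroup H] [T2Space H]
  [NormedAddCommGroup E] [NormedSpace ℝ E] [FiniteDimensional ℝ E]

/-- L5 (file L/Ext.lean): central extensions by a one-parameter group. -/
theorem locLie_ext (L : LocLie H E) (q : G →* H) (hq : Continuous q) (e : ℝ → G)
    (he : Continuous e) (he_add : ∀ t t', e (t + t') = e t * e t')
    (he_central : ∀ t g, e t * g = g * e t) (he_ker : ∀ t, q (e t) = 1) (δ : ℝ) (hδ : 0 < δ)
    (he_inj : Set.InjOn e (Set.Icc (-δ) δ)) (N : Set G) (hN : N ∈ 𝓝 (1 : G))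
    (hker : ∀ g ∈ N, q g = 1 → ∃ t : ℝ, |t| < δ ∧ g = e t) (s : H → G) (V : Set H)
    (hV : V ∈ 𝓝 (1 : H)) (hs : ContinuousOn s V) (hs1 : s 1 = 1) (hqs : ∀ y ∈ V, q (s y) = y) :
    Nonempty (LocLie G (ℝ × E)) := by
  have he0 : e 0 = 1 := by
    have h := he_add 0 0
    rw [add_zero] at h
    exact (mul_left_cancel (a := e 0) (b := 1) (c := e 0) (by rw [mul_one]; exact h)).symm
  obtain ⟨c, V', hV', hV'V, hcc, hc, hcoc⟩ := exists_cocycle q hq e he he_add he_central he_ker δ hδ
    he_inj N hN hker s V hV hs hs1 hqs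
  obtain ⟨b, W, r, hW, hWV', hb, hr, hrL, hW1, hW2, hsm⟩ := smooth_cocycle L c V' hV' hcc hcoc
  have h1V' : (1 : H) ∈ V' := mem_of_mem_nhds hV'
  have hc11 : c 1 1 = 0 := by
    obtain ⟨-, h2, h3⟩ := hc 1 h1V' 1 h1V'
    rw [mul_one, hs1, mul_one, mul_one] at h3
    have h4 := abs_lt.mp h2
    exact he_inj ⟨by linarith [h4.1], by linarith [h4.2]⟩ ⟨by linarith, by linarith⟩
      (by rw [← h3, he0])
  set s' : H → G := fun y => e (b 1 - b y) * s y with hs'
  have hs'c : ContinuousOn s' W :=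
    (he.comp_continuousOn (continuousOn_const.sub hb)).mul (hs.mono (hWV'.trans hV'V))
  have hs'1 : s' 1 = 1 := by simp only [hs', sub_self, he0, hs1, mul_one]
  have hqs' : ∀ y ∈ W, q (s' y) = y := by
    intro y hy
    simp only [hs', map_mul, he_ker, one_mul]
    exact hqs y (hV'V (hWV' hy))
  obtain ⟨Ψ, hΨ1, hΨ0, hΨq, hΨ⟩ := exists_chart q hq e he he_add he_central he_ker δ hδ
    he_inj N hN hker s' W hW hs'c hs'1 hqs'
  refine locLie_of_section L q e he_add he_central δ hδ he_inj s' W hW hs'c hs'1 hqs'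
    (fun x y => c x y - b x - b y + b (x * y) + b 1) r hr hrL ?_ ?_ ?_ Ψ hΨ1 hΨ0 hΨq hΨ
  · intro x hx y hy
    have h1 := (hc _ (hWV' (hW1 x hx)) _ (hWV' (hW1 y hy))).2.2
    set X := L.φ.symm x
    set Y := L.φ.symm y
    simp only [hs']
    calc e (b 1 - b X) * s X * (e (b 1 - b Y) * s Y)
        = e (b 1 - b X) * (s X * e (b 1 - b Y)) * s Y := by group
      _ = e (b 1 - b X) * (e (b 1 - b Y) * s X) * s Y := by
        rw [he_central (b 1 - b Y) (s X)]
      _ = e (b 1 - b X) * e (b 1 - b Y) * (s X * s Y) := by group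
      _ = e (b 1 - b X) * e (b 1 - b Y) * (e (c X Y) * s (X * Y)) := by rw [h1]
      _ = e ((b 1 - b X) + (b 1 - b Y) + c X Y) * s (X * Y) := by
        rw [he_add, he_add]; group
      _ = e ((c X Y - b X - b Y + b (X * Y) + b 1) + (b 1 - b (X * Y))) * s (X * Y) := by
        congr 2; ring
      _ = _ := by rw [he_add, mul_assoc]
  · have h1 := hsm.add (contDiffOn_const (c := b 1))
    exact h1
  · simp only [hc11, mul_one]
    ring

end MP_e326dc_an
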