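import Pool.Agent.Lib.MP_e326dc_an.L.Api

set_option autoImplicit false
set_option linter.unusedSectionVars false

/-!
MP_e326dc_an, part L (= E10): the Haar measures in the chart.
-/

namespace MP_e326dc_an

open Filter Topology Metric MeasureTheory
open scoped ContDiff Manifold

namespace LocLie

variable {G E : Type} [TopologicalSpace G] [Group G] [NormedAddCommGroup E] [NormedSpace ℝ E]
  (L : LocLie G E)

theorem half_sub : closedBall (0 : E) (L.r / 2) ⊆ ball (0 : E) L.r :=
  closedBall_subset_ball (by linarith [L.r_pos])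

theorem mul_inv_mul {x y : E} (hx : x ∈ ball (0 : E) L.r) (hy : y ∈ ball (0 : E) L.r)
    (hix : L.inv x ∈ ball (0 : E) L.r) :
    L.mul x (L.mul (L.inv x) y) = y := by
  rw [mul, L.symm_mul hix hy, L.symm_inv hx, ← mul_assoc, mul_inv_cancel, one_mul, L.right_inv hy]

theorem inv_mul_mul {x y : E} (hx : x ∈ ball (0 : E) L.r) (hy : y ∈ ball (0 : E) L.r) :
    L.mul (L.inv x) (L.mul x y) = y := by
  rw [mul, L.symm_mul hx hy, L.symm_inv hx, ← mul_assoc, inv_mul_cancel, one_mul, L.right_inv hy]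

theorem mul_mul_inv {x y : E} (hx : x ∈ ball (0 : E) L.r) (hy : y ∈ ball (0 : E) L.r) :
    L.mul (L.mul y x) (L.inv x) = y := by
  rw [mul, L.symm_mul hy hx, L.symm_inv hx, mul_assoc, mul_inv_cancel, mul_one, L.right_inv hy]

section measures

variable [FiniteDimensional ℝ E] [MeasurableSpace E] [BorelSpace E] [IsTopologicalGroup G]
  [T2Space G]

theorem locallyCompactSpace (L : LocLie G E) : LocallyCompactSpace G := by
  have hK : IsCompact (L.φ.symm '' closedBall (0 : E) (L.r / 2)) :=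
    (isCompact_closedBall _ _).image_of_continuousOn (L.continuousOn_symm.mono L.half_sub)
  refine hK.locallyCompactSpace_of_mem_nhds_of_group (x := (1 : G)) ?_
  filter_upwards [L.image_ball_mem_nhds (half_pos L.r_pos)] with g hg
  exact ⟨L.φ g, ball_subset_closedBall hg.2, L.φ.left_inv hg.1⟩

variable [MeasurableSpace G] [BorelSpace G]

omit [MeasurableSpace E] [BorelSpace E] [T2Space G] [IsTopologicalGroup G] [MeasurableSpace G]
  [BorelSpace G] [FiniteDimensional ℝ E] in
theorem injOn_symm : Set.InjOn L.φ.symm (closedBall (0 : E) (L.r / 2)) := by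
  intro x hx y hy h
  rw [← L.right_inv (L.half_sub hx), ← L.right_inv (L.half_sub hy), h]

omit [IsTopologicalGroup G] in
/-- The measure in the chart of a measure on the group. -/
theorem chart_measure (μ : Measure G) [IsFiniteMeasureOnCompacts μ] [μ.IsOpenPosMeasure] :
    ∃ m : Measure E, IsFiniteMeasure m ∧ (∀ ε : ℝ, 0 < ε → 0 < m (ball (0 : E) ε)) ∧
      (∀ᵐ y ∂m, y ∈ closedBall (0 : E) (L.r / 2)) ∧
      ∀ F : G → ℝ, (∀ g, F g ≠ 0 → g ∈ L.φ.source ∧ L.φ g ∈ closedBall (0 : E) (L.r / 2)) →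
        ∫ g, F g ∂μ = ∫ y, F (L.φ.symm y) ∂m := by
  classical
  set B : Set E := closedBall (0 : E) (L.r / 2) with hB
  have hBm : MeasurableSet B := isClosed_closedBall.measurableSet
  have : CompactSpace B := isCompact_iff_compactSpace.mp (isCompact_closedBall _ _)
  have hcont : Continuous (fun y : B => L.φ.symm (y : E)) :=
    continuousOn_iff_continuous_domRestrict.mp (L.continuousOn_symm.mono L.half_sub)
  have hinj : Function.Injective (fun y : B => L.φ.symm (y : E)) := by
    intro x y h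
    exact Subtype.ext (L.injOn_symm x.2 y.2 h)
  have hemb : MeasurableEmbedding (fun y : B => L.φ.symm (y : E)) :=
    (hcont.isClosedEmbedding hinj).measurableEmbedding
  have hval : MeasurableEmbedding (Subtype.val : B → E) := MeasurableEmbedding.subtype_coe hBm
  set m' : Measure B := Measure.comap (fun y : B => L.φ.symm (y : E)) μ with hm'
  set m : Measure E := Measure.map (Subtype.val : B → E) m' with hm
  have hrange : Set.range (fun y : B => L.φ.symm (y : E)) = L.φ.symm '' B := by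
    ext g
    constructor
    · rintro ⟨y, rfl⟩
      exact ⟨y, y.2, rfl⟩
    · rintro ⟨y, hy, rfl⟩
      exact ⟨⟨y, hy⟩, rfl⟩
  have hmap : Measure.map (fun y : B => L.φ.symm (y : E)) m' = μ.restrict (L.φ.symm '' B) := by
    rw [hm', hemb.map_comap, hrange]
  have hK : IsCompact (L.φ.symm '' B) :=
    (isCompact_closedBall _ _).image_of_continuousOn (L.continuousOn_symm.mono L.half_sub)
  have hfin' : IsFiniteMeasure m' := by
    refine ⟨?_⟩
    rw [hm', hemb.comap_apply]
    refine lt_of_le_of_lt (measure_mono (Set.image_subset_range _ _)) ?_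
    rw [hrange]
    exact hK.measure_lt_top
  refine ⟨m, ?_, ?_, ?_, ?_⟩
  · rw [hm]
    infer_instance
  · intro ε hε
    set δ := min ε (L.r / 2) with hδdef
    have hδ : 0 < δ := lt_min hε (half_pos L.r_pos)
    have h1 : {g : G | g ∈ L.φ.source ∧ L.φ g ∈ ball (0 : E) δ} ∈ 𝓝 (1 : G) :=
      L.image_ball_mem_nhds hδ
    have h2 : 0 < μ {g : G | g ∈ L.φ.source ∧ L.φ g ∈ ball (0 : E) δ} :=
      Measure.measure_pos_of_mem_nhds μ h1
    refine lt_of_lt_of_le h2 ?_
    rw [hm, hval.map_apply, hm', hemb.comap_apply]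
    refine measure_mono ?_
    rintro g ⟨hg1, hg2⟩
    have h3 : L.φ g ∈ B := ball_subset_closedBall (ball_subset_ball (min_le_right _ _) hg2)
    exact ⟨⟨L.φ g, h3⟩, ball_subset_ball (min_le_left _ _) hg2, L.φ.left_inv hg1⟩
  · rw [hm, hval.ae_map_iff]
    exact Eventually.of_forall fun y => y.2
  · intro F hF
    have h1 : ∫ g, F g ∂μ = ∫ g in L.φ.symm '' B, F g ∂μ := by
      refine (setIntegral_eq_integral_of_forall_compl_eq_zero fun g hg => ?_).symm
      by_contra h
      obtain ⟨h2, h3⟩ := hF g h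
      exact hg ⟨L.φ g, h3, L.φ.left_inv h2⟩
    rw [h1, ← hmap, hemb.integral_map, hm, hval.integral_map]

/-- The left Haar measure in the chart. -/
theorem exists_left_haar :
    ∃ m : Measure E, IsFiniteMeasure m ∧ (∀ ε : ℝ, 0 < ε → 0 < m (ball (0 : E) ε)) ∧
      (∀ᵐ y ∂m, y ∈ closedBall (0 : E) (L.r / 2)) ∧
      ∀ R : ℝ, R < L.r / 2 → ∃ ρ : ℝ, 0 < ρ ∧ ρ ≤ L.r ∧ ∀ x ∈ ball (0 : E) ρ, ∀ K : E → ℝ,
        (∀ w, R ≤ ‖w‖ → K w = 0) → ∫ y, K (L.mul x y) ∂m = ∫ y, K y ∂m := by
  classical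
  have : LocallyCompactSpace G := L.locallyCompactSpace
  obtain ⟨m, hm1, hm2, hm3, hm4⟩ := L.chart_measure (Measure.haar : Measure G)
  refine ⟨m, hm1, hm2, hm3, fun R hR => ?_⟩
  obtain ⟨ρ1, hρ1, -, hnear⟩ := L.exists_mul_near (L.r / 2 - R) (by linarith)
  obtain ⟨ρ, hρ, hρr, -, hinv⟩ := L.exists_small_inv (min ρ1 L.r) (lt_min hρ1 L.r_pos)
  refine ⟨ρ, hρ, hρr, fun x hx K hK => ?_⟩
  have hxr : x ∈ ball (0 : E) L.r := ball_subset_ball hρr hx
  have hix : L.inv x ∈ ball (0 : E) ρ1 := ball_subset_ball (min_le_left _ _) (hinv x hx)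
  have hixr : L.inv x ∈ ball (0 : E) L.r := ball_subset_ball (min_le_right _ _) (hinv x hx)
  set F : G → ℝ := fun g => if g ∈ L.φ.source then K (L.φ g) else 0 with hFdef
  have hF0 : ∀ g, F g ≠ 0 → g ∈ L.φ.source ∧ ‖L.φ g‖ < R := by
    intro g hg
    by_cases h1 : g ∈ L.φ.source
    · refine ⟨h1, ?_⟩
      by_contra h2
      apply hg
      simp only [hFdef, h1, if_true]
      exact hK _ (not_lt.mp h2)
    · exact absurd (by simp only [hFdef, h1, if_false]) hg
  have h1 : ∫ g, F g ∂Measure.haar = ∫ y, K y ∂m := by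
    rw [hm4 F fun g hg => ⟨(hF0 g hg).1, mem_closedBall_zero_iff.mpr
      ((hF0 g hg).2.le.trans (by linarith))⟩]
    refine integral_congr_ae ?_
    filter_upwards [hm3] with y hy
    have hy' := L.half_sub hy
    simp only [hFdef, L.symm_mem hy', if_true, L.right_inv hy']
  have h2 : ∫ g, F (L.φ.symm x * g) ∂Measure.haar = ∫ y, K (L.mul x y) ∂m := by
    rw [hm4 (fun g => F (L.φ.symm x * g)) fun g hg => ?_]
    · refine integral_congr_ae ?_
      filter_upwards [hm3] with y hy
      have hy' := L.half_sub hy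
      simp only [hFdef, L.mul_mem x hxr y hy', if_true, LocLie.mul]
    · obtain ⟨h3, h4⟩ := hF0 _ hg
      set w := L.φ (L.φ.symm x * g) with hw
      have hwball : w ∈ closedBall (0 : E) (L.r / 2) :=
        mem_closedBall_zero_iff.mpr (by linarith)
      have hg2 : g = L.φ.symm (L.inv x) * L.φ.symm w := by
        rw [L.symm_inv hxr, hw, L.φ.left_inv h3, inv_mul_cancel_left]
      have hwr := L.half_sub hwball
      refine ⟨hg2 ▸ L.mul_mem _ hixr _ hwr, ?_⟩
      have h5 : L.φ g = L.mul (L.inv x) w := by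
        rw [LocLie.mul, ← hg2]
      rw [h5, mem_closedBall_zero_iff]
      have h6 := (hnear _ hix w hwball).1
      calc ‖L.mul (L.inv x) w‖ = ‖(L.mul (L.inv x) w - w) + w‖ := by rw [sub_add_cancel]
        _ ≤ ‖L.mul (L.inv x) w - w‖ + ‖w‖ := norm_add_le _ _
        _ ≤ L.r / 2 := by linarith
  rw [← h2, ← h1, integral_mul_left_eq_self]

/-- The right Haar measure in the chart. -/
theorem exists_right_haar :
    ∃ m : Measure E, IsFiniteMeasure m ∧ (∀ ε : ℝ, 0 < ε → 0 < m (ball (0 : E) ε)) ∧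
      (∀ᵐ y ∂m, y ∈ closedBall (0 : E) (L.r / 2)) ∧
      ∀ R : ℝ, R < L.r / 2 → ∃ ρ : ℝ, 0 < ρ ∧ ρ ≤ L.r ∧ ∀ x ∈ ball (0 : E) ρ, ∀ K : E → ℝ,
        (∀ w, R ≤ ‖w‖ → K w = 0) → ∫ y, K (L.mul y x) ∂m = ∫ y, K y ∂m := by
  classical
  have : LocallyCompactSpace G := L.locallyCompactSpace
  obtain ⟨m, hm1, hm2, hm3, hm4⟩ := L.chart_measure (Measure.haar : Measure G).inv
  refine ⟨m, hm1, hm2, hm3, fun R hR => ?_⟩
  obtain ⟨ρ1, hρ1, -, hnear⟩ := L.exists_mul_near (L.r / 2 - R) (by linarith)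
  obtain ⟨ρ, hρ, hρr, -, hinv⟩ := L.exists_small_inv (min ρ1 L.r) (lt_min hρ1 L.r_pos)
  refine ⟨ρ, hρ, hρr, fun x hx K hK => ?_⟩
  have hxr : x ∈ ball (0 : E) L.r := ball_subset_ball hρr hx
  have hix : L.inv x ∈ ball (0 : E) ρ1 := ball_subset_ball (min_le_left _ _) (hinv x hx)
  have hixr : L.inv x ∈ ball (0 : E) L.r := ball_subset_ball (min_le_right _ _) (hinv x hx)
  set F : G → ℝ := fun g => if g ∈ L.φ.source then K (L.φ g) else 0 with hFdef
  have hF0 : ∀ g, F g ≠ 0 → g ∈ L.φ.source ∧ ‖L.φ g‖ < R := by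
    intro g hg
    by_cases h1 : g ∈ L.φ.source
    · refine ⟨h1, ?_⟩
      by_contra h2
      apply hg
      simp only [hFdef, h1, if_true]
      exact hK _ (not_lt.mp h2)
    · exact absurd (by simp only [hFdef, h1, if_false]) hg
  have h1 : ∫ g, F g ∂(Measure.haar : Measure G).inv = ∫ y, K y ∂m := by
    rw [hm4 F fun g hg => ⟨(hF0 g hg).1, mem_closedBall_zero_iff.mpr
      ((hF0 g hg).2.le.trans (by linarith))⟩]
    refine integral_congr_ae ?_
    filter_upwards [hm3] with y hy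
    have hy' := L.half_sub hy
    simp only [hFdef, L.symm_mem hy', if_true, L.right_inv hy']
  have h2 : ∫ g, F (g * L.φ.symm x) ∂(Measure.haar : Measure G).inv = ∫ y, K (L.mul y x) ∂m := by
    rw [hm4 (fun g => F (g * L.φ.symm x)) fun g hg => ?_]
    · refine integral_congr_ae ?_
      filter_upwards [hm3] with y hy
      have hy' := L.half_sub hy
      simp only [hFdef, L.mul_mem y hy' x hxr, if_true, LocLie.mul]
    · obtain ⟨h3, h4⟩ := hF0 _ hg
      set w := L.φ (g * L.φ.symm x) with hw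
      have hwball : w ∈ closedBall (0 : E) (L.r / 2) :=
        mem_closedBall_zero_iff.mpr (by linarith)
      have hg2 : g = L.φ.symm w * L.φ.symm (L.inv x) := by
        rw [L.symm_inv hxr, hw, L.φ.left_inv h3, mul_inv_cancel_right]
      have hwr := L.half_sub hwball
      refine ⟨hg2 ▸ L.mul_mem _ hwr _ hixr, ?_⟩
      have h5 : L.φ g = L.mul w (L.inv x) := by
        rw [LocLie.mul, ← hg2]
      rw [h5, mem_closedBall_zero_iff]
      have h6 := (hnear _ hix w hwball).2
      calc ‖L.mul w (L.inv x)‖ = ‖(L.mul w (L.inv x) - w) + w‖ := by rw [sub_add_cancel]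
        _ ≤ ‖L.mul w (L.inv x) - w‖ + ‖w‖ := norm_add_le _ _
        _ ≤ L.r / 2 := by linarith
  rw [← h2, ← h1, integral_mul_right_eq_self]

end measures

end LocLie

end MP_e326dc_an
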