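import Mathlib

set_option autoImplicit false

/-!
MP_e326dc_an, part L (= E10), module L2: smooth dependence of integrals on parameters.
-/

namespace MP_e326dc_an

open Filter Topology Metric MeasureTheory
open scoped ContDiff Manifold Convolution

/-- Smooth dependence of an integral on a parameter. -/
theorem smooth_integral {P E : Type} [NormedAddCommGroup P] [NormedSpace ℝ P]
    [NormedAddCommGroup E] [NormedSpace ℝ E] [FiniteDimensional ℝ E] [MeasurableSpace E]
    [BorelSpace E] (m : Measure E) (f : E → ℝ) (hf : Integrable f m) (k : Set E)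
    (hk : IsCompact k) (s : Set P) (hs : IsOpen s) (g : P → E → ℝ)
    (hg0 : ∀ p ∈ s, ∀ x ∉ k, g p x = 0)
    (hg : ContDiffOn ℝ ∞ (fun q : P × E => g q.1 q.2) (s ×ˢ Set.univ)) :
    ContDiffOn ℝ ∞ (fun p => ∫ x, f x * g p x ∂m) s := by
  have hg' : ContDiffOn ℝ ∞ (fun q : P × E => g q.1 (-q.2)) (s ×ˢ Set.univ) := by
    refine hg.comp (f := fun q : P × E => (q.1, -q.2))
      (contDiff_fst.prodMk contDiff_snd.neg).contDiffOn ?_
    rintro ⟨p, x⟩ ⟨hp, _⟩
    exact ⟨hp, Set.mem_univ _⟩
  have h1 := contDiffOn_convolution_right_with_param_comp (𝕜 := ℝ) (μ := m) (n := ⊤)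
    (ContinuousLinearMap.mul ℝ ℝ) (s := s) (v := fun _ : P => (0 : E)) contDiffOn_const
    (f := f) (g := fun p x => g p (-x)) (k := -k) hs hk.neg (fun p x hp hx => by
      refine hg0 p hp (-x) fun h => hx ?_
      rwa [Set.mem_neg]) hf.locallyIntegrable hg'
  refine h1.congr fun p _ => ?_
  simp only [convolution_def, zero_sub, neg_neg, ContinuousLinearMap.mul_apply']

end MP_e326dc_an
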