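import Pool.Agent.Lib.MP_e326dc_an.L.Haar
import Pool.Agent.Lib.MP_e326dc_an.L.Integral

set_option autoImplicit false
set_option linter.unusedSectionVars false

/-!
MP_e326dc_an, part L (= E10): the averaging kernels in the chart.
-/

namespace MP_e326dc_an

open Filter Topology Metric MeasureTheory
open scoped ContDiff Manifold

theorem contDiffOn_cutoff {P E : Type} [NormedAddCommGroup P] [NormedSpace ℝ P]
    [NormedAddCommGroup E] [NormedSpace ℝ E] (s : Set P) (hs : IsOpen s) (g : P → E → ℝ)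
    (ρ R : ℝ) (hρ : ρ < R) (hg : ContDiffOn ℝ ∞ (fun q : P × E => g q.1 q.2) (s ×ˢ ball 0 R))
    (h0 : ∀ p ∈ s, ∀ w ∈ ball (0 : E) R, ρ < ‖w‖ → g p w = 0) :
    ContDiffOn ℝ ∞ (fun q : P × E => if ‖q.2‖ < R then g q.1 q.2 else 0) (s ×ˢ Set.univ) := by
  rintro ⟨p, w⟩ ⟨hp, -⟩
  refine ContDiffAt.contDiffWithinAt ?_
  by_cases hw : ‖w‖ < R
  · have h1 : ContDiffAt ℝ ∞ (fun q : P × E => g q.1 q.2) (p, w) :=
      hg.contDiffAt ((hs.prod isOpen_ball).mem_nhds ⟨hp, mem_ball_zero_iff.mpr hw⟩)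
    refine h1.congr_of_eventuallyEq ?_
    have h2 : {q : P × E | ‖q.2‖ < R} ∈ 𝓝 (p, w) :=
      (isOpen_lt (by fun_prop) (by fun_prop)).mem_nhds hw
    filter_upwards [h2] with q hq
    exact if_pos hq
  · have h2 : {q : P × E | ρ < ‖q.2‖} ∈ 𝓝 (p, w) :=
      (isOpen_lt (by fun_prop) (by fun_prop)).mem_nhds (lt_of_lt_of_le hρ (not_lt.mp hw))
    have h3 : {q : P × E | q.1 ∈ s} ∈ 𝓝 (p, w) :=
      (hs.preimage continuous_fst).mem_nhds hp
    refine (contDiffAt_const (c := (0 : ℝ))).congr_of_eventuallyEq ?_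
    filter_upwards [h2, h3] with q hq hq'
    by_cases hq2 : ‖q.2‖ < R
    · rw [if_pos hq2]
      exact h0 _ hq' _ (mem_ball_zero_iff.mpr hq2) hq
    · exact if_neg hq2

theorem continuous_mul_cutoff {E : Type} [NormedAddCommGroup E] (u ψ : E → ℝ) (ρ R : ℝ)
    (hρ : ρ < R) (hu : ContinuousOn u (ball 0 R)) (hψ : Continuous ψ)
    (hψ0 : ∀ y, ρ ≤ ‖y‖ → ψ y = 0) : Continuous fun y => u y * ψ y := by
  rw [continuous_iff_continuousAt]
  intro w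
  by_cases hw : ‖w‖ < R
  · exact (hu.continuousAt (isOpen_ball.mem_nhds (mem_ball_zero_iff.mpr hw))).mul hψ.continuousAt
  · have h2 : {q : E | ρ < ‖q‖} ∈ 𝓝 w :=
      (isOpen_lt (by fun_prop) (by fun_prop)).mem_nhds (lt_of_lt_of_le hρ (not_lt.mp hw))
    refine (continuousAt_const (y := (0 : ℝ))).congr ?_
    filter_upwards [h2] with q hq
    rw [hψ0 q (le_of_lt hq), mul_zero]

theorem integrable_of_ball {E : Type} [NormedAddCommGroup E] [NormedSpace ℝ E]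
    [FiniteDimensional ℝ E] [MeasurableSpace E] [BorelSpace E] (m : Measure E) [IsFiniteMeasure m]
    (f : E → ℝ) (hf : Continuous f) (R : ℝ) (h0 : ∀ y, R ≤ ‖y‖ → f y = 0) : Integrable f m := by
  refine hf.integrable_of_hasCompactSupport ?_
  refine HasCompactSupport.intro (isCompact_closedBall (0 : E) R) fun x hx => h0 x ?_
  rw [mem_closedBall_zero_iff, not_le] at hx
  exact hx.le

/-- The bump function. -/
theorem exists_bump {E : Type} [NormedAddCommGroup E] [NormedSpace ℝ E]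
    [FiniteDimensional ℝ E] [MeasurableSpace E] [BorelSpace E] (m : Measure E) [IsFiniteMeasure m]
    (hm : ∀ ε : ℝ, 0 < ε → 0 < m (ball (0 : E) ε)) (ρ : ℝ) (hρ : 0 < ρ) :
    ∃ ψ : E → ℝ, ContDiff ℝ ∞ ψ ∧ (∀ y, ρ ≤ ‖y‖ → ψ y = 0) ∧ ∫ y, ψ y ∂m = 1 := by
  let f : ContDiffBump (0 : E) := ⟨ρ / 2, ρ, half_pos hρ, half_lt_self hρ⟩
  have hf0 : ∀ y, ρ ≤ ‖y‖ → f y = 0 := fun y hy => f.zero_of_le_dist (by simpa using hy)
  have hint : Integrable (fun y => f y) m := integrable_of_ball m _ f.continuous ρ hf0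
  have hpos : 0 < ∫ y, f y ∂m := by
    rw [integral_pos_iff_support_of_nonneg (fun y => f.nonneg) hint]
    refine lt_of_lt_of_le (hm ρ hρ) (measure_mono ?_)
    intro y hy
    rw [Function.mem_support]
    exact (f.pos_of_mem_ball hy).ne'
  refine ⟨fun y => (∫ z, f z ∂m)⁻¹ * f y, contDiff_const.mul f.contDiff, fun y hy => ?_, ?_⟩
  · simp only [hf0 y hy, mul_zero]
  · rw [integral_const_mul, inv_mul_cancel₀ hpos.ne']

namespace LocLie

variable {G E : Type} [TopologicalSpace G] [Group G] [NormedAddCommGroup E] [NormedSpace ℝ E]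
  (L : LocLie G E) [FiniteDimensional ℝ E] [MeasurableSpace E] [BorelSpace E]

/-- The kernel for a left Haar measure. -/
theorem exists_left_kernel (m : Measure E)
    (hae : ∀ᵐ y ∂m, y ∈ closedBall (0 : E) (L.r / 2))
    (hinvar : ∀ R : ℝ, R < L.r / 2 → ∃ ρ : ℝ, 0 < ρ ∧ ρ ≤ L.r ∧ ∀ x ∈ ball (0 : E) ρ,
      ∀ K : E → ℝ, (∀ w, R ≤ ‖w‖ → K w = 0) → ∫ y, K (L.mul x y) ∂m = ∫ y, K y ∂m)
    (ρ1 R0 : ℝ) (h01 : ρ1 < R0) (hR0 : R0 < L.r / 2) :
    ∃ ρ : ℝ, 0 < ρ ∧ ρ ≤ L.r ∧ ∀ ψ : E → ℝ, ContDiff ℝ ∞ ψ → (∀ y, ρ1 ≤ ‖y‖ → ψ y = 0) →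
      ContDiffOn ℝ ∞ (fun q : E × E => if ‖q.2‖ < R0 then ψ (L.mul (L.inv q.1) q.2) else 0)
        (ball 0 ρ ×ˢ Set.univ) ∧
      ∀ x ∈ ball (0 : E) ρ, ∀ u : E → ℝ, ∫ y, u (L.mul x y) * ψ y ∂m =
        ∫ w, u w * (if ‖w‖ < R0 then ψ (L.mul (L.inv x) w) else 0) ∂m := by
  obtain ⟨ρ2, hρ2, hρ2r, h2⟩ := hinvar R0 hR0
  obtain ⟨ρ3, hρ3, -, hnear⟩ := L.exists_mul_near ((R0 - ρ1) / 2) (by linarith)
  obtain ⟨ρ4, hρ4, hρ4r, -, hinv⟩ := L.exists_small_inv (min ρ3 L.r) (lt_min hρ3 L.r_pos)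
  set ρ := min ρ2 (min ρ3 ρ4) with hρdef
  have hρ : 0 < ρ := lt_min hρ2 (lt_min hρ3 hρ4)
  have hsub2 : ball (0 : E) ρ ⊆ ball 0 ρ2 := ball_subset_ball (min_le_left _ _)
  have hsub3 : ball (0 : E) ρ ⊆ ball 0 ρ3 :=
    ball_subset_ball ((min_le_right _ _).trans (min_le_left _ _))
  have hsub4 : ball (0 : E) ρ ⊆ ball 0 ρ4 :=
    ball_subset_ball ((min_le_right _ _).trans (min_le_right _ _))
  have hsubr : ball (0 : E) ρ ⊆ ball 0 L.r := hsub2.trans (ball_subset_ball hρ2r)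
  have hinv3 : ∀ x ∈ ball (0 : E) ρ, L.inv x ∈ ball (0 : E) ρ3 := fun x hx =>
    ball_subset_ball (min_le_left _ _) (hinv x (hsub4 hx))
  have hinvr : ∀ x ∈ ball (0 : E) ρ, L.inv x ∈ ball (0 : E) L.r := fun x hx =>
    ball_subset_ball (min_le_right _ _) (hinv x (hsub4 hx))
  have hR0r : ball (0 : E) R0 ⊆ ball 0 L.r := ball_subset_ball (by linarith [L.r_pos])
  refine ⟨ρ, hρ, (min_le_left _ _).trans hρ2r, fun ψ hψ hψ0 => ⟨?_, ?_⟩⟩
  · refine contDiffOn_cutoff (ball 0 ρ) isOpen_ball (fun x w => ψ (L.mul (L.inv x) w))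
      ((ρ1 + R0) / 2) R0 (by linarith) ?_ ?_
    · refine hψ.comp_contDiffOn ?_
      refine L.contDiffOn_mul.comp (f := fun q : E × E => (L.inv q.1, q.2)) ?_ ?_
      · refine ContDiffOn.prodMk ?_ contDiffOn_snd
        exact L.contDiffOn_inv.comp contDiffOn_fst fun q hq => hsubr hq.1
      · rintro ⟨x, w⟩ ⟨hx, hw⟩
        exact ⟨hinvr x hx, hR0r hw⟩
    · intro x hx w hw hwn
      refine hψ0 _ ?_
      have h5 := (hnear _ (hinv3 x hx) w (by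
        rw [mem_closedBall_zero_iff]
        rw [mem_ball_zero_iff] at hw
        linarith)).1
      have h6 : ‖w‖ ≤ ‖L.mul (L.inv x) w - w‖ + ‖L.mul (L.inv x) w‖ := by
        calc ‖w‖ = ‖L.mul (L.inv x) w - (L.mul (L.inv x) w - w)‖ := by rw [sub_sub_cancel]
          _ ≤ ‖L.mul (L.inv x) w‖ + ‖L.mul (L.inv x) w - w‖ := norm_sub_le _ _
          _ = _ := add_comm _ _
      linarith
  · intro x hx u
    have h3 := h2 x (hsub2 hx)
      (fun w => u w * (if ‖w‖ < R0 then ψ (L.mul (L.inv x) w) else 0)) (fun w hw => by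
        simp only [not_lt.mpr hw, if_false, MulZeroClass.mul_zero])
    rw [← h3]
    refine integral_congr_ae ?_
    filter_upwards [hae] with y hy
    by_cases h4 : ‖L.mul x y‖ < R0
    · simp only [h4, if_true]
      rw [L.inv_mul_mul (hsubr hx) (L.half_sub hy)]
    · simp only [h4, if_false]
      rw [hψ0 y]
      by_contra h5
      apply h4
      have h6 := (hnear x (hsub3 hx) y hy).1
      calc ‖L.mul x y‖ = ‖(L.mul x y - y) + y‖ := by rw [sub_add_cancel]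
        _ ≤ ‖L.mul x y - y‖ + ‖y‖ := norm_add_le _ _
        _ < R0 := by linarith

/-- The kernel for a right Haar measure. -/
theorem exists_right_kernel (m : Measure E)
    (hae : ∀ᵐ y ∂m, y ∈ closedBall (0 : E) (L.r / 2))
    (hinvar : ∀ R : ℝ, R < L.r / 2 → ∃ ρ : ℝ, 0 < ρ ∧ ρ ≤ L.r ∧ ∀ x ∈ ball (0 : E) ρ,
      ∀ K : E → ℝ, (∀ w, R ≤ ‖w‖ → K w = 0) → ∫ y, K (L.mul y x) ∂m = ∫ y, K y ∂m)
    (ρ1 R0 : ℝ) (h01 : ρ1 < R0) (hR0 : R0 < L.r / 2) :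
    ∃ ρ : ℝ, 0 < ρ ∧ ρ ≤ L.r ∧ ∀ ψ : E → ℝ, ContDiff ℝ ∞ ψ → (∀ y, ρ1 ≤ ‖y‖ → ψ y = 0) →
      ContDiffOn ℝ ∞ (fun q : E × E => if ‖q.2‖ < R0 then ψ (L.mul q.2 (L.inv q.1)) else 0)
        (ball 0 ρ ×ˢ Set.univ) ∧
      ∀ x ∈ ball (0 : E) ρ, ∀ u : E → ℝ, ∫ y, u (L.mul y x) * ψ y ∂m =
        ∫ w, u w * (if ‖w‖ < R0 then ψ (L.mul w (L.inv x)) else 0) ∂m := by
  obtain ⟨ρ2, hρ2, hρ2r, h2⟩ := hinvar R0 hR0
  obtain ⟨ρ3, hρ3, -, hnear⟩ := L.exists_mul_near ((R0 - ρ1) / 2) (by linarith)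
  obtain ⟨ρ4, hρ4, hρ4r, -, hinv⟩ := L.exists_small_inv (min ρ3 L.r) (lt_min hρ3 L.r_pos)
  set ρ := min ρ2 (min ρ3 ρ4) with hρdef
  have hρ : 0 < ρ := lt_min hρ2 (lt_min hρ3 hρ4)
  have hsub2 : ball (0 : E) ρ ⊆ ball 0 ρ2 := ball_subset_ball (min_le_left _ _)
  have hsub3 : ball (0 : E) ρ ⊆ ball 0 ρ3 :=
    ball_subset_ball ((min_le_right _ _).trans (min_le_left _ _))
  have hsub4 : ball (0 : E) ρ ⊆ ball 0 ρ4 :=
    ball_subset_ball ((min_le_right _ _).trans (min_le_right _ _))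
  have hsubr : ball (0 : E) ρ ⊆ ball 0 L.r := hsub2.trans (ball_subset_ball hρ2r)
  have hinv3 : ∀ x ∈ ball (0 : E) ρ, L.inv x ∈ ball (0 : E) ρ3 := fun x hx =>
    ball_subset_ball (min_le_left _ _) (hinv x (hsub4 hx))
  have hinvr : ∀ x ∈ ball (0 : E) ρ, L.inv x ∈ ball (0 : E) L.r := fun x hx =>
    ball_subset_ball (min_le_right _ _) (hinv x (hsub4 hx))
  have hR0r : ball (0 : E) R0 ⊆ ball 0 L.r := ball_subset_ball (by linarith [L.r_pos])
  refine ⟨ρ, hρ, (min_le_left _ _).trans hρ2r, fun ψ hψ hψ0 => ⟨?_, ?_⟩⟩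
  · refine contDiffOn_cutoff (ball 0 ρ) isOpen_ball (fun x w => ψ (L.mul w (L.inv x)))
      ((ρ1 + R0) / 2) R0 (by linarith) ?_ ?_
    · refine hψ.comp_contDiffOn ?_
      refine L.contDiffOn_mul.comp (f := fun q : E × E => (q.2, L.inv q.1)) ?_ ?_
      · refine ContDiffOn.prodMk contDiffOn_snd ?_
        exact L.contDiffOn_inv.comp contDiffOn_fst fun q hq => hsubr hq.1
      · rintro ⟨x, w⟩ ⟨hx, hw⟩
        exact ⟨hR0r hw, hinvr x hx⟩
    · intro x hx w hw hwn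
      refine hψ0 _ ?_
      have h5 := (hnear _ (hinv3 x hx) w (by
        rw [mem_closedBall_zero_iff]
        rw [mem_ball_zero_iff] at hw
        linarith)).2
      have h6 : ‖w‖ ≤ ‖L.mul w (L.inv x) - w‖ + ‖L.mul w (L.inv x)‖ := by
        calc ‖w‖ = ‖L.mul w (L.inv x) - (L.mul w (L.inv x) - w)‖ := by rw [sub_sub_cancel]
          _ ≤ ‖L.mul w (L.inv x)‖ + ‖L.mul w (L.inv x) - w‖ := norm_sub_le _ _
          _ = _ := add_comm _ _
      linarith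
  · intro x hx u
    have h3 := h2 x (hsub2 hx)
      (fun w => u w * (if ‖w‖ < R0 then ψ (L.mul w (L.inv x)) else 0)) (fun w hw => by
        simp only [not_lt.mpr hw, if_false, MulZeroClass.mul_zero])
    rw [← h3]
    refine integral_congr_ae ?_
    filter_upwards [hae] with y hy
    by_cases h4 : ‖L.mul y x‖ < R0
    · simp only [h4, if_true]
      rw [L.mul_mul_inv (hsubr hx) (L.half_sub hy)]
    · simp only [h4, if_false]
      rw [hψ0 y]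
      by_contra h5
      apply h4
      have h6 := (hnear x (hsub3 hx) y hy).2
      calc ‖L.mul y x‖ = ‖(L.mul y x - y) + y‖ := by rw [sub_add_cancel]
        _ ≤ ‖L.mul y x - y‖ + ‖y‖ := norm_add_le _ _
        _ < R0 := by linarith

end LocLie

end MP_e326dc_an
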