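import Pool.Agent.Lib.MP_e326dc_an.L.Api

set_option autoImplicit false

/-!
MP_e326dc_an, part L1: a local smooth structure gives a Lie group.
-/

namespace MP_e326dc_an

open Filter Topology Metric
open scoped ContDiff Manifold

section LieOfLocal

variable {G E : Type} [TopologicalSpace G] [Group G] [NormedAddCommGroup E] [NormedSpace ℝ E]

/-- The restricted chart at the identity. -/
noncomputable def lol_phi (L : LocLie G E) (ρ : ℝ) : OpenPartialHomeomorph G E :=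
  (L.φ.symm.restrOpen (ball (0 : E) ρ) isOpen_ball).symm

theorem lol_phi_coe (L : LocLie G E) (ρ : ℝ) (g : G) : lol_phi L ρ g = L.φ g := rfl

theorem lol_phi_symm (L : LocLie G E) (ρ : ℝ) (x : E) : (lol_phi L ρ).symm x = L.φ.symm x := rfl

theorem lol_target (L : LocLie G E) {ρ : ℝ} (hρ : ρ ≤ L.r) :
    (lol_phi L ρ).target = ball (0 : E) ρ := by
  have h : (lol_phi L ρ).target = L.φ.target ∩ ball (0 : E) ρ := rfl
  rw [h, Set.inter_eq_right]
  exact (ball_subset_ball hρ).trans L.ball_sub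

theorem lol_mem_source (L : LocLie G E) (ρ : ℝ) (g : G) :
    g ∈ (lol_phi L ρ).source ↔ g ∈ L.φ.source ∧ L.φ g ∈ ball (0 : E) ρ := by
  constructor
  · intro h
    have h1 := (lol_phi L ρ).map_source h
    have h2 : L.φ g ∈ L.φ.target ∩ ball (0 : E) ρ := h1
    have h3 : L.φ.symm (L.φ g) = g := (lol_phi L ρ).left_inv h
    refine ⟨?_, h2.2⟩
    rw [← h3]
    exact L.φ.map_target h2.1
  · rintro ⟨h1, h2⟩
    have h3 : L.φ g ∈ (lol_phi L ρ).target := ⟨L.φ.map_source h1, h2⟩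
    have h4 := (lol_phi L ρ).map_target h3
    have h5 : (lol_phi L ρ).symm (L.φ g) = g := L.φ.left_inv h1
    rwa [h5] at h4

theorem lol_one_mem (L : LocLie G E) {ρ : ℝ} (hρ : 0 < ρ) : (1 : G) ∈ (lol_phi L ρ).source := by
  rw [lol_mem_source]
  refine ⟨L.one_mem, ?_⟩
  rw [L.φ_one]
  exact mem_ball_self hρ

variable [IsTopologicalGroup G]

/-- The chart at `g`. -/
noncomputable def lol_chart (L : LocLie G E) (ρ : ℝ) (g : G) : OpenPartialHomeomorph G E :=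
  (Homeomorph.mulLeft g⁻¹).toOpenPartialHomeomorph.trans (lol_phi L ρ)

theorem lol_chart_coe (L : LocLie G E) (ρ : ℝ) (g h : G) :
    lol_chart L ρ g h = L.φ (g⁻¹ * h) := rfl

theorem lol_chart_symm (L : LocLie G E) (ρ : ℝ) (g : G) (x : E) :
    (lol_chart L ρ g).symm x = g * L.φ.symm x := by
  have h : (lol_chart L ρ g).symm x = (g⁻¹)⁻¹ * L.φ.symm x := rfl
  rw [h, inv_inv]

theorem lol_chart_source (L : LocLie G E) (ρ : ℝ) (g h : G) :
    h ∈ (lol_chart L ρ g).source ↔ g⁻¹ * h ∈ (lol_phi L ρ).source := by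
  unfold lol_chart
  rw [OpenPartialHomeomorph.trans_source]
  simp

theorem lol_chart_target (L : LocLie G E) {ρ : ℝ} (hρ : ρ ≤ L.r) (g : G) :
    (lol_chart L ρ g).target = ball (0 : E) ρ := by
  unfold lol_chart
  rw [OpenPartialHomeomorph.trans_target]
  simp [lol_target L hρ]

/-- The charted space. -/
@[reducible] noncomputable def lol_space (L : LocLie G E) {ρ : ℝ} (hρ : 0 < ρ) :
    ChartedSpace E G where
  atlas := Set.range (lol_chart L ρ)
  chartAt := lol_chart L ρ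
  mem_chart_source g := by
    rw [lol_chart_source, inv_mul_cancel]
    exact lol_one_mem L hρ
  chart_mem_atlas g := ⟨g, rfl⟩

/-- the radius is small -/
structure lol_Good (L : LocLie G E) (ρ : ℝ) : Prop where
  pos : 0 < ρ
  le : ρ ≤ L.r
  inv_ball : ∀ x ∈ ball (0 : E) ρ, L.inv x ∈ ball (0 : E) L.r
  mul_ball : ∀ x ∈ ball (0 : E) ρ, ∀ y ∈ ball (0 : E) ρ, L.mul (L.inv x) y ∈ ball (0 : E) L.r

omit [IsTopologicalGroup G] in
theorem lol_exists_good (L : LocLie G E) : ∃ ρ, lol_Good L ρ := by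
  obtain ⟨ρ', h1, h2, -, h3⟩ := L.exists_small_mul L.r L.r_pos
  obtain ⟨ρ, h4, h5, h6, h7⟩ := L.exists_small_inv ρ' h1
  exact ⟨ρ, h4, h5, fun x hx => ball_subset_ball h2 (h7 x hx),
    fun x hx y hy => h3 _ (h7 x hx) _ (ball_subset_ball h6 hy)⟩

omit [IsTopologicalGroup G] in
theorem lol_transition (L : LocLie G E) {ρ : ℝ} (hρ : lol_Good L ρ) (g h : G) :
    ContDiffOn ℝ ∞ (fun x : E => L.φ (h⁻¹ * (g * L.φ.symm x)))
      {x | x ∈ ball (0 : E) ρ ∧ h⁻¹ * (g * L.φ.symm x) ∈ (lol_phi L ρ).source} := by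
  intro x0 hx0
  obtain ⟨hx0b, hx0s⟩ := hx0
  rw [lol_mem_source] at hx0s
  set y0 := L.φ (h⁻¹ * (g * L.φ.symm x0)) with hy0
  have hy0b : y0 ∈ ball (0 : E) L.r := ball_subset_ball hρ.le hx0s.2
  have hsub : ball (0 : E) ρ ⊆ ball (0 : E) L.r := ball_subset_ball hρ.le
  have hEq : ∀ x ∈ {x | x ∈ ball (0 : E) ρ ∧
      h⁻¹ * (g * L.φ.symm x) ∈ (lol_phi L ρ).source},
      L.φ (h⁻¹ * (g * L.φ.symm x)) = L.mul y0 (L.mul (L.inv x0) x) := by
    rintro x ⟨hx, -⟩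
    unfold LocLie.mul
    have h1 : L.φ.symm y0 = h⁻¹ * (g * L.φ.symm x0) := L.φ.left_inv hx0s.1
    have h2 : L.φ.symm (L.φ (L.φ.symm (L.inv x0) * L.φ.symm x)) =
        L.φ.symm (L.inv x0) * L.φ.symm x := L.symm_mul (hρ.inv_ball x0 hx0b) (hsub hx)
    rw [h1, h2, L.symm_inv (hsub hx0b)]
    congr 1
    group
  refine ContDiffWithinAt.congr (f := fun x => L.mul y0 (L.mul (L.inv x0) x)) ?_ hEq
    (hEq x0 ⟨hx0b, (lol_mem_source L ρ _).2 hx0s⟩)
  have hm : ∀ x ∈ ball (0 : E) ρ, ContDiffAt ℝ ∞ (fun x => L.mul (L.inv x0) x) x := by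
    intro x hx
    have h1 : ContDiffAt ℝ ∞ (fun p : E × E => L.mul p.1 p.2) (L.inv x0, x) :=
      L.contDiffOn_mul.contDiffAt ((isOpen_ball.prod isOpen_ball).mem_nhds
        ⟨hρ.inv_ball x0 hx0b, hsub hx⟩)
    exact h1.comp x (contDiffAt_const.prodMk contDiffAt_id)
  have h2 : ContDiffAt ℝ ∞ (fun p : E × E => L.mul p.1 p.2) (y0, L.mul (L.inv x0) x0) :=
    L.contDiffOn_mul.contDiffAt ((isOpen_ball.prod isOpen_ball).mem_nhds
      ⟨hy0b, hρ.mul_ball x0 hx0b x0 hx0b⟩)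
  have h3 : ContDiffAt ℝ ∞ (fun x => L.mul y0 (L.mul (L.inv x0) x)) x0 :=
    ContDiffAt.comp x0 (g := fun p : E × E => L.mul p.1 p.2)
      (f := fun x => (y0, L.mul (L.inv x0) x)) h2 (contDiffAt_const.prodMk (hm x0 hx0b))
  exact h3.contDiffWithinAt

theorem lol_isManifold (L : LocLie G E) {ρ : ℝ} (hρ : lol_Good L ρ) :
    @IsManifold ℝ _ E _ _ E _ 𝓘(ℝ, E) ∞ G _ (lol_space L hρ.pos) := by
  letI := lol_space L hρ.pos
  refine isManifold_of_contDiffOn 𝓘(ℝ, E) ∞ G ?_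
  rintro e e' ⟨g, rfl⟩ ⟨h, rfl⟩
  have h1 := lol_transition L hρ g h
  refine h1.congr_mono ?_ ?_
  · intro x _
    simp only [Function.comp_apply, modelWithCornersSelf_coe, modelWithCornersSelf_coe_symm, id]
    rw [OpenPartialHomeomorph.coe_trans, Function.comp_apply, lol_chart_symm, lol_chart_coe]
  · rintro x ⟨hx, -⟩
    simp only [Set.mem_preimage, modelWithCornersSelf_coe_symm, id] at hx
    rw [OpenPartialHomeomorph.trans_source, OpenPartialHomeomorph.symm_source] at hx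
    obtain ⟨hx1, hx2⟩ := hx
    rw [lol_chart_target L hρ.le] at hx1
    rw [Set.mem_preimage, lol_chart_source, lol_chart_symm] at hx2
    exact ⟨hx1, hx2⟩

omit [IsTopologicalGroup G] in
/-- The conjugation in the chart. -/
theorem lol_conj (L : LocLie G E) (g : G) :
    ContDiffAt ℝ ∞ (fun x : E => L.φ (g * L.φ.symm x * g⁻¹)) 0 ∧
      L.φ (g * L.φ.symm 0 * g⁻¹) = 0 ∧
      ∀ᶠ x in 𝓝 (0 : E), L.φ.symm (L.φ (g * L.φ.symm x * g⁻¹)) = g * L.φ.symm x * g⁻¹ := by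
  obtain ⟨s, hs, -, h1, h2⟩ := L.conj_smooth g
  refine ⟨h2.contDiffAt (ball_mem_nhds _ hs), ?_, ?_⟩
  · rw [L.symm_zero, mul_one, mul_inv_cancel, L.φ_one]
  · filter_upwards [ball_mem_nhds (0 : E) hs] with x hx
    exact L.φ.left_inv (h1 x hx)

theorem lol_mul (L : LocLie G E) {ρ : ℝ} (hρ : lol_Good L ρ) :
    letI := lol_space L hρ.pos
    ContMDiff (𝓘(ℝ, E).prod 𝓘(ℝ, E)) 𝓘(ℝ, E) ∞ (fun p : G × G => p.1 * p.2) := by
  letI := lol_space L hρ.pos
  intro p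
  obtain ⟨g, h⟩ := p
  rw [contMDiffAt_iff]
  refine ⟨continuous_mul.continuousAt, ?_⟩
  obtain ⟨hc1, hc2, hc3⟩ := lol_conj L h⁻¹
  have hpt : extChartAt (𝓘(ℝ, E).prod 𝓘(ℝ, E)) (g, h) (g, h) = ((0 : E), (0 : E)) := by
    rw [extChartAt_prod]
    simp only [PartialEquiv.prod_coe]
    have h1 : ∀ a : G, extChartAt 𝓘(ℝ, E) a a = (0 : E) := by
      intro a
      have h2 : extChartAt 𝓘(ℝ, E) a a = L.φ (a⁻¹ * a) := by
        simp only [extChartAt, OpenPartialHomeomorph.extend, PartialEquiv.coe_trans,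
          Function.comp_apply, modelWithCornersSelf_partialEquiv, PartialEquiv.refl_coe, id]
        rfl
      rw [h2, inv_mul_cancel, L.φ_one]
    rw [h1, h1]
  rw [hpt]
  have hf : (extChartAt 𝓘(ℝ, E) (g * h) ∘ (fun p : G × G => p.1 * p.2) ∘
      (extChartAt (𝓘(ℝ, E).prod 𝓘(ℝ, E)) (g, h)).symm) =
      fun p : E × E => L.φ ((g * h)⁻¹ * ((g * L.φ.symm p.1) * (h * L.φ.symm p.2))) := by
    funext p
    rw [extChartAt_prod]
    simp only [Function.comp_apply, extChartAt, OpenPartialHomeomorph.extend,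
      PartialEquiv.coe_trans, modelWithCornersSelf_partialEquiv, PartialEquiv.refl_coe, id,
      PartialEquiv.prod_symm, PartialEquiv.prod_coe, PartialEquiv.coe_trans_symm,
      PartialEquiv.refl_symm]
    have h3 : ∀ (a : G) (x : E), (chartAt E a).toPartialEquiv.symm x = a * L.φ.symm x :=
      fun a x => lol_chart_symm L ρ a x
    rw [h3, h3]
    rfl
  rw [hf]
  refine ContDiffAt.contDiffWithinAt ?_
  have hmul : ContDiffAt ℝ ∞ (fun p : E × E => L.mul p.1 p.2) ((0 : E), (0 : E)) :=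
    L.contDiffOn_mul.contDiffAt ((isOpen_ball.prod isOpen_ball).mem_nhds
      ⟨L.zero_mem, L.zero_mem⟩)
  have hcomp : ContDiffAt ℝ ∞ (fun p : E × E => L.mul (L.φ (h⁻¹ * L.φ.symm p.1 * h⁻¹⁻¹)) p.2)
      ((0 : E), (0 : E)) := by
    refine ContDiffAt.comp ((0 : E), (0 : E)) (g := fun p : E × E => L.mul p.1 p.2)
      (f := fun p : E × E => (L.φ (h⁻¹ * L.φ.symm p.1 * h⁻¹⁻¹), p.2)) ?_ ?_
    · simp only [hc2]
      exact hmul
    · refine ContDiffAt.prodMk ?_ contDiffAt_snd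
      exact ContDiffAt.comp ((0 : E), (0 : E)) (g := fun x : E => L.φ (h⁻¹ * L.φ.symm x * h⁻¹⁻¹))
        (f := fun p : E × E => p.1) hc1 contDiffAt_fst
  refine hcomp.congr_of_eventuallyEq ?_
  have ht : Tendsto (fun p : E × E => p.1) (𝓝 ((0 : E), (0 : E))) (𝓝 (0 : E)) :=
    continuous_fst.continuousAt
  have hev : ∀ᶠ p : E × E in 𝓝 ((0 : E), (0 : E)),
      L.φ.symm (L.φ (h⁻¹ * L.φ.symm p.1 * h⁻¹⁻¹)) = h⁻¹ * L.φ.symm p.1 * h⁻¹⁻¹ :=
    ht.eventually hc3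
  filter_upwards [hev] with p hp
  unfold LocLie.mul
  rw [hp]
  congr 1
  group

theorem lol_inv (L : LocLie G E) {ρ : ℝ} (hρ : lol_Good L ρ) :
    letI := lol_space L hρ.pos
    ContMDiff 𝓘(ℝ, E) 𝓘(ℝ, E) ∞ (fun a : G => a⁻¹) := by
  letI := lol_space L hρ.pos
  intro g
  rw [contMDiffAt_iff]
  refine ⟨continuous_inv.continuousAt, ?_⟩
  obtain ⟨hc1, -, -⟩ := lol_conj L g
  have hpt : extChartAt 𝓘(ℝ, E) g g = (0 : E) := by
    have h2 : extChartAt 𝓘(ℝ, E) g g = L.φ (g⁻¹ * g) := by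
      simp only [extChartAt, OpenPartialHomeomorph.extend, PartialEquiv.coe_trans,
        Function.comp_apply, modelWithCornersSelf_partialEquiv, PartialEquiv.refl_coe, id]
      rfl
    rw [h2, inv_mul_cancel, L.φ_one]
  rw [hpt]
  have hf : (extChartAt 𝓘(ℝ, E) g⁻¹ ∘ (fun a : G => a⁻¹) ∘ (extChartAt 𝓘(ℝ, E) g).symm) =
      fun x : E => L.φ (g⁻¹⁻¹ * (g * L.φ.symm x)⁻¹) := by
    funext x
    simp only [Function.comp_apply, extChartAt, OpenPartialHomeomorph.extend,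
      PartialEquiv.coe_trans, modelWithCornersSelf_partialEquiv, PartialEquiv.refl_coe, id,
      PartialEquiv.coe_trans_symm, PartialEquiv.refl_symm]
    have h3 : ∀ (a : G) (x : E), (chartAt E a).toPartialEquiv.symm x = a * L.φ.symm x :=
      fun a x => lol_chart_symm L ρ a x
    rw [h3]
    rfl
  rw [hf]
  refine ContDiffAt.contDiffWithinAt ?_
  have hinv : ContDiffAt ℝ ∞ L.inv (0 : E) :=
    L.contDiffOn_inv.contDiffAt (isOpen_ball.mem_nhds L.zero_mem)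
  have hcomp : ContDiffAt ℝ ∞ (fun x : E => L.φ (g * L.φ.symm (L.inv x) * g⁻¹)) (0 : E) := by
    refine ContDiffAt.comp (0 : E) (g := fun x : E => L.φ (g * L.φ.symm x * g⁻¹))
      (f := L.inv) ?_ hinv
    rw [L.inv_zero]
    exact hc1
  refine hcomp.congr_of_eventuallyEq ?_
  filter_upwards [ball_mem_nhds (0 : E) L.r_pos] with x hx
  rw [L.symm_inv hx]
  congr 1
  group

end LieOfLocal

theorem lie_of_local {G E : Type} [TopologicalSpace G] [Group G] [IsTopologicalGroup G]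
    [NormedAddCommGroup E] [NormedSpace ℝ E] (L : LocLie G E) :
    ∃ _ : ChartedSpace E G, LieGroup 𝓘(ℝ, E) ∞ G := by
  obtain ⟨ρ, hρ⟩ := lol_exists_good L
  letI := lol_space L hρ.pos
  haveI := lol_isManifold L hρ
  refine ⟨lol_space L hρ.pos, ?_⟩
  exact { contMDiff_mul := lol_mul L hρ
          contMDiff_inv := lol_inv L hρ }

end MP_e326dc_an
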