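import Pool.Agent.Lib.MP_e326dc_an.L.Coboundary

set_option autoImplicit false
set_option linter.unusedSectionVars false

/-!
MP_e326dc_an, part L (= E10): the local smooth structure of a central extension by a one-parameter
group with a smooth cocycle.
-/

namespace MP_e326dc_an

open Filter Topology Metric MeasureTheory
open scoped ContDiff Manifold

theorem locLie_of_local {G E : Type} [TopologicalSpace G] [Group G] [NormedAddCommGroup E]
    [NormedSpace ℝ E] (φ : OpenPartialHomeomorph G E) (h1 : (1 : G) ∈ φ.source) (h0 : φ 1 = 0)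
    (hmul : ∃ ρ : ℝ, 0 < ρ ∧
      (∀ x ∈ ball (0 : E) ρ, ∀ y ∈ ball (0 : E) ρ, φ.symm x * φ.symm y ∈ φ.source) ∧
      ContDiffOn ℝ ∞ (fun p : E × E => φ (φ.symm p.1 * φ.symm p.2)) (ball 0 ρ ×ˢ ball 0 ρ))
    (hinv : ∃ ρ : ℝ, 0 < ρ ∧ (∀ x ∈ ball (0 : E) ρ, (φ.symm x)⁻¹ ∈ φ.source) ∧
      ContDiffOn ℝ ∞ (fun x : E => φ (φ.symm x)⁻¹) (ball 0 ρ))
    (hconj : ∀ g : G, ∃ ρ : ℝ, 0 < ρ ∧ (∀ x ∈ ball (0 : E) ρ, g * φ.symm x * g⁻¹ ∈ φ.source) ∧
      ContDiffOn ℝ ∞ (fun x : E => φ (g * φ.symm x * g⁻¹)) (ball 0 ρ)) :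
    Nonempty (LocLie G E) := by
  obtain ⟨ρ1, hρ1, hm1, hm2⟩ := hmul
  obtain ⟨ρ2, hρ2, hi1, hi2⟩ := hinv
  have ht : φ.target ∈ 𝓝 (0 : E) := by
    rw [← h0]
    exact φ.open_target.mem_nhds (φ.map_source h1)
  obtain ⟨ρ3, hρ3, ht3⟩ := Metric.mem_nhds_iff.mp ht
  set ρ := min ρ1 (min ρ2 ρ3) with hρ
  have hρpos : 0 < ρ := lt_min hρ1 (lt_min hρ2 hρ3)
  have hs1 : ball (0 : E) ρ ⊆ ball 0 ρ1 := ball_subset_ball (min_le_left _ _)
  have hs2 : ball (0 : E) ρ ⊆ ball 0 ρ2 :=
    ball_subset_ball ((min_le_right _ _).trans (min_le_left _ _))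
  have hs3 : ball (0 : E) ρ ⊆ ball 0 ρ3 :=
    ball_subset_ball ((min_le_right _ _).trans (min_le_right _ _))
  exact ⟨{
    φ := φ
    one_mem := h1
    φ_one := h0
    r := ρ
    r_pos := hρpos
    ball_sub := hs3.trans ht3
    mul_mem := fun x hx y hy => hm1 x (hs1 hx) y (hs1 hy)
    inv_mem := fun x hx => hi1 x (hs2 hx)
    mul_smooth := hm2.mono (Set.prod_mono hs1 hs1)
    inv_smooth := hi2.mono hs2
    conj_smooth := fun g => by
      obtain ⟨σ, hσ, hc1, hc2⟩ := hconj g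
      have hss : ball (0 : E) (min σ ρ) ⊆ ball 0 σ := ball_subset_ball (min_le_left _ _)
      exact ⟨min σ ρ, lt_min hσ hρpos, min_le_right _ _, fun x hx => hc1 x (hss hx),
        hc2.mono hss⟩ }⟩

section

variable {G H E : Type} [TopologicalSpace G] [Group G] [IsTopologicalGroup G] [T2Space G]
  [TopologicalSpace H] [Group H] [IsTopologicalGroup H] [T2Space H]
  [NormedAddCommGroup E] [NormedSpace ℝ E] [FiniteDimensional ℝ E]

theorem locLie_of_section (L : LocLie H E) (q : G →* H) (e : ℝ → G)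
    (he_add : ∀ t t', e (t + t') = e t * e t')
    (he_central : ∀ t g, e t * g = g * e t) (δ : ℝ) (hδ : 0 < δ)
    (he_inj : Set.InjOn e (Set.Icc (-δ) δ)) (s : H → G) (W : Set H)
    (hW : W ∈ 𝓝 (1 : H)) (hs : ContinuousOn s W) (hs1 : s 1 = 1) (hqs : ∀ y ∈ W, q (s y) = y)
    (C : H → H → ℝ) (r : ℝ) (hr : 0 < r) (hrL : r ≤ L.r)
    (hC : ∀ x ∈ ball (0 : E) r, ∀ y ∈ ball (0 : E) r,
      s (L.φ.symm x) * s (L.φ.symm y) =
        e (C (L.φ.symm x) (L.φ.symm y)) * s (L.φ.symm x * L.φ.symm y))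
    (hCs : ContDiffOn ℝ ∞ (fun p : E × E => C (L.φ.symm p.1) (L.φ.symm p.2))
      (ball 0 r ×ˢ ball 0 r))
    (hC0 : C 1 1 = 0)
    (Ψ : OpenPartialHomeomorph G (ℝ × H)) (hΨ1 : (1 : G) ∈ Ψ.source) (hΨ0 : Ψ 1 = (0, 1))
    (hΨq : ∀ g ∈ Ψ.source, (Ψ g).2 = q g)
    (hΨ : ∀ p ∈ Ψ.target, |p.1| < δ ∧ p.2 ∈ W ∧ Ψ.symm p = e p.1 * s p.2) :
    Nonempty (LocLie G (ℝ × E)) := by
  classical
  have he0 : e 0 = 1 := by
    have h := he_add 0 0
    rw [add_zero] at h
    exact (mul_left_cancel (a := e 0) (b := 1) (c := e 0) (by rw [mul_one]; exact h)).symm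
  have heneg : ∀ t, (e t)⁻¹ = e (-t) := by
    intro t
    rw [inv_eq_iff_mul_eq_one, ← he_add, add_neg_cancel, he0]
  set φ' : OpenPartialHomeomorph G (ℝ × E) :=
    Ψ.trans ((OpenPartialHomeomorph.refl ℝ).prod L.φ) with hφ'
  -- the set on which everything is defined
  set T : Set (ℝ × H) := {p | p ∈ Ψ.target ∧ p.2 ∈ L.φ.source} with hT
  have hT1 : ((0 : ℝ), (1 : H)) ∈ Ψ.target := by
    rw [← hΨ0]
    exact Ψ.map_source hΨ1
  have hTopen : IsOpen T := Ψ.open_target.inter (L.φ.open_source.preimage continuous_snd)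
  have hTmem : ((0 : ℝ), (1 : H)) ∈ T := ⟨hT1, L.one_mem⟩
  have hkey : ∀ (t : ℝ) (h : H) (g : G), (t, h) ∈ T → g = e t * s h →
      g ∈ φ'.source ∧ φ' g = (t, L.φ h) := by
    intro t h g hp hg
    have h1 := (hΨ _ hp.1).2.2
    have h2 : g = Ψ.symm (t, h) := by rw [h1, hg]
    have h3 : Ψ g = (t, h) := by rw [h2]; exact Ψ.right_inv hp.1
    have h4 : g ∈ Ψ.source := by rw [h2]; exact Ψ.map_target hp.1
    constructor
    · rw [hφ', OpenPartialHomeomorph.trans_source]
      refine ⟨h4, ?_⟩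
      rw [Set.mem_preimage, h3]
      exact ⟨Set.mem_univ _, hp.2⟩
    · rw [hφ', OpenPartialHomeomorph.trans_apply, h3]
      rfl
  have hsymm : ∀ x : ℝ × E, x.2 ∈ ball (0 : E) r → (x.1, L.φ.symm x.2) ∈ T →
      φ'.symm x = e x.1 * s (L.φ.symm x.2) := by
    intro x _ hx
    have h1 := (hΨ _ hx.1).2.2
    rw [← h1]
    rfl
  -- continuity of the basic maps
  have hsub : ball (0 : E) r ⊆ ball 0 L.r := ball_subset_ball hrL
  have h0r : (0 : E) ∈ ball (0 : E) r := mem_ball_self hr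
  have hφs : ContinuousAt (fun x : ℝ × E => L.φ.symm x.2) (0, 0) :=
    ContinuousAt.comp (f := fun x : ℝ × E => x.2) (g := L.φ.symm) L.continuousAt_symm
      continuousAt_snd
  have hballT : ∀ᶠ x : ℝ × E in 𝓝 (0, 0), x.2 ∈ ball (0 : E) r ∧ (x.1, L.φ.symm x.2) ∈ T := by
    refine Filter.Eventually.and ?_ ?_
    · exact continuousAt_snd (isOpen_ball.mem_nhds h0r)
    · have h1 : ContinuousAt (fun x : ℝ × E => (x.1, L.φ.symm x.2)) (0, 0) :=
        continuousAt_fst.prodMk hφs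
      refine h1 (hTopen.mem_nhds ?_)
      simpa only [L.symm_zero] using hTmem
  have hCcont : ContinuousAt (fun p : E × E => C (L.φ.symm p.1) (L.φ.symm p.2)) (0, 0) :=
    hCs.continuousOn.continuousAt ((isOpen_ball.prod isOpen_ball).mem_nhds ⟨h0r, h0r⟩)
  refine locLie_of_local φ' ?_ ?_ ?_ ?_ ?_
  · exact (hkey 0 1 1 hTmem (by rw [he0, hs1, mul_one])).1
  · rw [(hkey 0 1 1 hTmem (by rw [he0, hs1, mul_one])).2, L.φ_one]
    rfl
  · -- multiplication
    have hFc : ContinuousAt (fun p : (ℝ × E) × (ℝ × E) =>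
        (p.1.1 + p.2.1 + C (L.φ.symm p.1.2) (L.φ.symm p.2.2),
          L.φ.symm p.1.2 * L.φ.symm p.2.2)) ((0, 0), (0, 0)) := by
      refine ContinuousAt.prodMk (ContinuousAt.add (by fun_prop) ?_) (ContinuousAt.mul ?_ ?_)
      · exact ContinuousAt.comp (f := fun p : (ℝ × E) × (ℝ × E) => (p.1.2, p.2.2))
          (g := fun p : E × E => C (L.φ.symm p.1) (L.φ.symm p.2)) hCcont (by fun_prop)
      · exact ContinuousAt.comp (f := fun p : (ℝ × E) × (ℝ × E) => p.1.2) (g := L.φ.symm)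
          L.continuousAt_symm (by fun_prop)
      · exact ContinuousAt.comp (f := fun p : (ℝ × E) × (ℝ × E) => p.2.2) (g := L.φ.symm)
          L.continuousAt_symm (by fun_prop)
    have h1 : ∀ᶠ p : (ℝ × E) × (ℝ × E) in 𝓝 ((0, 0), (0, 0)),
        (p.1.2 ∈ ball (0 : E) r ∧ (p.1.1, L.φ.symm p.1.2) ∈ T) ∧
        (p.2.2 ∈ ball (0 : E) r ∧ (p.2.1, L.φ.symm p.2.2) ∈ T) ∧
        (p.1.1 + p.2.1 + C (L.φ.symm p.1.2) (L.φ.symm p.2.2),
          L.φ.symm p.1.2 * L.φ.symm p.2.2) ∈ T := by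
      refine (continuousAt_fst.eventually hballT).and
        ((continuousAt_snd.eventually hballT).and (hFc (hTopen.mem_nhds ?_)))
      simpa only [L.symm_zero, hC0, add_zero, mul_one] using hTmem
    obtain ⟨ρ, hρ, h2⟩ := Metric.eventually_nhds_iff_ball.mp h1
    have h3 : ∀ x ∈ ball (0 : ℝ × E) ρ, ∀ y ∈ ball (0 : ℝ × E) ρ,
        (x.2 ∈ ball (0 : E) r ∧ (x.1, L.φ.symm x.2) ∈ T) ∧
        (y.2 ∈ ball (0 : E) r ∧ (y.1, L.φ.symm y.2) ∈ T) ∧
        (x.1 + y.1 + C (L.φ.symm x.2) (L.φ.symm y.2), L.φ.symm x.2 * L.φ.symm y.2) ∈ T := by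
      intro x hx y hy
      refine h2 (x, y) ?_
      rw [← ball_prod_same]
      exact ⟨hx, hy⟩
    have h4 : ∀ x ∈ ball (0 : ℝ × E) ρ, ∀ y ∈ ball (0 : ℝ × E) ρ,
        φ'.symm x * φ'.symm y ∈ φ'.source ∧ φ' (φ'.symm x * φ'.symm y) =
          (x.1 + y.1 + C (L.φ.symm x.2) (L.φ.symm y.2), L.mul x.2 y.2) := by
      intro x hx y hy
      obtain ⟨⟨hx1, hx2⟩, ⟨hy1, hy2⟩, hxy⟩ := h3 x hx y hy
      have h5 := hkey _ _ (φ'.symm x * φ'.symm y) hxy (by
        rw [hsymm x hx1 hx2, hsymm y hy1 hy2, he_add, he_add]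
        have h6 := hC _ hx1 _ hy1
        calc e x.1 * s (L.φ.symm x.2) * (e y.1 * s (L.φ.symm y.2))
            = e x.1 * (s (L.φ.symm x.2) * e y.1) * s (L.φ.symm y.2) := by group
          _ = e x.1 * (e y.1 * s (L.φ.symm x.2)) * s (L.φ.symm y.2) := by
            rw [he_central y.1 (s (L.φ.symm x.2))]
          _ = e x.1 * e y.1 * (s (L.φ.symm x.2) * s (L.φ.symm y.2)) := by group
          _ = e x.1 * e y.1 * e (C (L.φ.symm x.2) (L.φ.symm y.2)) *
              s (L.φ.symm x.2 * L.φ.symm y.2) := by rw [h6]; group)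
      exact h5
    refine ⟨ρ, hρ, fun x hx y hy => (h4 x hx y hy).1, ?_⟩
    refine ContDiffOn.congr (f := fun p : (ℝ × E) × (ℝ × E) =>
      (p.1.1 + p.2.1 + C (L.φ.symm p.1.2) (L.φ.symm p.2.2), L.mul p.1.2 p.2.2)) ?_
      (fun p hp => (h4 p.1 hp.1 p.2 hp.2).2)
    refine ContDiffOn.prodMk (ContDiffOn.add (by fun_prop) ?_) ?_
    · refine hCs.comp (f := fun p : (ℝ × E) × (ℝ × E) => (p.1.2, p.2.2)) (by fun_prop) ?_
      intro p hp
      exact ⟨(h3 p.1 hp.1 p.2 hp.2).1.1, (h3 p.1 hp.1 p.2 hp.2).2.1.1⟩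
    · refine L.contDiffOn_mul.comp (f := fun p : (ℝ × E) × (ℝ × E) => (p.1.2, p.2.2))
        (by fun_prop) ?_
      intro p hp
      exact ⟨hsub (h3 p.1 hp.1 p.2 hp.2).1.1, hsub (h3 p.1 hp.1 p.2 hp.2).2.1.1⟩
  · -- inversion
    obtain ⟨ρi, hρi, hρiL, -, hρinv⟩ := L.exists_small_inv r hr
    have hinvc : ContinuousAt (fun x : ℝ × E => L.inv x.2) (0, 0) :=
      ContinuousAt.comp (f := fun x : ℝ × E => x.2) (g := L.inv)
        (L.contDiffOn_inv.continuousOn.continuousAt (isOpen_ball.mem_nhds L.zero_mem))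
        continuousAt_snd
    have hFc : ContinuousAt (fun x : ℝ × E =>
        (-x.1 - C (L.φ.symm x.2) (L.φ.symm (L.inv x.2)), (L.φ.symm x.2)⁻¹)) (0, 0) := by
      refine ContinuousAt.prodMk (ContinuousAt.sub (by fun_prop) ?_) hφs.inv
      refine ContinuousAt.comp (f := fun x : ℝ × E => (x.2, L.inv x.2))
          (g := fun p : E × E => C (L.φ.symm p.1) (L.φ.symm p.2)) ?_
          (continuousAt_snd.prodMk hinvc)
      simpa only [L.inv_zero] using hCcont
    have h1 : ∀ᶠ x : ℝ × E in 𝓝 (0, 0),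
        ((x.2 ∈ ball (0 : E) r ∧ (x.1, L.φ.symm x.2) ∈ T) ∧ x.2 ∈ ball (0 : E) ρi) ∧
        (-x.1 - C (L.φ.symm x.2) (L.φ.symm (L.inv x.2)), (L.φ.symm x.2)⁻¹) ∈ T := by
      refine (hballT.and ?_).and (hFc (hTopen.mem_nhds ?_))
      · exact continuousAt_snd (isOpen_ball.mem_nhds (mem_ball_self hρi))
      · simpa only [L.symm_zero, L.inv_zero, hC0, sub_zero, neg_zero, inv_one] using hTmem
    obtain ⟨ρ, hρ, h2⟩ := Metric.eventually_nhds_iff_ball.mp h1
    have h4 : ∀ x ∈ ball (0 : ℝ × E) ρ, (φ'.symm x)⁻¹ ∈ φ'.source ∧ φ' (φ'.symm x)⁻¹ =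
          (-x.1 - C (L.φ.symm x.2) (L.φ.symm (L.inv x.2)), L.inv x.2) := by
      intro x hx
      obtain ⟨⟨⟨hx1, hx2⟩, hxi⟩, hxF⟩ := h2 x hx
      have hxL := hsub hx1
      have h5 := hkey _ _ (φ'.symm x)⁻¹ hxF (by
        rw [hsymm x hx1 hx2]
        have h6 := hC _ hx1 _ (hρinv x.2 hxi)
        rw [L.symm_inv hxL, mul_inv_cancel, hs1, mul_one] at h6
        rw [L.symm_inv hxL]
        set y := L.φ.symm x.2 with hy
        have h7 : (s y)⁻¹ = e (-C y y⁻¹) * s y⁻¹ := by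
          rw [inv_eq_iff_mul_eq_one, ← mul_assoc, ← he_central, mul_assoc, h6, ← he_add,
            neg_add_cancel, he0]
        rw [mul_inv_rev, h7, heneg, sub_eq_add_neg, he_add, mul_assoc,
          ← he_central (-x.1) (s y⁻¹), ← mul_assoc, he_central (-C y y⁻¹) (e (-x.1))])
      exact h5
    refine ⟨ρ, hρ, fun x hx => (h4 x hx).1, ?_⟩
    refine ContDiffOn.congr (f := fun x : ℝ × E =>
      (-x.1 - C (L.φ.symm x.2) (L.φ.symm (L.inv x.2)), L.inv x.2)) ?_ (fun x hx => (h4 x hx).2)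
    have hinvs : ContDiffOn ℝ ∞ (fun x : ℝ × E => L.inv x.2) (ball 0 ρ) :=
      L.contDiffOn_inv.comp (f := fun x : ℝ × E => x.2) (by fun_prop) fun x hx =>
        hsub (h2 x hx).1.1.1
    refine ContDiffOn.prodMk (ContDiffOn.sub (by fun_prop) ?_) hinvs
    refine hCs.comp (f := fun x : ℝ × E => (x.2, L.inv x.2))
      (ContDiffOn.prodMk (by fun_prop) hinvs) ?_
    intro x hx
    exact ⟨(h2 x hx).1.1.1, hρinv x.2 (h2 x hx).1.2⟩
  · -- conjugation
    intro g
    obtain ⟨σ, hσ, hσL, hκ1, hκ2⟩ := L.conj_smooth (q g)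
    set κ : H → H := fun y => q g * y * (q g)⁻¹ with hκ
    set a : H → ℝ := fun y => (Ψ (g * s y * g⁻¹)).1 with ha
    have hκc : Continuous κ := by fun_prop
    have hκ1' : κ 1 = 1 := by simp [hκ]
    -- a set on which the conjugation is controlled
    obtain ⟨W', hW'W, hW'o, hW'1⟩ := mem_nhds_iff.mp hW
    have hgs : ContinuousOn (fun y => g * s y * g⁻¹) W' :=
      (continuousOn_const.mul (hs.mono hW'W)).mul continuousOn_const
    set V := W' ∩ (fun y => g * s y * g⁻¹) ⁻¹' Ψ.source with hVdef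
    have hVo : IsOpen V := hgs.isOpen_inter_preimage hW'o Ψ.open_source
    have hV1 : (1 : H) ∈ V := by
      refine ⟨hW'1, ?_⟩
      simp only [Set.mem_preimage, hs1, mul_one, mul_inv_cancel]
      exact hΨ1
    have hVn : V ∈ 𝓝 (1 : H) := hVo.mem_nhds hV1
    have hac : ContinuousOn a V := by
      refine continuous_fst.comp_continuousOn (Ψ.continuousOn.comp (hgs.mono Set.inter_subset_left)
        fun y hy => hy.2)
    have ha1 : a 1 = 0 := by
      simp only [ha, hs1, mul_one, mul_inv_cancel, hΨ0]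
    have hVspec : ∀ y ∈ V, g * s y * g⁻¹ = e (a y) * s (κ y) ∧ |a y| < δ := by
      intro y hy
      have h1 : Ψ (g * s y * g⁻¹) = (a y, κ y) := by
        refine Prod.ext rfl ?_
        rw [hΨq _ hy.2, map_mul, map_mul, map_inv, hqs y (hW'W hy.1)]
      have h2 := hΨ _ (Ψ.map_source hy.2)
      rw [Ψ.left_inv hy.2, h1] at h2
      exact ⟨h2.2.2, h2.1⟩
    -- the smoothness of `a`
    obtain ⟨r1, hr1, hr1r, hasm⟩ : ∃ r1 : ℝ, 0 < r1 ∧ r1 ≤ r ∧
        ContDiffOn ℝ ∞ (fun x : E => a (L.φ.symm x)) (ball 0 r1) := by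
      -- all arguments small
      have hκL : ContinuousAt (fun x : E => L.φ (κ (L.φ.symm x))) 0 := by
        refine ContinuousAt.comp (g := L.φ) (f := fun x : E => κ (L.φ.symm x)) ?_
          (hκc.continuousAt.comp L.continuousAt_symm)
        simpa only [L.symm_zero, hκ1'] using L.continuousAt_φ
      have h1 : ∀ᶠ x : E in 𝓝 0, L.φ.symm x ∈ V ∧ |a (L.φ.symm x)| < δ / 6 ∧
          x ∈ ball (0 : E) σ ∧ L.φ (κ (L.φ.symm x)) ∈ ball (0 : E) r := by
        have hc0 : ContinuousAt (fun x : E => a (L.φ.symm x)) 0 := by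
          refine ContinuousAt.comp (g := a) (f := L.φ.symm) ?_ L.continuousAt_symm
          rw [L.symm_zero]
          exact hac.continuousAt hVn
        refine Filter.Eventually.and ?_ (Filter.Eventually.and ?_ (Filter.Eventually.and ?_ ?_))
        · refine L.continuousAt_symm ?_
          rw [L.symm_zero]
          exact hVn
        · have h2 : ContinuousAt (fun x : E => |a (L.φ.symm x)|) 0 := hc0.abs
          refine h2.eventually (gt_mem_nhds ?_)
          simp only [L.symm_zero, ha1, abs_zero]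
          linarith
        · exact ball_mem_nhds _ hσ
        · refine hκL ?_
          simp only [L.symm_zero, hκ1', L.φ_one]
          exact ball_mem_nhds _ hr
      have h1C : ∀ᶠ p : E × E in 𝓝 (0, 0),
          |C (L.φ.symm p.1) (L.φ.symm p.2)| < δ / 6 ∧
          |C (κ (L.φ.symm p.1)) (κ (L.φ.symm p.2))| < δ / 6 ∧
          (L.φ.symm p.1 * L.φ.symm p.2 ∈ V ∧ |a (L.φ.symm p.1 * L.φ.symm p.2)| < δ / 6) := by
        refine Filter.Eventually.and ?_ (Filter.Eventually.and ?_ ?_)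
        · refine hCcont.abs.eventually (gt_mem_nhds ?_)
          simp only [L.symm_zero, hC0, abs_zero]
          linarith
        · have h2 : ContinuousAt (fun p : E × E => C (L.φ.symm (L.φ (κ (L.φ.symm p.1))))
              (L.φ.symm (L.φ (κ (L.φ.symm p.2))))) (0, 0) := by
            refine ContinuousAt.comp (f := fun p : E × E => (L.φ (κ (L.φ.symm p.1)),
              L.φ (κ (L.φ.symm p.2)))) (g := fun p : E × E => C (L.φ.symm p.1) (L.φ.symm p.2))
              ?_ (ContinuousAt.prodMk ?_ ?_)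
            · simpa only [L.symm_zero, hκ1', L.φ_one] using hCcont
            · exact ContinuousAt.comp (f := fun p : E × E => p.1)
                (g := fun x : E => L.φ (κ (L.φ.symm x))) hκL continuousAt_fst
            · exact ContinuousAt.comp (f := fun p : E × E => p.2)
                (g := fun x : E => L.φ (κ (L.φ.symm x))) hκL continuousAt_snd
          have h3 : ∀ᶠ p : E × E in 𝓝 (0, 0), |C (L.φ.symm (L.φ (κ (L.φ.symm p.1))))
              (L.φ.symm (L.φ (κ (L.φ.symm p.2))))| < δ / 6 := by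
            refine h2.abs.eventually (gt_mem_nhds ?_)
            simp only [L.symm_zero, hκ1', L.φ_one, hC0, abs_zero]
            linarith
          have h4 : ∀ᶠ p : E × E in 𝓝 (0, 0), p.1 ∈ ball (0 : E) σ ∧ p.2 ∈ ball (0 : E) σ := by
            refine Filter.Eventually.and ?_ ?_
            · exact continuousAt_fst (ball_mem_nhds (0 : E) hσ)
            · exact continuousAt_snd (ball_mem_nhds (0 : E) hσ)
          filter_upwards [h3, h4] with p hp hp'
          rwa [L.φ.left_inv (hκ1 p.1 hp'.1), L.φ.left_inv (hκ1 p.2 hp'.2)] at hp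
        · have hmc : ContinuousAt (fun p : E × E => L.φ.symm p.1 * L.φ.symm p.2) (0, 0) := by
            refine ContinuousAt.mul ?_ ?_
            · exact ContinuousAt.comp (f := fun p : E × E => p.1) (g := L.φ.symm)
                L.continuousAt_symm continuousAt_fst
            · exact ContinuousAt.comp (f := fun p : E × E => p.2) (g := L.φ.symm)
                L.continuousAt_symm continuousAt_snd
          have hm1 : L.φ.symm (0 : E) * L.φ.symm (0 : E) = 1 := by
            rw [L.symm_zero, mul_one]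
          refine Filter.Eventually.and (hmc ?_) ?_
          · simp only [hm1]
            exact hVn
          · have h2 : ContinuousAt (fun p : E × E => a (L.φ.symm p.1 * L.φ.symm p.2)) (0, 0) := by
              refine ContinuousAt.comp (g := a)
                (f := fun p : E × E => L.φ.symm p.1 * L.φ.symm p.2) ?_ hmc
              simp only [hm1]
              exact hac.continuousAt hVn
            refine h2.abs.eventually (gt_mem_nhds ?_)
            simp only [hm1, ha1, abs_zero]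
            linarith
      obtain ⟨ρa, hρa, h2⟩ := Metric.eventually_nhds_iff_ball.mp h1
      obtain ⟨ρb, hρb, h2C⟩ := Metric.eventually_nhds_iff_ball.mp h1C
      set ρ := min (min ρa ρb) r with hρdef
      have hρ : 0 < ρ := lt_min (lt_min hρa hρb) hr
      have hρa' : ball (0 : E) ρ ⊆ ball 0 ρa :=
        ball_subset_ball ((min_le_left _ _).trans (min_le_left _ _))
      have hρb' : ball (0 : E) ρ ⊆ ball 0 ρb :=
        ball_subset_ball ((min_le_left _ _).trans (min_le_right _ _))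
      have hρr : ρ ≤ r := min_le_right _ _
      have hρr' : ball (0 : E) ρ ⊆ ball 0 r := ball_subset_ball hρr
      have hid : ∀ x ∈ ball (0 : E) ρ, ∀ y ∈ ball (0 : E) ρ,
          a (L.φ.symm x) + a (L.φ.symm y) - a (L.φ.symm x * L.φ.symm y) =
            C (L.φ.symm x) (L.φ.symm y) -
            C (L.φ.symm (L.φ (κ (L.φ.symm x)))) (L.φ.symm (L.φ (κ (L.φ.symm y)))) := by
        intro x hx y hy
        obtain ⟨hxV, hxa, hxσ, hxκ⟩ := h2 x (hρa' hx)
        obtain ⟨hyV, hya, hyσ, hyκ⟩ := h2 y (hρa' hy)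
        obtain ⟨hCxy, hCκ, hxyV, hxya⟩ := h2C (x, y) (by
          rw [← ball_prod_same]
          exact ⟨hρb' hx, hρb' hy⟩)
        simp only at hCxy hCκ hxyV hxya
        have hlx := L.φ.left_inv (hκ1 x hxσ)
        have hly := L.φ.left_inv (hκ1 y hyσ)
        have e1 := hC _ (hρr' hx) _ (hρr' hy)
        have e2 := hC _ hxκ _ hyκ
        have hlx' : L.φ.symm (L.φ (κ (L.φ.symm x))) = κ (L.φ.symm x) := hlx
        have hly' : L.φ.symm (L.φ (κ (L.φ.symm y))) = κ (L.φ.symm y) := hly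
        rw [hlx', hly'] at e2 ⊢
        set X := L.φ.symm x with hX
        set Y := L.φ.symm y with hY
        have hκm : κ X * κ Y = κ (X * Y) := by simp only [hκ]; group
        have e3 : g * (s X * s Y) * g⁻¹ = e (a X + a Y + C (κ X) (κ Y)) * s (κ (X * Y)) := by
          calc g * (s X * s Y) * g⁻¹ = (g * s X * g⁻¹) * (g * s Y * g⁻¹) := by group
            _ = (e (a X) * s (κ X)) * (e (a Y) * s (κ Y)) := by
              rw [(hVspec X hxV).1, (hVspec Y hyV).1]
            _ = e (a X) * (s (κ X) * e (a Y)) * s (κ Y) := by group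
            _ = e (a X) * (e (a Y) * s (κ X)) * s (κ Y) := by rw [he_central (a Y) (s (κ X))]
            _ = e (a X) * e (a Y) * (s (κ X) * s (κ Y)) := by group
            _ = e (a X + a Y + C (κ X) (κ Y)) * s (κ (X * Y)) := by
              rw [e2, hκm, he_add, he_add]; group
        have e4 : g * (s X * s Y) * g⁻¹ = e (C X Y + a (X * Y)) * s (κ (X * Y)) := by
          calc g * (s X * s Y) * g⁻¹ = g * (e (C X Y) * s (X * Y)) * g⁻¹ := by rw [e1]
            _ = (g * e (C X Y)) * s (X * Y) * g⁻¹ := by group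
            _ = (e (C X Y) * g) * s (X * Y) * g⁻¹ := by rw [he_central (C X Y) g]
            _ = e (C X Y) * (g * s (X * Y) * g⁻¹) := by group
            _ = e (C X Y) * (e (a (X * Y)) * s (κ (X * Y))) := by rw [(hVspec _ hxyV).1]
            _ = e (C X Y + a (X * Y)) * s (κ (X * Y)) := by rw [he_add]; group
        have e5 : e (a X + a Y + C (κ X) (κ Y)) = e (C X Y + a (X * Y)) :=
          mul_right_cancel (e3.symm.trans e4)
        have b1 := abs_lt.mp hxa
        have b2 := abs_lt.mp hya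
        have b3 := abs_lt.mp hCκ
        have b4 := abs_lt.mp hCxy
        have b5 := abs_lt.mp hxya
        have e6 := he_inj (x₁ := a X + a Y + C (κ X) (κ Y)) (x₂ := C X Y + a (X * Y))
          ⟨by linarith [b1.1, b2.1, b3.1], by linarith [b1.2, b2.2, b3.2]⟩
          ⟨by linarith [b4.1, b5.1], by linarith [b4.2, b5.2]⟩ e5
        linarith
      obtain ⟨r1, hr1, hr1ρ, h5⟩ := smooth_of_coboundary L a V hVn hac ρ hρ (hρr.trans hrL) (by
        refine ContDiffOn.congr (f := fun p : E × E => C (L.φ.symm p.1) (L.φ.symm p.2) -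
          C (L.φ.symm (L.φ (κ (L.φ.symm p.1)))) (L.φ.symm (L.φ (κ (L.φ.symm p.2))))) ?_
          (fun p hp => hid p.1 hp.1 p.2 hp.2)
        refine ContDiffOn.sub (hCs.mono (Set.prod_mono hρr' hρr')) ?_
        refine hCs.comp (f := fun p : E × E => (L.φ (κ (L.φ.symm p.1)), L.φ (κ (L.φ.symm p.2))))
          (ContDiffOn.prodMk ?_ ?_) ?_
        · exact hκ2.comp (f := fun p : E × E => p.1) (by fun_prop) fun p hp =>
            (h2 p.1 (hρa' hp.1)).2.2.1
        · exact hκ2.comp (f := fun p : E × E => p.2) (by fun_prop) fun p hp =>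
            (h2 p.2 (hρa' hp.2)).2.2.1
        · intro p hp
          exact ⟨(h2 p.1 (hρa' hp.1)).2.2.2, (h2 p.2 (hρa' hp.2)).2.2.2⟩)
      exact ⟨r1, hr1, hr1ρ.trans hρr, h5⟩
    -- the conjugation
    have hac0 : ContinuousAt (fun x : ℝ × E => a (L.φ.symm x.2)) (0, 0) := by
      refine ContinuousAt.comp (g := fun x : E => a (L.φ.symm x)) (f := fun x : ℝ × E => x.2) ?_
        continuousAt_snd
      exact hasm.continuousOn.continuousAt (ball_mem_nhds _ hr1)
    have hFc : ContinuousAt (fun x : ℝ × E => (x.1 + a (L.φ.symm x.2), κ (L.φ.symm x.2)))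
        (0, 0) :=
      ContinuousAt.prodMk (continuousAt_fst.add hac0) (hκc.continuousAt.comp hφs)
    have h1 : ∀ᶠ x : ℝ × E in 𝓝 (0, 0),
        (x.2 ∈ ball (0 : E) r ∧ (x.1, L.φ.symm x.2) ∈ T) ∧ x.2 ∈ ball (0 : E) (min σ r1) ∧
        L.φ.symm x.2 ∈ V ∧ (x.1 + a (L.φ.symm x.2), κ (L.φ.symm x.2)) ∈ T := by
      refine hballT.and (Filter.Eventually.and ?_ (Filter.Eventually.and (hφs ?_) (hFc ?_)))
      · exact continuousAt_snd (ball_mem_nhds (0 : E) (lt_min hσ hr1))
      · simp only [L.symm_zero]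
        exact hVn
      · refine hTopen.mem_nhds ?_
        simp only [L.symm_zero, ha1, hκ1', add_zero]
        exact hTmem
    obtain ⟨ρ, hρ, h2⟩ := Metric.eventually_nhds_iff_ball.mp h1
    have h4 : ∀ x ∈ ball (0 : ℝ × E) ρ, g * φ'.symm x * g⁻¹ ∈ φ'.source ∧
        φ' (g * φ'.symm x * g⁻¹) = (x.1 + a (L.φ.symm x.2), L.φ (κ (L.φ.symm x.2))) := by
      intro x hx
      obtain ⟨⟨hx1, hx2⟩, -, hxV, hxF⟩ := h2 x hx
      refine hkey _ _ _ hxF ?_
      rw [hsymm x hx1 hx2, he_add]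
      calc g * (e x.1 * s (L.φ.symm x.2)) * g⁻¹ = (g * e x.1) * s (L.φ.symm x.2) * g⁻¹ := by group
        _ = (e x.1 * g) * s (L.φ.symm x.2) * g⁻¹ := by rw [he_central]
        _ = e x.1 * (g * s (L.φ.symm x.2) * g⁻¹) := by group
        _ = e x.1 * (e (a (L.φ.symm x.2)) * s (κ (L.φ.symm x.2))) := by rw [(hVspec _ hxV).1]
        _ = _ := by group
    refine ⟨ρ, hρ, fun x hx => (h4 x hx).1, ?_⟩
    refine ContDiffOn.congr (f := fun x : ℝ × E =>
      (x.1 + a (L.φ.symm x.2), L.φ (κ (L.φ.symm x.2)))) ?_ (fun x hx => (h4 x hx).2)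
    refine ContDiffOn.prodMk (ContDiffOn.add (by fun_prop) ?_) ?_
    · exact hasm.comp (f := fun x : ℝ × E => x.2) (by fun_prop) fun x hx =>
        ball_subset_ball (min_le_right _ _) (h2 x hx).2.1
    · exact hκ2.comp (f := fun x : ℝ × E => x.2) (by fun_prop) fun x hx =>
        ball_subset_ball (min_le_left _ _) (h2 x hx).2.1

end

end MP_e326dc_an
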